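import Mathlib

set_option autoImplicit false

namespace Pool.Agent.Helper187.Haar

open Finset

/-- Haar functions of a binary tree of depth m, numbered from left to right by the midpoints. -/
noncomputable def hr : ℕ → ℕ → ℕ → ℝ
  | 0, _, _ => 0
  | (m+1), k, t => if k < 2 ^ m - 1 then (if t < 2 ^ m then Real.sqrt 2 * hr m k t else 0)
      else if k = 2 ^ m - 1 then (if t < 2 ^ m then 1 else -1)
      else (if t < 2 ^ m then 0 else Real.sqrt 2 * hr m (k - 2 ^ m) (t - 2 ^ m))

/-- coefficients of the extremal direction -/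
noncomputable def al : ℕ → ℕ → ℝ
  | 0, _ => 0
  | (m+1), k => if k < 2 ^ m - 1 then al m k / Real.sqrt 2
      else if k = 2 ^ m - 1 then 1
      else al m (k - 2 ^ m) / Real.sqrt 2

lemma hr_LL (m k t : ℕ) (hk : k < 2 ^ m - 1) (ht : t < 2 ^ m) :
    hr (m+1) k t = Real.sqrt 2 * hr m k t := by
  rw [hr, if_pos hk, if_pos ht]

lemma hr_LR (m k t : ℕ) (hk : k < 2 ^ m - 1) : hr (m+1) k (2 ^ m + t) = 0 := by
  rw [hr, if_pos hk, if_neg (by omega)]

lemma hr_0L (m t : ℕ) (ht : t < 2 ^ m) : hr (m+1) (2 ^ m - 1) t = 1 := by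
  rw [hr, if_neg (by omega), if_pos rfl, if_pos ht]

lemma hr_0R (m t : ℕ) : hr (m+1) (2 ^ m - 1) (2 ^ m + t) = -1 := by
  rw [hr, if_neg (by omega), if_pos rfl, if_neg (by omega)]

lemma two_pow_pos' (m : ℕ) : 0 < 2 ^ m := by positivity

lemma hr_RL (m k t : ℕ) (ht : t < 2 ^ m) : hr (m+1) (2 ^ m + k) t = 0 := by
  have := two_pow_pos' m
  rw [hr, if_neg (by omega), if_neg (by omega), if_pos ht]

lemma hr_RR (m k t : ℕ) : hr (m+1) (2 ^ m + k) (2 ^ m + t) = Real.sqrt 2 * hr m k t := by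
  have := two_pow_pos' m
  rw [hr, if_neg (by omega), if_neg (by omega), if_neg (by omega), Nat.add_sub_cancel_left,
    Nat.add_sub_cancel_left]

lemma al_L (m k : ℕ) (hk : k < 2 ^ m - 1) : al (m+1) k = al m k / Real.sqrt 2 := by
  rw [al, if_pos hk]

lemma al_0 (m : ℕ) : al (m+1) (2 ^ m - 1) = 1 := by
  rw [al, if_neg (by omega), if_pos rfl]

lemma al_R (m k : ℕ) : al (m+1) (2 ^ m + k) = al m k / Real.sqrt 2 := by
  have := two_pow_pos' m
  rw [al, if_neg (by omega), if_neg (by omega), Nat.add_sub_cancel_left]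

lemma sum_split (n : ℕ) (F : ℕ → ℝ) : ∑ l ∈ range (2 ^ (n+1)), F l =
    ∑ l ∈ range (2 ^ n), F l + ∑ l ∈ range (2 ^ n), F (2 ^ n + l) := by
  rw [pow_succ, mul_two, sum_range_add]

lemma sum_split1 (n : ℕ) (F : ℕ → ℝ) : ∑ l ∈ range (2 ^ (n+1) - 1), F l =
    ∑ l ∈ range (2 ^ n - 1), F l + F (2 ^ n - 1) + ∑ l ∈ range (2 ^ n - 1), F (2 ^ n + l) := by
  have h0 := two_pow_pos' n
  have h : 2 ^ (n+1) - 1 = (2 ^ n - 1 + 1) + (2 ^ n - 1) := by rw [pow_succ]; omega
  rw [h, sum_range_add, sum_range_succ]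
  congr 1
  apply sum_congr rfl
  intro l _
  congr 1
  omega

lemma sqrt2_sq : Real.sqrt 2 * Real.sqrt 2 = 2 := Real.mul_self_sqrt (by norm_num)

lemma sqrt2_pos : 0 < Real.sqrt 2 := Real.sqrt_pos.mpr (by norm_num)

lemma al_sq (m : ℕ) : ∑ k ∈ range (2 ^ m - 1), al m k ^ 2 = m := by
  induction m with
  | zero => simp
  | succ m ih =>
    rw [sum_split1]
    have h1 : ∀ k ∈ range (2 ^ m - 1), al (m+1) k ^ 2 = al m k ^ 2 / 2 := by
      intro k hk
      rw [al_L m k (mem_range.mp hk), div_pow, sq (Real.sqrt 2), sqrt2_sq]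
    have h2 : ∀ k ∈ range (2 ^ m - 1), al (m+1) (2 ^ m + k) ^ 2 = al m k ^ 2 / 2 := by
      intro k hk
      rw [al_R m k, div_pow, sq (Real.sqrt 2), sqrt2_sq]
    rw [sum_congr rfl h1, sum_congr rfl h2, al_0, ← sum_div, ih]
    push_cast
    ring

lemma hr_mean (m : ℕ) : ∀ k < 2 ^ m - 1, ∑ t ∈ range (2 ^ m), hr m k t = 0 := by
  induction m with
  | zero => intro k hk; simp at hk
  | succ m ih =>
    intro k hk
    have h0 := two_pow_pos' m
    rw [sum_split]
    rcases lt_trichotomy k (2 ^ m - 1) with h | h | h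
    · rw [sum_congr rfl (fun t ht => hr_LL m k t h (mem_range.mp ht)),
        sum_congr rfl (fun t _ => hr_LR m k t h), ← mul_sum, ih k h]
      simp
    · subst h
      rw [sum_congr rfl (fun t ht => hr_0L m t (mem_range.mp ht)),
        sum_congr rfl (fun t _ => hr_0R m t)]
      simp
    · obtain ⟨j, rfl⟩ : ∃ j, k = 2 ^ m + j := ⟨k - 2 ^ m, by omega⟩
      rw [sum_congr rfl (fun t ht => hr_RL m j t (mem_range.mp ht)),
        sum_congr rfl (fun t _ => hr_RR m j t), ← mul_sum, ih j (by rw [pow_succ] at hk; omega)]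
      simp

lemma hr_orth (m : ℕ) : ∀ j < 2 ^ m - 1, ∀ k < 2 ^ m - 1,
    ∑ t ∈ range (2 ^ m), hr m j t * hr m k t = if j = k then (2:ℝ) ^ m else 0 := by
  induction m with
  | zero => intro k hk; simp at hk
  | succ m ih =>
    intro j hj k hk
    have h0 := two_pow_pos' m
    rw [sum_split]
    rcases lt_trichotomy j (2 ^ m - 1) with h | h | h
    · rcases lt_trichotomy k (2 ^ m - 1) with h' | h' | h'
      · have e1 : ∀ t ∈ range (2 ^ m), hr (m+1) j t * hr (m+1) k t = 2 * (hr m j t * hr m k t) := by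
          intro t ht
          rw [hr_LL m j t h (mem_range.mp ht), hr_LL m k t h' (mem_range.mp ht)]
          linear_combination (hr m j t * hr m k t) * sqrt2_sq
        have e2 : ∀ t ∈ range (2 ^ m), hr (m+1) j (2 ^ m + t) * hr (m+1) k (2 ^ m + t) = 0 := by
          intro t _
          rw [hr_LR m j t h, zero_mul]
        rw [sum_congr rfl e1, sum_congr rfl e2, ← mul_sum, ih j h k h']
        split_ifs
        · simp; ring
        · simp
      · subst h'
        have e1 : ∀ t ∈ range (2 ^ m), hr (m+1) j t * hr (m+1) (2 ^ m - 1) t =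
            Real.sqrt 2 * hr m j t := by
          intro t ht
          rw [hr_LL m j t h (mem_range.mp ht), hr_0L m t (mem_range.mp ht), mul_one]
        have e2 : ∀ t ∈ range (2 ^ m), hr (m+1) j (2 ^ m + t) * hr (m+1) (2 ^ m - 1) (2 ^ m + t) = 0 := by
          intro t _
          rw [hr_LR m j t h, zero_mul]
        rw [sum_congr rfl e1, sum_congr rfl e2, ← mul_sum, hr_mean m j h, if_neg (by omega)]
        simp
      · obtain ⟨k', rfl⟩ : ∃ k', k = 2 ^ m + k' := ⟨k - 2 ^ m, by omega⟩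
        have e1 : ∀ t ∈ range (2 ^ m), hr (m+1) j t * hr (m+1) (2 ^ m + k') t = 0 := by
          intro t ht
          rw [hr_RL m k' t (mem_range.mp ht), mul_zero]
        have e2 : ∀ t ∈ range (2 ^ m), hr (m+1) j (2 ^ m + t) * hr (m+1) (2 ^ m + k') (2 ^ m + t) = 0 := by
          intro t _
          rw [hr_LR m j t h, zero_mul]
        rw [sum_congr rfl e1, sum_congr rfl e2, if_neg (by omega)]
        simp
    · subst h
      rcases lt_trichotomy k (2 ^ m - 1) with h' | h' | h'
      · have e1 : ∀ t ∈ range (2 ^ m), hr (m+1) (2 ^ m - 1) t * hr (m+1) k t =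
            Real.sqrt 2 * hr m k t := by
          intro t ht
          rw [hr_LL m k t h' (mem_range.mp ht), hr_0L m t (mem_range.mp ht), one_mul]
        have e2 : ∀ t ∈ range (2 ^ m), hr (m+1) (2 ^ m - 1) (2 ^ m + t) * hr (m+1) k (2 ^ m + t) = 0 := by
          intro t _
          rw [hr_LR m k t h', mul_zero]
        rw [sum_congr rfl e1, sum_congr rfl e2, ← mul_sum, hr_mean m k h', if_neg (by omega)]
        simp
      · subst h'
        have e1 : ∀ t ∈ range (2 ^ m), hr (m+1) (2 ^ m - 1) t * hr (m+1) (2 ^ m - 1) t = 1 := by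
          intro t ht
          rw [hr_0L m t (mem_range.mp ht), one_mul]
        have e2 : ∀ t ∈ range (2 ^ m), hr (m+1) (2 ^ m - 1) (2 ^ m + t) * hr (m+1) (2 ^ m - 1) (2 ^ m + t) = 1 := by
          intro t _
          rw [hr_0R m t]
          norm_num
        rw [sum_congr rfl e1, sum_congr rfl e2, if_pos rfl]
        simp
        ring
      · obtain ⟨k', rfl⟩ : ∃ k', k = 2 ^ m + k' := ⟨k - 2 ^ m, by omega⟩
        have e1 : ∀ t ∈ range (2 ^ m), hr (m+1) (2 ^ m - 1) t * hr (m+1) (2 ^ m + k') t = 0 := by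
          intro t ht
          rw [hr_RL m k' t (mem_range.mp ht), mul_zero]
        have e2 : ∀ t ∈ range (2 ^ m), hr (m+1) (2 ^ m - 1) (2 ^ m + t) * hr (m+1) (2 ^ m + k') (2 ^ m + t) =
            -(Real.sqrt 2) * hr m k' t := by
          intro t _
          rw [hr_0R m t, hr_RR m k' t]
          ring
        rw [sum_congr rfl e1, sum_congr rfl e2, ← mul_sum,
          hr_mean m k' (by rw [pow_succ] at hk; omega), if_neg (by omega)]
        simp
    · obtain ⟨j', rfl⟩ : ∃ j', j = 2 ^ m + j' := ⟨j - 2 ^ m, by omega⟩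
      rcases lt_trichotomy k (2 ^ m - 1) with h' | h' | h'
      · have e1 : ∀ t ∈ range (2 ^ m), hr (m+1) (2 ^ m + j') t * hr (m+1) k t = 0 := by
          intro t ht
          rw [hr_RL m j' t (mem_range.mp ht), zero_mul]
        have e2 : ∀ t ∈ range (2 ^ m), hr (m+1) (2 ^ m + j') (2 ^ m + t) * hr (m+1) k (2 ^ m + t) = 0 := by
          intro t _
          rw [hr_LR m k t h', mul_zero]
        rw [sum_congr rfl e1, sum_congr rfl e2, if_neg (by omega)]
        simp
      · subst h'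
        have e1 : ∀ t ∈ range (2 ^ m), hr (m+1) (2 ^ m + j') t * hr (m+1) (2 ^ m - 1) t = 0 := by
          intro t ht
          rw [hr_RL m j' t (mem_range.mp ht), zero_mul]
        have e2 : ∀ t ∈ range (2 ^ m), hr (m+1) (2 ^ m + j') (2 ^ m + t) * hr (m+1) (2 ^ m - 1) (2 ^ m + t) =
            -(Real.sqrt 2) * hr m j' t := by
          intro t _
          rw [hr_0R m t, hr_RR m j' t]
          ring
        rw [sum_congr rfl e1, sum_congr rfl e2, ← mul_sum,
          hr_mean m j' (by rw [pow_succ] at hj; omega), if_neg (by omega)]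
        simp
      · obtain ⟨k', rfl⟩ : ∃ k', k = 2 ^ m + k' := ⟨k - 2 ^ m, by omega⟩
        have e1 : ∀ t ∈ range (2 ^ m), hr (m+1) (2 ^ m + j') t * hr (m+1) (2 ^ m + k') t = 0 := by
          intro t ht
          rw [hr_RL m j' t (mem_range.mp ht), zero_mul]
        have e2 : ∀ t ∈ range (2 ^ m), hr (m+1) (2 ^ m + j') (2 ^ m + t) * hr (m+1) (2 ^ m + k') (2 ^ m + t) =
            2 * (hr m j' t * hr m k' t) := by
          intro t _
          rw [hr_RR m j' t, hr_RR m k' t]
          linear_combination (hr m j' t * hr m k' t) * sqrt2_sq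
        rw [sum_congr rfl e1, sum_congr rfl e2, ← mul_sum,
          ih j' (by rw [pow_succ] at hj; omega) k' (by rw [pow_succ] at hk; omega)]
        by_cases hjk : j' = k'
        · subst hjk; simp; ring
        · rw [if_neg hjk, if_neg (by omega)]; simp

/-- partial sums up to the point itself -/
noncomputable def P (m : ℕ) (x : ℕ → ℝ) (t : ℕ) : ℝ := ∑ k ∈ range t, x k * hr m k t

lemma P_left (m : ℕ) (x : ℕ → ℝ) (t : ℕ) (ht : t < 2 ^ m) : P (m+1) x t = Real.sqrt 2 * P m x t := by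
  unfold P
  rw [mul_sum]
  apply sum_congr rfl
  intro k hk
  rw [mem_range] at hk
  rw [hr_LL m k t (by omega) ht]
  ring

lemma P_right (m : ℕ) (x : ℕ → ℝ) (t : ℕ) :
    P (m+1) x (2 ^ m + t) = - x (2 ^ m - 1) + Real.sqrt 2 * P m (fun k => x (2 ^ m + k)) t := by
  unfold P
  have h0 := two_pow_pos' m
  rw [sum_range_add]
  have h1 : ∑ k ∈ range (2 ^ m), x k * hr (m+1) k (2 ^ m + t) = - x (2 ^ m - 1) := by
    conv_lhs => rw [show 2 ^ m = (2 ^ m - 1) + 1 by omega]
    rw [sum_range_succ]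
    have : ∀ k ∈ range (2 ^ m - 1), x k * hr (m+1) k (2 ^ m - 1 + 1 + t) = 0 := by
      intro k hk
      rw [show 2 ^ m - 1 + 1 + t = 2 ^ m + t by omega, hr_LR m k t (mem_range.mp hk), mul_zero]
    rw [sum_congr rfl this]
    rw [show 2 ^ m - 1 + 1 + t = 2 ^ m + t by omega, hr_0R m t]
    simp
  rw [h1, mul_sum]
  congr 1
  apply sum_congr rfl
  intro k _
  rw [hr_RR]
  ring

lemma P_first (m : ℕ) : ∀ x : ℕ → ℝ, ∑ t ∈ range (2 ^ m), P m x t =
    -(2 ^ m / 2) * ∑ k ∈ range (2 ^ m - 1), al m k * x k := by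
  induction m with
  | zero => intro x; simp [P]
  | succ m ih =>
    intro x
    rw [sum_split, sum_split1]
    rw [sum_congr rfl (fun t ht => P_left m x t (mem_range.mp ht)),
      sum_congr rfl (fun t _ => P_right m x t), ← mul_sum, sum_add_distrib, ← mul_sum, ih, ih]
    have h1 : ∀ k ∈ range (2 ^ m - 1), al (m+1) k * x k = (1 / Real.sqrt 2) * (al m k * x k) := by
      intro k hk
      rw [al_L m k (mem_range.mp hk)]
      ring
    have h2 : ∀ k ∈ range (2 ^ m - 1), al (m+1) (2 ^ m + k) * x (2 ^ m + k) =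
        (1 / Real.sqrt 2) * (al m k * x (2 ^ m + k)) := by
      intro k hk
      rw [al_R m k]
      ring
    rw [sum_congr rfl h1, sum_congr rfl h2, ← mul_sum, ← mul_sum, al_0]
    have h3 : 1 / Real.sqrt 2 = Real.sqrt 2 / 2 := by
      have := sqrt2_pos
      have := sqrt2_sq
      field_simp
      nlinarith
    rw [h3]
    simp only [sum_const, card_range, nsmul_eq_mul]
    push_cast
    ring

lemma P_second (m : ℕ) : ∀ x : ℕ → ℝ, ∑ t ∈ range (2 ^ m), (P m x t) ^ 2 ≤
    2 ^ m * (m * ∑ k ∈ range (2 ^ m - 1), x k ^ 2) := by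
  induction m with
  | zero => intro x; simp [P]
  | succ m ih =>
    intro x
    rw [sum_split, sum_split1]
    have hL := ih x
    have hR := ih (fun k => x (2 ^ m + k))
    set SL := ∑ k ∈ range (2 ^ m - 1), x k ^ 2 with hSL
    set SR := ∑ k ∈ range (2 ^ m - 1), x (2 ^ m + k) ^ 2 with hSR
    have hSL0 : 0 ≤ SL := sum_nonneg (fun _ _ => sq_nonneg _)
    have hSR0 : 0 ≤ SR := sum_nonneg (fun _ _ => sq_nonneg _)
    have h1 : ∀ t ∈ range (2 ^ m), (P (m+1) x t) ^ 2 = 2 * (P m x t) ^ 2 := by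
      intro t ht
      rw [P_left m x t (mem_range.mp ht), mul_pow, sq (Real.sqrt 2), sqrt2_sq]
    rw [sum_congr rfl h1, ← mul_sum]
    set r := x (2 ^ m - 1) with hr
    have h2 : ∑ t ∈ range (2 ^ m), (P (m+1) x (2 ^ m + t)) ^ 2 ≤
        2 ^ m * (((m:ℝ)+1) * r ^ 2) + 2 * (2 ^ m * ((m+1) * SR)) := by
      rcases Nat.eq_zero_or_pos m with h | h
      · subst h
        have e0 : ∑ t ∈ range (2 ^ 0), (P (0+1) x (2 ^ 0 + t)) ^ 2 = r ^ 2 := by
          rw [pow_zero, sum_range_one]
          have := P_right 0 x 0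
          rw [pow_zero] at this
          rw [this]
          unfold P
          rw [range_zero, sum_empty, hr]
          simp
        rw [e0]
        simp
        linarith
      · have hm : (0:ℝ) < m := by exact_mod_cast h
        have h3 : ∀ t ∈ range (2 ^ m), (P (m+1) x (2 ^ m + t)) ^ 2 ≤
            (m+1) * r ^ 2 + 2 * ((m+1)/m) * (P m (fun k => x (2 ^ m + k)) t) ^ 2 := by
          intro t _
          rw [P_right]
          set p := P m (fun k => x (2 ^ m + k)) t
          have e1 : (-r + Real.sqrt 2 * p) ^ 2 = r ^ 2 - 2 * Real.sqrt 2 * (r * p) + 2 * p ^ 2 := by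
            linear_combination (p ^ 2) * sqrt2_sq
          rw [e1]
          have e2 : 0 ≤ (m * r + Real.sqrt 2 * p) ^ 2 / m := by positivity
          have e3 : (m * r + Real.sqrt 2 * p) ^ 2 / m = m * r ^ 2 + 2 * Real.sqrt 2 * (r * p) + 2 * p ^ 2 / m := by
            field_simp
            linear_combination (p ^ 2) * sqrt2_sq
          rw [e3] at e2
          have e4 : 2 * (((m:ℝ)+1)/m) * p ^ 2 = 2 * p ^ 2 + 2 * p ^ 2 / m := by
            field_simp
          rw [e4]
          linarith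
        calc _ ≤ ∑ t ∈ range (2 ^ m), (((m:ℝ)+1) * r ^ 2 + 2 * (((m:ℝ)+1)/m) *
              (P m (fun k => x (2 ^ m + k)) t) ^ 2) := sum_le_sum h3
          _ = 2 ^ m * (((m:ℝ)+1) * r ^ 2) + 2 * (((m:ℝ)+1)/m) *
              ∑ t ∈ range (2 ^ m), (P m (fun k => x (2 ^ m + k)) t) ^ 2 := by
              rw [sum_add_distrib, sum_const, card_range, nsmul_eq_mul, ← mul_sum]
              push_cast
              rfl
          _ ≤ 2 ^ m * (((m:ℝ)+1) * r ^ 2) + 2 * (((m:ℝ)+1)/m) * (2 ^ m * (m * SR)) := by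
              have : 0 ≤ 2 * (((m:ℝ)+1)/m) := by positivity
              have := mul_le_mul_of_nonneg_left hR this
              linarith
          _ = _ := by field_simp
    push_cast
    have hp : (0:ℝ) < 2 ^ m := by positivity
    rw [pow_succ]
    have hm0 : (0:ℝ) ≤ m := Nat.cast_nonneg m
    have h5 : (2:ℝ) ^ m * (m * SL) ≤ 2 ^ m * ((m+1) * SL) := by
      apply mul_le_mul_of_nonneg_left _ hp.le
      nlinarith
    have h6 : 0 ≤ (2:ℝ) ^ m * (((m:ℝ)+1) * r ^ 2) := by positivity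
    nlinarith

end Pool.Agent.Helper187.Haar
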