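import Mathlib

set_option autoImplicit false

namespace Pool.Agent.Helper187.Rad

open Finset

/-- Paley-Zygmund inequality, counting form -/
lemma pz {Ω : Type} [Fintype Ω] (Y : Ω → ℝ) (T : ℝ) (hT : 0 ≤ T)
    (h : T * Fintype.card Ω ≤ |∑ w, Y w|) :
    (|∑ w, Y w| - T * Fintype.card Ω) ^ 2 ≤
      ((univ.filter (fun w => T ≤ |Y w|)).card : ℝ) * ∑ w, Y w ^ 2 := by
  classical
  have h1 : |∑ w, Y w| ≤ T * Fintype.card Ω + ∑ w ∈ univ.filter (fun w => T ≤ |Y w|), |Y w| := by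
    calc |∑ w, Y w| ≤ ∑ w, |Y w| := abs_sum_le_sum_abs _ _
      _ = ∑ w ∈ univ.filter (fun w => T ≤ |Y w|), |Y w| +
          ∑ w ∈ univ.filter (fun w => ¬ (T ≤ |Y w|)), |Y w| := (sum_filter_add_sum_filter_not _ _ _).symm
      _ ≤ ∑ w ∈ univ.filter (fun w => T ≤ |Y w|), |Y w| +
          ∑ w ∈ univ.filter (fun w => ¬ (T ≤ |Y w|)), T := by
          apply add_le_add_right
          apply sum_le_sum
          intro w hw
          rw [mem_filter, not_le] at hw
          exact hw.2.le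
      _ ≤ ∑ w ∈ univ.filter (fun w => T ≤ |Y w|), |Y w| + T * Fintype.card Ω := by
          apply add_le_add_right
          rw [sum_const, nsmul_eq_mul, mul_comm]
          apply mul_le_mul_of_nonneg_left _ hT
          exact_mod_cast card_le_univ _
      _ = _ := by ring
  have h2 : (∑ w ∈ univ.filter (fun w => T ≤ |Y w|), |Y w|) ^ 2 ≤
      ((univ.filter (fun w => T ≤ |Y w|)).card : ℝ) * ∑ w, Y w ^ 2 := by
    refine (sq_sum_le_card_mul_sum_sq).trans ?_
    apply mul_le_mul_of_nonneg_left _ (Nat.cast_nonneg _)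
    calc _ = ∑ w ∈ univ.filter (fun w => T ≤ |Y w|), Y w ^ 2 := by simp
      _ ≤ _ := sum_le_sum_of_subset_of_nonneg (filter_subset _ _) (fun _ _ _ => sq_nonneg _)
  refine le_trans ?_ h2
  apply pow_le_pow_left₀ (by linarith)
  linarith

/-- moments of sums of independent signs, with shifts -/
def Good4 (R : Type) [Fintype R] (W : R → ℝ) (s : ℝ) : Prop :=
  0 ≤ s ∧ (∀ b : ℝ, ∑ r, (b + W r) ^ 2 = Fintype.card R * (b ^ 2 + s)) ∧
  (∀ b : ℝ, ∑ r, (b + W r) ^ 4 ≤ Fintype.card R * (b ^ 4 + 6 * b ^ 2 * s + 3 * s ^ 2))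

lemma good_bool (x : ℝ) : Good4 Bool (fun β => if β then x else -x) (x ^ 2) := by
  refine ⟨sq_nonneg x, ?_, ?_⟩
  · intro b
    simp
    ring
  · intro b
    simp
    nlinarith [sq_nonneg (x ^ 2)]

lemma good_prod {R₁ R₂ : Type} [Fintype R₁] [Fintype R₂] {W₁ : R₁ → ℝ} {W₂ : R₂ → ℝ} {s₁ s₂ : ℝ}
    (h₁ : Good4 R₁ W₁ s₁) (h₂ : Good4 R₂ W₂ s₂) :
    Good4 (R₁ × R₂) (fun p => W₁ p.1 + W₂ p.2) (s₁ + s₂) := by
  obtain ⟨p1, q1, r1⟩ := h₁
  obtain ⟨p2, q2, r2⟩ := h₂
  refine ⟨add_nonneg p1 p2, ?_, ?_⟩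
  · intro b
    rw [Fintype.sum_prod_type]
    have e1 : ∀ x : R₁, ∑ y : R₂, (b + (W₁ x + W₂ y)) ^ 2 =
        Fintype.card R₂ * ((b + W₁ x) ^ 2 + s₂) := by
      intro x
      rw [← q2 (b + W₁ x)]
      apply sum_congr rfl
      intro y _
      ring
    simp only [e1]
    rw [← mul_sum, sum_add_distrib, q1, Fintype.card_prod]
    simp
    ring
  · intro b
    rw [Fintype.sum_prod_type]
    have e1 : ∀ x : R₁, ∑ y : R₂, (b + (W₁ x + W₂ y)) ^ 4 ≤
        Fintype.card R₂ * ((b + W₁ x) ^ 4 + 6 * (b + W₁ x) ^ 2 * s₂ + 3 * s₂ ^ 2) := by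
      intro x
      refine le_trans (le_of_eq ?_) (r2 (b + W₁ x))
      apply sum_congr rfl
      intro y _
      ring
    refine (sum_le_sum (fun x _ => e1 x)).trans ?_
    rw [← mul_sum, sum_add_distrib, sum_add_distrib]
    have e2 : ∑ x : R₁, 6 * (b + W₁ x) ^ 2 * s₂ = 6 * s₂ * (Fintype.card R₁ * (b ^ 2 + s₁)) := by
      rw [← q1 b, mul_sum]
      apply sum_congr rfl
      intro x _
      ring
    rw [e2, Fintype.card_prod]
    have e3 := r1 b
    have c2 : (0:ℝ) ≤ Fintype.card R₂ := Nat.cast_nonneg _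
    simp only [sum_const, card_univ, nsmul_eq_mul]
    push_cast
    calc _ ≤ (Fintype.card R₂ : ℝ) * (Fintype.card R₁ * (b ^ 4 + 6 * b ^ 2 * s₁ + 3 * s₁ ^ 2) +
          6 * s₂ * (Fintype.card R₁ * (b ^ 2 + s₁)) + Fintype.card R₁ * (3 * s₂ ^ 2)) := by
          apply mul_le_mul_of_nonneg_left _ c2
          linarith
      _ = _ := by ring

lemma good_equiv {R₁ R₂ : Type} [Fintype R₁] [Fintype R₂] (e : R₁ ≃ R₂) {W : R₂ → ℝ} {s : ℝ}
    (h : Good4 R₂ W s) : Good4 R₁ (fun r => W (e r)) s := by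
  obtain ⟨p, q, r⟩ := h
  refine ⟨p, ?_, ?_⟩
  · intro b
    rw [Fintype.card_congr e, ← q b]
    exact Fintype.sum_equiv e _ _ (fun _ => rfl)
  · intro b
    rw [Fintype.card_congr e]
    refine le_trans (le_of_eq ?_) (r b)
    exact Fintype.sum_equiv e _ _ (fun _ => rfl)

lemma good_pi {R : Type} [Fintype R] (n : ℕ) : ∀ (W : Fin n → R → ℝ) (s : Fin n → ℝ)
    (_ : ∀ i, Good4 R (W i) (s i)), Good4 (Fin n → R) (fun r => ∑ i, W i (r i)) (∑ i, s i) := by
  induction n with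
  | zero =>
    intro W s _
    refine ⟨by simp, ?_, ?_⟩
    · intro b
      simp
    · intro b
      simp
  | succ n ih =>
    intro W s h
    have h1 := ih (fun i => W i.succ) (fun i => s i.succ) (fun i => h i.succ)
    have h2 := good_prod (h 0) h1
    have h3 := good_equiv (Fin.consEquiv (fun _ : Fin (n+1) => R)).symm h2
    rw [Fin.sum_univ_succ]
    convert h3 using 2 with r
    rw [Fin.sum_univ_succ]
    rfl

/-- small ball estimate -/
lemma good_pz {R : Type} [Fintype R] [Nonempty R] {W : R → ℝ} {s : ℝ} (h : Good4 R W s) (b : ℝ) (T : ℝ)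
    (hT : 4 * T ^ 2 ≤ s) :
    (3/16) * (Fintype.card R : ℝ) ≤ ((univ.filter (fun r => |T| ≤ |b + W r|)).card : ℝ) := by
  obtain ⟨p, q, r⟩ := h
  have hc : (0:ℝ) < Fintype.card R := by exact_mod_cast Fintype.card_pos
  set E : ℝ := b ^ 2 + s with hE
  have hE0 : 0 ≤ E := by positivity
  have h1 : ∑ r, (fun r => (b + W r) ^ 2) r = Fintype.card R * E := q b
  have h2 : ∑ r, (fun r => (b + W r) ^ 2) r ^ 2 ≤ 3 * Fintype.card R * E ^ 2 := by
    calc _ = ∑ r, (b + W r) ^ 4 := by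
          apply sum_congr rfl
          intro r _
          ring
      _ ≤ _ := r b
      _ ≤ _ := by
          rw [hE]
          nlinarith [sq_nonneg (b ^ 2), sq_nonneg b, mul_nonneg hc.le (sq_nonneg (b ^ 2))]
  have h3 : univ.filter (fun r => E / 4 ≤ |(fun r => (b + W r) ^ 2) r|) ⊆
      univ.filter (fun r => |T| ≤ |b + W r|) := by
    intro r hr
    rw [mem_filter] at hr ⊢
    refine ⟨hr.1, ?_⟩
    have h4 := hr.2
    rw [abs_of_nonneg (sq_nonneg _)] at h4
    apply sq_le_sq.mp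
    simp only at h4
    nlinarith [sq_nonneg b]
  have h5 : ((univ.filter (fun r => E / 4 ≤ |(fun r => (b + W r) ^ 2) r|)).card : ℝ) ≤
      ((univ.filter (fun r => |T| ≤ |b + W r|)).card : ℝ) := by
    exact_mod_cast card_le_card h3
  refine le_trans ?_ h5
  rcases eq_or_lt_of_le hE0 with h6 | h6
  · have : univ.filter (fun r => E / 4 ≤ |(fun r => (b + W r) ^ 2) r|) = univ := by
      rw [filter_true_of_mem]
      intro r _
      rw [← h6]
      simp
      positivity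
    rw [this, card_univ]
    linarith
  · have h7 := pz (fun r => (b + W r) ^ 2) (E/4) (by positivity) (by
      rw [h1, abs_of_nonneg (by positivity)]
      nlinarith)
    rw [h1, abs_of_nonneg (by positivity)] at h7
    set N : ℝ := ((univ.filter (fun r => E / 4 ≤ |(fun r => (b + W r) ^ 2) r|)).card : ℝ) with hN
    have hN0 : 0 ≤ N := Nat.cast_nonneg _
    have h8 : N * ∑ r, (fun r => (b + W r) ^ 2) r ^ 2 ≤ N * (3 * Fintype.card R * E ^ 2) :=
      mul_le_mul_of_nonneg_left h2 hN0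
    have h9 : ((Fintype.card R : ℝ) * E - E / 4 * Fintype.card R) ^ 2 =
        (9/16 * Fintype.card R) * (Fintype.card R * E ^ 2) := by ring
    rw [h9] at h7
    have h10 : (9/16 * (Fintype.card R : ℝ)) * (Fintype.card R * E ^ 2) ≤
        (3 * N) * (Fintype.card R * E ^ 2) := by linarith
    have h11 := le_of_mul_le_mul_right h10 (by positivity)
    linarith

end Pool.Agent.Helper187.Rad
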