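import Mathlib
import Pool.Agent.Helper187.Haar
import Pool.Agent.Helper187.Rad

set_option autoImplicit false

namespace Pool.Agent.Helper187.Copy

open Finset Pool.Agent.Helper187.Haar Pool.Agent.Helper187.Rad

/-- second moments of sums of orthonormal functions, with shifts -/
def Good2 (R : Type) [Fintype R] (W : R → ℝ) (s : ℝ) : Prop :=
  ∀ b : ℝ, ∑ r, (b + W r) ^ 2 = Fintype.card R * (b ^ 2 + s)

lemma good2_prod {R₁ R₂ : Type} [Fintype R₁] [Fintype R₂] {W₁ : R₁ → ℝ} {W₂ : R₂ → ℝ} {s₁ s₂ : ℝ}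
    (h₁ : Good2 R₁ W₁ s₁) (h₂ : Good2 R₂ W₂ s₂) :
    Good2 (R₁ × R₂) (fun p => W₁ p.1 + W₂ p.2) (s₁ + s₂) := by
  intro b
  rw [Fintype.sum_prod_type]
  have e1 : ∀ x : R₁, ∑ y : R₂, (b + (W₁ x + W₂ y)) ^ 2 =
      Fintype.card R₂ * ((b + W₁ x) ^ 2 + s₂) := by
    intro x
    rw [← h₂ (b + W₁ x)]
    apply sum_congr rfl
    intro y _
    ring
  simp only [e1]
  rw [← mul_sum, sum_add_distrib, h₁, Fintype.card_prod]
  simp
  ring

lemma good2_equiv {R₁ R₂ : Type} [Fintype R₁] [Fintype R₂] (e : R₁ ≃ R₂) {W : R₂ → ℝ} {s : ℝ}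
    (h : Good2 R₂ W s) : Good2 R₁ (fun r => W (e r)) s := by
  intro b
  rw [Fintype.card_congr e, ← h b]
  exact Fintype.sum_equiv e _ _ (fun _ => rfl)

lemma good2_pi {R : Type} [Fintype R] (n : ℕ) : ∀ (W : Fin n → R → ℝ) (s : Fin n → ℝ)
    (_ : ∀ i, Good2 R (W i) (s i)), Good2 (Fin n → R) (fun r => ∑ i, W i (r i)) (∑ i, s i) := by
  induction n with
  | zero =>
    intro W s _ b
    simp
  | succ n ih =>
    intro W s h
    have h1 := ih (fun i => W i.succ) (fun i => s i.succ) (fun i => h i.succ)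
    have h2 := good2_prod (h 0) h1
    have h3 := good2_equiv (Fin.consEquiv (fun _ : Fin (n+1) => R)).symm h2
    rw [Fin.sum_univ_succ]
    convert h3 using 2 with r
    rw [Fin.sum_univ_succ]
    rfl

lemma good2_mean {R : Type} [Fintype R] {W : R → ℝ} {s : ℝ} (h : Good2 R W s) (b : ℝ) :
    ∑ r, (b + W r) = Fintype.card R * b := by
  have h1 := h 1
  have h2 := h (-1)
  have h3 : ∑ r, (1 + W r) ^ 2 - ∑ r, (-1 + W r) ^ 2 = 4 * ∑ r, W r := by
    rw [← sum_sub_distrib, mul_sum]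
    apply sum_congr rfl
    intro r _
    ring
  rw [h1, h2] at h3
  rw [sum_add_distrib]
  simp
  linarith

/-- signs -/
noncomputable def sg (n : ℕ) (r : Fin n → Bool) (k : ℕ) : ℝ :=
  if h : k < n then (if r ⟨k, h⟩ then 1 else -1) else 0

lemma sg_sum (n : ℕ) (y : ℕ → ℝ) (r : Fin n → Bool) :
    ∑ k ∈ range n, y k * sg n r k = ∑ i : Fin n, (if r i then y i else - y i) := by
  rw [Finset.sum_range]
  apply sum_congr rfl
  intro i _
  unfold sg
  rw [dif_pos i.2]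
  split_ifs <;> simp

lemma sg_good4 (n : ℕ) (y : ℕ → ℝ) :
    Good4 (Fin n → Bool) (fun r => ∑ k ∈ range n, y k * sg n r k) (∑ k ∈ range n, y k ^ 2) := by
  have h := good_pi n (fun (i : Fin n) (β : Bool) => if β then y i else - y i)
    (fun i => y i ^ 2) (fun i => good_bool _)
  rw [Finset.sum_range]
  convert h using 2 with r
  exact sg_sum n y r

lemma sg_good2 (n : ℕ) (y : ℕ → ℝ) :
    Good2 (Fin n → Bool) (fun r => ∑ k ∈ range n, y k * sg n r k) (∑ k ∈ range n, y k ^ 2) :=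
  (sg_good4 n y).2.1

/-- the sample space of one copy -/
abbrev O (m : ℕ) : Type := Fin (2 ^ m) × (Fin (2 ^ m - 1) → Bool)

/-- functions of one copy -/
noncomputable def ph (m k : ℕ) (w : O m) : ℝ := (hr m k w.1 + sg (2 ^ m - 1) w.2 k) / Real.sqrt 2

lemma card_O (m : ℕ) : (Fintype.card (O m) : ℝ) = 2 ^ m * 2 ^ (2 ^ m - 1) := by
  simp [O]

lemma hr_good2 (m : ℕ) (x : ℕ → ℝ) :
    Good2 (Fin (2 ^ m)) (fun t => ∑ k ∈ range (2 ^ m - 1), x k * hr m k t)
      (∑ k ∈ range (2 ^ m - 1), x k ^ 2) := by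
  intro b
  rw [← Finset.sum_range (fun t => (b + ∑ k ∈ range (2 ^ m - 1), x k * hr m k t) ^ 2)]
  have e1 : ∀ t ∈ range (2 ^ m), (b + ∑ k ∈ range (2 ^ m - 1), x k * hr m k t) ^ 2 =
      b ^ 2 + ∑ k ∈ range (2 ^ m - 1), (2 * b * x k) * hr m k t +
      ∑ j ∈ range (2 ^ m - 1), ∑ k ∈ range (2 ^ m - 1), (x j * x k) * (hr m j t * hr m k t) := by
    intro t _
    have : (∑ k ∈ range (2 ^ m - 1), x k * hr m k t) ^ 2 =
        ∑ j ∈ range (2 ^ m - 1), ∑ k ∈ range (2 ^ m - 1), (x j * x k) * (hr m j t * hr m k t) := by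
      rw [sq, sum_mul_sum]
      apply sum_congr rfl
      intro j _
      apply sum_congr rfl
      intro k _
      ring
    rw [← this]
    have h2 : ∑ k ∈ range (2 ^ m - 1), (2 * b * x k) * hr m k t =
        2 * b * ∑ k ∈ range (2 ^ m - 1), x k * hr m k t := by
      rw [mul_sum]
      apply sum_congr rfl
      intro k _
      ring
    rw [h2]
    ring
  rw [sum_congr rfl e1, sum_add_distrib, sum_add_distrib]
  have e2 : ∑ t ∈ range (2 ^ m), ∑ k ∈ range (2 ^ m - 1), (2 * b * x k) * hr m k t = 0 := by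
    rw [sum_comm]
    apply sum_eq_zero
    intro k hk
    rw [← mul_sum, hr_mean m k (mem_range.mp hk), mul_zero]
  have e3 : ∑ t ∈ range (2 ^ m), ∑ j ∈ range (2 ^ m - 1), ∑ k ∈ range (2 ^ m - 1),
      (x j * x k) * (hr m j t * hr m k t) = 2 ^ m * ∑ k ∈ range (2 ^ m - 1), x k ^ 2 := by
    rw [sum_comm, mul_sum]
    apply sum_congr rfl
    intro j hj
    rw [sum_comm]
    have : ∀ k ∈ range (2 ^ m - 1), ∑ t ∈ range (2 ^ m), (x j * x k) * (hr m j t * hr m k t) =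
        if j = k then 2 ^ m * x k ^ 2 else 0 := by
      intro k hk
      rw [← mul_sum, hr_orth m j (mem_range.mp hj) k (mem_range.mp hk)]
      split_ifs with h
      · subst h; ring
      · simp
    rw [sum_congr rfl this, sum_ite_eq, if_pos hj]
  rw [e2, e3]
  simp
  ring

lemma ph_sum (m : ℕ) (x : ℕ → ℝ) (n : ℕ) (w : O m) : ∑ k ∈ range n, x k * ph m k w =
    (∑ k ∈ range n, x k * hr m k w.1) / Real.sqrt 2 +
    ∑ k ∈ range n, (x k / Real.sqrt 2) * sg (2 ^ m - 1) w.2 k := by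
  rw [sum_div, ← sum_add_distrib]
  apply sum_congr rfl
  intro k _
  unfold ph
  ring

lemma div_sqrt2_sq (x : ℝ) : (x / Real.sqrt 2) ^ 2 = x ^ 2 / 2 := by
  rw [div_pow, sq (Real.sqrt 2), sqrt2_sq]

lemma ph_good2 (m : ℕ) (x : ℕ → ℝ) :
    Good2 (O m) (fun w => ∑ k ∈ range (2 ^ m - 1), x k * ph m k w)
      (∑ k ∈ range (2 ^ m - 1), x k ^ 2) := by
  have h1 := hr_good2 m (fun k => x k / Real.sqrt 2)
  have h2 := sg_good2 (2 ^ m - 1) (fun k => x k / Real.sqrt 2)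
  have h3 := good2_prod h1 h2
  convert h3 using 2 with w
  · rw [ph_sum, sum_div]
    congr 1
    apply sum_congr rfl
    intro k _
    ring
  · simp_rw [div_sqrt2_sq]
    rw [← sum_div]
    ring

/-- partial sum up to the point -/
noncomputable def B (m : ℕ) (x : ℕ → ℝ) (w : O m) : ℝ := ∑ k ∈ range (w.1 : ℕ), x k * ph m k w

lemma B_eq (m : ℕ) (x : ℕ → ℝ) (w : O m) : B m x w = P m x w.1 / Real.sqrt 2 +
    ∑ k ∈ range (2 ^ m - 1), (if k < (w.1 : ℕ) then x k / Real.sqrt 2 else 0) *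
      sg (2 ^ m - 1) w.2 k := by
  unfold B P
  rw [ph_sum]
  congr 1
  have hw := w.1.2
  have hsub : range (w.1 : ℕ) ⊆ range (2 ^ m - 1) := by
    apply range_subset_range.mpr
    omega
  rw [← sum_subset hsub]
  · apply sum_congr rfl
    intro k hk
    rw [mem_range] at hk
    rw [if_pos hk]
  · intro k _ hk
    rw [mem_range] at hk
    rw [if_neg hk, zero_mul]

lemma B_first (m : ℕ) (x : ℕ → ℝ) : ∑ w, B m x w =
    -(Fintype.card (O m) / (2 * Real.sqrt 2)) * ∑ k ∈ range (2 ^ m - 1), al m k * x k := by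
  rw [Fintype.sum_prod_type]
  have h1 : ∀ t : Fin (2 ^ m), ∑ r : Fin (2 ^ m - 1) → Bool, B m x (t, r) =
      2 ^ (2 ^ m - 1) * (P m x t / Real.sqrt 2) := by
    intro t
    have := good2_mean (sg_good2 (2 ^ m - 1) (fun k => if k < (t : ℕ) then x k / Real.sqrt 2 else 0))
      (P m x t / Real.sqrt 2)
    simp only [B_eq]
    rw [this]
    simp
  simp only [h1]
  rw [← mul_sum, ← sum_div, ← Finset.sum_range (fun t => P m x t), P_first, card_O]
  ring

lemma B_second (m : ℕ) (hm : 0 < m) (x : ℕ → ℝ) : ∑ w, (B m x w) ^ 2 ≤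
    Fintype.card (O m) * (m * ∑ k ∈ range (2 ^ m - 1), x k ^ 2) := by
  rw [Fintype.sum_prod_type]
  set N : ℝ := ∑ k ∈ range (2 ^ m - 1), x k ^ 2 with hN
  have hN0 : 0 ≤ N := sum_nonneg (fun _ _ => sq_nonneg _)
  have h1 : ∀ t : Fin (2 ^ m), ∑ r : Fin (2 ^ m - 1) → Bool, (B m x (t, r)) ^ 2 ≤
      2 ^ (2 ^ m - 1) * ((P m x t) ^ 2 / 2 + N / 2) := by
    intro t
    have := sg_good2 (2 ^ m - 1) (fun k => if k < (t : ℕ) then x k / Real.sqrt 2 else 0)
      (P m x t / Real.sqrt 2)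
    simp only [B_eq]
    rw [this]
    simp only [Fintype.card_pi, Fintype.card_bool, prod_const, card_univ, Fintype.card_fin]
    push_cast
    apply mul_le_mul_of_nonneg_left _ (by positivity)
    rw [div_sqrt2_sq]
    apply add_le_add_right
    rw [hN, sum_div]
    apply sum_le_sum
    intro k _
    split_ifs
    · rw [div_sqrt2_sq]
    · nlinarith [sq_nonneg (x k)]
  refine (sum_le_sum (fun t _ => h1 t)).trans ?_
  rw [← mul_sum, sum_add_distrib, ← sum_div, ← Finset.sum_range (fun t => (P m x t) ^ 2), card_O]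
  have h2 := P_second m x
  have hm' : (1:ℝ) ≤ m := by exact_mod_cast hm
  simp only [sum_const, card_univ, Fintype.card_fin, nsmul_eq_mul]
  push_cast
  rw [show (2:ℝ) ^ m * 2 ^ (2 ^ m - 1) * (m * N) = 2 ^ (2 ^ m - 1) * (2 ^ m * (m * N)) by ring]
  apply mul_le_mul_of_nonneg_left _ (by positivity)
  have h3 : (2:ℝ) ^ m * N ≤ 2 ^ m * (m * N) := by
    apply mul_le_mul_of_nonneg_left _ (by positivity)
    nlinarith
  rw [← hN] at h2
  linarith

/-- success probability of one copy -/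
lemma B_pz (m : ℕ) (hm : 0 < m) (x : ℕ → ℝ) (T : ℝ) (hT : 0 ≤ T)
    (hβ : T * (4 * Real.sqrt 2) ≤ |∑ k ∈ range (2 ^ m - 1), al m k * x k|) :
    (Fintype.card (O m) : ℝ) * (∑ k ∈ range (2 ^ m - 1), al m k * x k) ^ 2 ≤
      ((univ.filter (fun w => T ≤ |B m x w|)).card : ℝ) *
        (32 * m * ∑ k ∈ range (2 ^ m - 1), x k ^ 2) := by
  set β : ℝ := ∑ k ∈ range (2 ^ m - 1), al m k * x k with hβd
  have hc : (0:ℝ) < Fintype.card (O m) := by rw [card_O]; positivity
  set C : ℝ := (Fintype.card (O m) : ℝ) with hC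
  have hs := sqrt2_pos
  have h1 : |∑ w, B m x w| = C * |β| / (2 * Real.sqrt 2) := by
    rw [B_first, abs_mul, abs_neg, abs_of_pos (by positivity)]
    ring
  have h2 : T * C ≤ C * |β| / (4 * Real.sqrt 2) := by
    rw [le_div_iff₀ (by positivity)]
    nlinarith
  have h3 : T * C ≤ |∑ w, B m x w| := by
    rw [h1]
    have : C * |β| / (4 * Real.sqrt 2) ≤ C * |β| / (2 * Real.sqrt 2) := by
      apply div_le_div_of_nonneg_left (by positivity) (by positivity)
      linarith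
    linarith
  have h4 := pz (B m x) T hT h3
  have h5 : (C * |β| / (4 * Real.sqrt 2)) ^ 2 ≤ (|∑ w, B m x w| - T * C) ^ 2 := by
    apply pow_le_pow_left₀ (by positivity)
    rw [h1]
    have : C * |β| / (2 * Real.sqrt 2) = 2 * (C * |β| / (4 * Real.sqrt 2)) := by
      field_simp
      norm_num
    linarith
  have h6 : (C * |β| / (4 * Real.sqrt 2)) ^ 2 = C * (C * β ^ 2) / 32 := by
    rw [div_pow, mul_pow, mul_pow, sq_abs, sq (Real.sqrt 2), sqrt2_sq]
    ring
  rw [h6] at h5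
  have h7 := B_second m hm x
  rw [← hC] at h7
  set F : ℝ := ((univ.filter (fun w => T ≤ |B m x w|)).card : ℝ) with hF
  have hF0 : 0 ≤ F := Nat.cast_nonneg _
  have h8 : F * ∑ w, (B m x w) ^ 2 ≤ F * (C * (m * ∑ k ∈ range (2 ^ m - 1), x k ^ 2)) :=
    mul_le_mul_of_nonneg_left h7 hF0
  have h9 : C * (C * β ^ 2) ≤ C * (F * (32 * m * ∑ k ∈ range (2 ^ m - 1), x k ^ 2)) := by
    have := (h5.trans h4).trans h8
    linarith
  exact le_of_mul_le_mul_left h9 hc

end Pool.Agent.Helper187.Copy
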