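import Mathlib

set_option autoImplicit false

namespace Pool.Agent.Helper187.Digits

open Finset MeasureTheory

/-- Lebesgue measure on the unit interval -/
noncomputable abbrev mu : Measure ℝ := volume.restrict (Set.Icc (0:ℝ) 1)

/-- the first a binary digits as a natural number -/
noncomputable def D (a : ℕ) (t : ℝ) : ℕ := ⌊(2:ℝ) ^ a * t⌋₊

lemma D_meas (a : ℕ) : Measurable (D a) := by
  unfold D
  exact Nat.measurable_floor.comp (measurable_const.mul measurable_id)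

lemma D_div (b n : ℕ) (t : ℝ) : D (b + n) t / 2 ^ n = D b t := by
  unfold D
  have h : (2:ℝ) ^ b * t = ((2:ℝ) ^ (b + n) * t) / ((2 ^ n : ℕ) : ℝ) := by
    push_cast
    rw [pow_add]
    field_simp
  rw [h, Nat.floor_div_natCast]

/-- step functions of level a -/
def IsStep (a : ℕ) (f : ℝ → ℝ) : Prop := ∃ F : ℕ → ℝ, ∀ t, f t = F (D a t)

lemma IsStep.mk (a : ℕ) (F : ℕ → ℝ) : IsStep a (fun t => F (D a t)) := ⟨F, fun _ => rfl⟩

lemma IsStep.mono {a b : ℕ} {f : ℝ → ℝ} (h : IsStep a f) (hab : a ≤ b) : IsStep b f := by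
  obtain ⟨F, hF⟩ := h
  obtain ⟨n, rfl⟩ := Nat.exists_eq_add_of_le hab
  refine ⟨fun i => F (i / 2 ^ n), fun t => ?_⟩
  simp only
  rw [hF, D_div]

lemma IsStep.mul {a : ℕ} {f g : ℝ → ℝ} (hf : IsStep a f) (hg : IsStep a g) :
    IsStep a (fun t => f t * g t) := by
  obtain ⟨F, hF⟩ := hf
  obtain ⟨G, hG⟩ := hg
  exact ⟨fun i => F i * G i, fun t => by simp only [hF, hG]⟩

lemma IsStep.add {a : ℕ} {f g : ℝ → ℝ} (hf : IsStep a f) (hg : IsStep a g) :
    IsStep a (fun t => f t + g t) := by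
  obtain ⟨F, hF⟩ := hf
  obtain ⟨G, hG⟩ := hg
  exact ⟨fun i => F i + G i, fun t => by simp only [hF, hG]⟩

lemma IsStep.const (a : ℕ) (c : ℝ) : IsStep a (fun _ => c) := ⟨fun _ => c, fun _ => rfl⟩

lemma IsStep.digits (b n : ℕ) (V : ℕ → ℝ) : IsStep (b + n) (fun t => V (D (b + n) t % 2 ^ n)) :=
  ⟨fun i => V (i % 2 ^ n), fun _ => rfl⟩

lemma IsStep.meas {a : ℕ} {f : ℝ → ℝ} (hf : IsStep a f) : Measurable f := by
  obtain ⟨F, hF⟩ := hf
  have : f = F ∘ (D a) := by funext t; exact hF t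
  rw [this]
  exact (measurable_of_countable F).comp (D_meas a)

lemma D_le {a : ℕ} {t : ℝ} (ht : t ∈ Set.Icc (0:ℝ) 1) : D a t ≤ 2 ^ a := by
  unfold D
  have h : (2:ℝ) ^ a * t ≤ ((2 ^ a : ℕ) : ℝ) := by
    push_cast
    have : (0:ℝ) < 2 ^ a := by positivity
    nlinarith [ht.2]
  calc ⌊(2:ℝ) ^ a * t⌋₊ ≤ ⌊((2 ^ a : ℕ) : ℝ)⌋₊ := Nat.floor_le_floor h
    _ = 2 ^ a := Nat.floor_natCast _

lemma IsStep.bounded {a : ℕ} {f : ℝ → ℝ} (hf : IsStep a f) :
    ∃ C : ℝ, 0 ≤ C ∧ ∀ t ∈ Set.Icc (0:ℝ) 1, |f t| ≤ C := by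
  obtain ⟨F, hF⟩ := hf
  refine ⟨∑ i ∈ range (2 ^ a + 1), |F i|, sum_nonneg (fun _ _ => abs_nonneg _), ?_⟩
  intro t ht
  rw [hF]
  apply single_le_sum (f := fun i => |F i|) (fun _ _ => abs_nonneg _)
  rw [mem_range]
  have := D_le (a := a) ht
  omega

lemma IsStep.memLp {a : ℕ} {f : ℝ → ℝ} (hf : IsStep a f) : MemLp f 2 mu := by
  obtain ⟨C, _, hC⟩ := hf.bounded
  apply MemLp.of_bound hf.meas.aestronglyMeasurable C
  rw [ae_restrict_iff' measurableSet_Icc]
  filter_upwards with t ht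
  rw [Real.norm_eq_abs]
  exact hC t ht

lemma IsStep.integrable {a : ℕ} {f : ℝ → ℝ} (hf : IsStep a f) : Integrable f mu :=
  hf.memLp.integrable (by norm_num)

/-- integral of a step function -/
lemma integral_step (a : ℕ) (F : ℕ → ℝ) :
    ∫ t, F (D a t) ∂mu = (∑ i ∈ range (2 ^ a), F i) / 2 ^ a := by
  rw [integral_Icc_eq_integral_Ioc, ← intervalIntegral.integral_of_le (by norm_num)]
  have hpos : (0:ℝ) < 2 ^ a := by positivity
  have hint : IntegrableOn (fun t => F (D a t)) (Set.Icc (0:ℝ) 1) := (IsStep.mk a F).integrable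
  have hi : ∀ k : ℕ, k < 2 ^ a → IntervalIntegrable (fun t => F (D a t)) volume
      ((k:ℝ) / 2 ^ a) (((k+1 : ℕ):ℝ) / 2 ^ a) := by
    intro k hk
    apply IntegrableOn.intervalIntegrable
    apply hint.mono_set
    have h1 : ((k:ℝ) / 2 ^ a) ≤ (((k+1 : ℕ):ℝ) / 2 ^ a) := by
      apply div_le_div_of_nonneg_right _ hpos.le
      push_cast; linarith
    rw [Set.uIcc_of_le h1]
    apply Set.Icc_subset_Icc
    · positivity
    · rw [div_le_one hpos]
      exact_mod_cast hk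
  have h2 := intervalIntegral.sum_integral_adjacent_intervals (a := fun k : ℕ => (k:ℝ) / 2 ^ a)
    (n := 2 ^ a) (fun k hk => hi k hk)
  simp only [Nat.cast_zero, zero_div, Nat.cast_pow, Nat.cast_ofNat] at h2
  rw [div_self hpos.ne'] at h2
  rw [← h2, sum_div]
  apply sum_congr rfl
  intro k hk
  have h3 : ∫ t in ((k:ℝ) / 2 ^ a)..(((k+1 : ℕ):ℝ) / 2 ^ a), F (D a t) =
      ∫ t in ((k:ℝ) / 2 ^ a)..(((k+1 : ℕ):ℝ) / 2 ^ a), F k := by
    apply intervalIntegral.integral_congr_ae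
    have h4 : ∀ᵐ t : ℝ, t ≠ ((k+1 : ℕ):ℝ) / 2 ^ a := by simp [ae_iff]
    filter_upwards [h4] with t ht ht2
    have h1 : ((k:ℝ) / 2 ^ a) ≤ (((k+1 : ℕ):ℝ) / 2 ^ a) := by
      apply div_le_div_of_nonneg_right _ hpos.le
      push_cast; linarith
    rw [Set.uIoc_of_le h1] at ht2
    have h5 : t < ((k+1 : ℕ):ℝ) / 2 ^ a := lt_of_le_of_ne ht2.2 ht
    have h6 := ht2.1
    congr 1
    unfold D
    rw [Nat.floor_eq_iff]
    · constructor
      · rw [div_lt_iff₀ hpos] at h6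
        linarith
      · rw [lt_div_iff₀ hpos] at h5
        push_cast at h5
        linarith
    · have : 0 ≤ (k:ℝ) / 2 ^ a := by positivity
      have : 0 ≤ t := by linarith
      positivity
  rw [h3]
  simp only [intervalIntegral.integral_const, smul_eq_mul]
  push_cast
  field_simp
  ring

lemma sum_range_mul (M N : ℕ) (F : ℕ → ℝ) :
    ∑ i ∈ range (M * N), F i = ∑ p ∈ range M, ∑ q ∈ range N, F (p * N + q) := by
  induction M with
  | zero => simp
  | succ M ih =>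
    rw [Nat.succ_mul, sum_range_add, ih, sum_range_succ]

/-- a step function times a function of the next n digits -/
lemma integral_mul_digits {b : ℕ} {X : ℝ → ℝ} (hX : IsStep b X) (n : ℕ) (V : ℕ → ℝ) :
    ∫ t, X t * V (D (b + n) t % 2 ^ n) ∂mu = (∫ t, X t ∂mu) * ((∑ l ∈ range (2 ^ n), V l) / 2 ^ n) := by
  obtain ⟨F, hF⟩ := hX
  have h1 : ∀ t, X t * V (D (b + n) t % 2 ^ n) =
      (fun i => F (i / 2 ^ n) * V (i % 2 ^ n)) (D (b + n) t) := by
    intro t
    simp only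
    rw [hF, D_div]
  rw [integral_congr_ae (Filter.Eventually.of_forall h1)]
  rw [integral_step (b + n) (fun i => F (i / 2 ^ n) * V (i % 2 ^ n))]
  have h2 : ∫ t, X t ∂mu = (∑ i ∈ range (2 ^ b), F i) / 2 ^ b := by
    simp_rw [hF]
    exact integral_step b F
  rw [h2, pow_add, sum_range_mul]
  have h3 : ∀ p ∈ range (2 ^ b), ∑ q ∈ range (2 ^ n),
      F ((p * 2 ^ n + q) / 2 ^ n) * V ((p * 2 ^ n + q) % 2 ^ n) = F p * ∑ q ∈ range (2 ^ n), V q := by
    intro p _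
    rw [mul_sum]
    apply sum_congr rfl
    intro q hq
    rw [mem_range] at hq
    have e1 : (p * 2 ^ n + q) / 2 ^ n = p := by
      rw [add_comm, Nat.add_mul_div_right _ _ (by positivity), Nat.div_eq_of_lt hq, zero_add]
    have e2 : (p * 2 ^ n + q) % 2 ^ n = q := by
      rw [add_comm, Nat.add_mul_mod_self_right, Nat.mod_eq_of_lt hq]
    rw [e1, e2]
  rw [sum_congr rfl h3, ← sum_mul]
  have : (0:ℝ) < 2 ^ b := by positivity
  have : (0:ℝ) < 2 ^ n := by positivity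
  rw [pow_add]
  field_simp

lemma integral_one : ∫ _t, (1:ℝ) ∂mu = 1 := by
  simp

end Pool.Agent.Helper187.Digits
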