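import Mathlib
import Pool.Agent.Helper187.Digits
import Pool.Agent.Helper187.Haar
import Pool.Agent.Helper187.Rad
import Pool.Agent.Helper187.Copy

set_option autoImplicit false

namespace Pool.Agent.Helper187.Ampl

open Finset Pool.Agent.Helper187.Haar Pool.Agent.Helper187.Rad Pool.Agent.Helper187.Copy

abbrev M1 (m : ℕ) : ℕ := 2 ^ m - 1

abbrev OK (m K : ℕ) : Type := Fin K → O m

/-- functions of the product of K copies -/
noncomputable def phK (m K k : ℕ) (w : OK m K) : ℝ :=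
  if h : k / M1 m < K then ph m (k % M1 m) (w ⟨k / M1 m, h⟩) else 0

noncomputable def aa (m K k : ℕ) : ℝ := al m (k % M1 m) / Real.sqrt (m * K)

lemma div_mod (m i k : ℕ) (hk : k < M1 m) : (i * M1 m + k) / M1 m = i ∧ (i * M1 m + k) % M1 m = k := by
  have hM : 0 < M1 m := by omega
  constructor
  · rw [add_comm, Nat.add_mul_div_right _ _ hM, Nat.div_eq_of_lt hk, zero_add]
  · rw [add_comm, Nat.add_mul_mod_self_right, Nat.mod_eq_of_lt hk]

lemma sum_split_K (m K : ℕ) (F : ℕ → ℝ) : ∑ k ∈ range (K * M1 m), F k =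
    ∑ i : Fin K, ∑ k ∈ range (M1 m), F (i * M1 m + k) := by
  rw [Digits.sum_range_mul, Finset.sum_range (fun i => ∑ k ∈ range (M1 m), F (i * M1 m + k))]

lemma phK_eq (m K : ℕ) (i : Fin K) (k : ℕ) (hk : k < M1 m) (w : OK m K) :
    phK m K (i * M1 m + k) w = ph m k (w i) := by
  unfold phK
  obtain ⟨h1, h2⟩ := div_mod m i k hk
  have h3 : (i * M1 m + k) / M1 m < K := by rw [h1]; exact i.2
  rw [dif_pos h3, h2]
  congr 2
  exact Fin.ext h1

lemma total (m K : ℕ) (x : ℕ → ℝ) (w : OK m K) : ∑ k ∈ range (K * M1 m), x k * phK m K k w =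
    ∑ i : Fin K, ∑ k ∈ range (M1 m), x (i * M1 m + k) * ph m k (w i) := by
  rw [sum_split_K]
  apply sum_congr rfl
  intro i _
  apply sum_congr rfl
  intro k hk
  rw [phK_eq m K i k (mem_range.mp hk)]

lemma total_good2 (m K : ℕ) (x : ℕ → ℝ) :
    Good2 (OK m K) (fun w => ∑ k ∈ range (K * M1 m), x k * phK m K k w)
      (∑ k ∈ range (K * M1 m), x k ^ 2) := by
  have h := good2_pi K (fun i w => ∑ k ∈ range (M1 m), x (i * M1 m + k) * ph m k w)
    (fun i => ∑ k ∈ range (M1 m), x (i * M1 m + k) ^ 2)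
    (fun i => ph_good2 m (fun k => x (i * M1 m + k)))
  rw [sum_split_K]
  convert h using 2 with w
  exact total m K x w

lemma window (m K : ℕ) (x : ℕ → ℝ) (i : Fin K) (w : OK m K) :
    ∑ k ∈ Ico (i * M1 m) (i * M1 m + ((w i).1 : ℕ)), x k * phK m K k w =
      B m (fun k => x (i * M1 m + k)) (w i) := by
  rw [Finset.sum_Ico_eq_sum_range]
  unfold B
  have : (i : ℕ) * M1 m + ((w i).1 : ℕ) - i * M1 m = ((w i).1 : ℕ) := by omega
  rw [this]
  apply sum_congr rfl
  intro k hk
  rw [mem_range] at hk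
  have h1 := (w i).1.2
  have h2 : k < M1 m := by
    have : M1 m = 2 ^ m - 1 := rfl
    omega
  rw [phK_eq m K i k h2]

lemma aa_sq (m K : ℕ) (hm : 0 < m) (hK : 0 < K) : ∑ k ∈ range (K * M1 m), aa m K k ^ 2 = 1 := by
  rw [sum_split_K]
  have hm' : (0:ℝ) < m := by exact_mod_cast hm
  have hK' : (0:ℝ) < K := by exact_mod_cast hK
  have h1 : ∀ i : Fin K, ∑ k ∈ range (M1 m), aa m K (i * M1 m + k) ^ 2 = 1 / K := by
    intro i
    have h2 : ∀ k ∈ range (M1 m), aa m K (i * M1 m + k) ^ 2 = al m k ^ 2 / (m * K) := by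
      intro k hk
      unfold aa
      rw [(div_mod m i k (mem_range.mp hk)).2, div_pow, Real.sq_sqrt (by positivity)]
    rw [sum_congr rfl h2, ← sum_div, al_sq]
    field_simp
  simp only [h1]
  simp
  field_simp

lemma aa_inner (m K : ℕ) (x : ℕ → ℝ) : ∑ k ∈ range (K * M1 m), aa m K k * x k =
    (∑ i : Fin K, ∑ k ∈ range (M1 m), al m k * x (i * M1 m + k)) / Real.sqrt (m * K) := by
  rw [sum_split_K, sum_div]
  apply sum_congr rfl
  intro i _
  rw [sum_div]
  apply sum_congr rfl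
  intro k hk
  unfold aa
  rw [(div_mod m i k (mem_range.mp hk)).2]
  ring

lemma card_filter_equiv {α β : Type} [Fintype α] [Fintype β] (e : α ≃ β) (p : β → Prop)
    [DecidablePred p] :
    (univ.filter (fun a => p (e a))).card = (univ.filter p).card := by
  classical
  apply card_bij (fun a _ => e a)
  · intro a ha
    rw [mem_filter] at ha ⊢
    exact ⟨mem_univ _, ha.2⟩
  · intro a _ b _ h
    exact e.injective h
  · intro b hb
    rw [mem_filter] at hb
    exact ⟨e.symm b, by rw [mem_filter]; exact ⟨mem_univ _, by rw [e.apply_symm_apply]; exact hb.2⟩,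
      e.apply_symm_apply b⟩

/-- large coefficient vectors -/
lemma case1 (m K : ℕ) (y : ℕ → ℝ) (u A : ℝ) (hA : 0 ≤ A)
    (h : 8 * A ^ 2 ≤ ∑ k ∈ range (K * M1 m), y k ^ 2) :
    (3/16) * (Fintype.card (OK m K) : ℝ) ≤
      ((univ.filter (fun w : OK m K => A ≤ |u + ∑ k ∈ range (K * M1 m), y k * phK m K k w|)).card : ℝ) := by
  classical
  set E : (OK m K) ≃ (Fin K → Fin (2 ^ m)) × (Fin K → (Fin (2 ^ m - 1) → Bool)) :=
    Equiv.arrowProdEquivProdArrow (Fin K) (fun _ => Fin (2 ^ m)) (fun _ => Fin (2 ^ m - 1) → Bool) with hE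
  set b : (Fin K → Fin (2 ^ m)) → ℝ := fun τ =>
    u + ∑ i : Fin K, (∑ k ∈ range (M1 m), y (i * M1 m + k) * hr m k (τ i)) / Real.sqrt 2 with hb
  set W : (Fin K → (Fin (2 ^ m - 1) → Bool)) → ℝ := fun r =>
    ∑ i : Fin K, ∑ k ∈ range (M1 m), (y (i * M1 m + k) / Real.sqrt 2) * sg (2 ^ m - 1) (r i) k with hW
  have hsum : ∀ w : OK m K, u + ∑ k ∈ range (K * M1 m), y k * phK m K k w =
      b (E w).1 + W (E w).2 := by
    intro w
    rw [total]
    have : ∀ i : Fin K, ∑ k ∈ range (M1 m), y (i * M1 m + k) * ph m k (w i) =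
      (∑ k ∈ range (M1 m), y (i * M1 m + k) * hr m k ((E w).1 i)) / Real.sqrt 2 +
      ∑ k ∈ range (M1 m), (y (i * M1 m + k) / Real.sqrt 2) * sg (2 ^ m - 1) ((E w).2 i) k :=
      fun i => ph_sum m (fun k => y (i * M1 m + k)) _ _
    simp only [this]
    rw [sum_add_distrib, hb, hW]
    ring
  have hgood : Good4 (Fin K → (Fin (2 ^ m - 1) → Bool)) W
      (∑ i : Fin K, ∑ k ∈ range (M1 m), (y (i * M1 m + k) / Real.sqrt 2) ^ 2) :=
    good_pi K (fun i r => ∑ k ∈ range (M1 m), (y (i * M1 m + k) / Real.sqrt 2) * sg (2 ^ m - 1) r k)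
      _ (fun i => sg_good4 (2 ^ m - 1) (fun k => y (i * M1 m + k) / Real.sqrt 2))
  have hs : ∑ i : Fin K, ∑ k ∈ range (M1 m), (y (i * M1 m + k) / Real.sqrt 2) ^ 2 =
      (∑ k ∈ range (K * M1 m), y k ^ 2) / 2 := by
    rw [sum_split_K, sum_div]
    apply sum_congr rfl
    intro i _
    rw [sum_div]
    apply sum_congr rfl
    intro k _
    exact div_sqrt2_sq _
  rw [hs] at hgood
  have h1 : (univ.filter (fun w : OK m K => A ≤ |u + ∑ k ∈ range (K * M1 m), y k * phK m K k w|)).card =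
      (univ.filter (fun p : (Fin K → Fin (2 ^ m)) × (Fin K → (Fin (2 ^ m - 1) → Bool)) =>
        A ≤ |b p.1 + W p.2|)).card := by
    rw [← card_filter_equiv E]
    congr 1
    apply filter_congr
    intro w _
    rw [hsum]
  rw [h1]
  have h2 : ((univ.filter (fun p : (Fin K → Fin (2 ^ m)) × (Fin K → (Fin (2 ^ m - 1) → Bool)) =>
        A ≤ |b p.1 + W p.2|)).card : ℝ) = ∑ τ : Fin K → Fin (2 ^ m),
        ((univ.filter (fun r : Fin K → (Fin (2 ^ m - 1) → Bool) => A ≤ |b τ + W r|)).card : ℝ) := by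
    rw [card_filter, Fintype.sum_prod_type]
    push_cast
    apply sum_congr rfl
    intro τ _
    rw [card_filter]
    push_cast
    rfl
  rw [h2]
  have h3 : ∀ τ : Fin K → Fin (2 ^ m), (3/16) * (Fintype.card (Fin K → (Fin (2 ^ m - 1) → Bool)) : ℝ) ≤
      ((univ.filter (fun r : Fin K → (Fin (2 ^ m - 1) → Bool) => A ≤ |b τ + W r|)).card : ℝ) := by
    intro τ
    have := good_pz hgood (b τ) A (by linarith)
    rwa [abs_of_nonneg hA] at this
  refine le_trans ?_ (sum_le_sum (fun τ _ => h3 τ))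
  rw [sum_const, card_univ, nsmul_eq_mul, Fintype.card_congr E, Fintype.card_prod]
  push_cast
  apply le_of_eq
  ring

/-- small coefficient vectors: probability that all copies fail -/
lemma case2 (m K : ℕ) (hm : 0 < m) (x : ℕ → ℝ) (T L δ : ℝ) (hT : 0 < T)
    (hL : 0 < L) (hN : ∑ k ∈ range (K * M1 m), x k ^ 2 ≤ L ^ 2)
    (hδ : δ * (Real.sqrt m * Real.sqrt K) ≤
      |∑ i : Fin K, ∑ k ∈ range (M1 m), al m k * x (i * M1 m + k)|) (hδ0 : 0 < δ)
    (hmT : 8 * Real.sqrt 2 * T * Real.sqrt K ≤ δ * Real.sqrt m) (hKL : 128 * L ^ 2 ≤ δ ^ 2 * K) :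
    ((univ.filter (fun w : OK m K => ∀ i : Fin K,
      ¬ (T ≤ |B m (fun k => x (i * M1 m + k)) (w i)|))).card : ℝ) ≤
      (1/2) * (Fintype.card (OK m K) : ℝ) := by
  classical
  have hm' : (0:ℝ) < m := by exact_mod_cast hm
  have hs := sqrt2_pos
  have hsm : 0 < Real.sqrt m := Real.sqrt_pos.mpr hm'
  have hKpos : (0:ℝ) < K := by
    by_contra hcon
    have : (K:ℝ) = 0 := le_antisymm (not_lt.mp hcon) (Nat.cast_nonneg K)
    rw [this] at hKL
    nlinarith
  have hsK : 0 < Real.sqrt K := Real.sqrt_pos.mpr hKpos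
  set β : Fin K → ℝ := fun i => ∑ k ∈ range (M1 m), al m k * x (i * M1 m + k) with hβ
  set n : Fin K → ℝ := fun i => ∑ k ∈ range (M1 m), x (i * M1 m + k) ^ 2 with hn
  have hn0 : ∀ i, 0 ≤ n i := fun i => sum_nonneg (fun _ _ => sq_nonneg _)
  set J : Finset (Fin K) := univ.filter (fun i => T * (4 * Real.sqrt 2) ≤ |β i|) with hJ
  set C : ℝ := (Fintype.card (O m) : ℝ) with hC
  have hC0 : 0 < C := by rw [hC, card_O]; positivity
  -- success counts
  set Su : Fin K → ℝ := fun i => ((univ.filter (fun w : O m =>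
    T ≤ |B m (fun k => x (i * M1 m + k)) w|)).card : ℝ) with hSu
  set Fa : Fin K → ℝ := fun i => ((univ.filter (fun w : O m =>
    ¬ (T ≤ |B m (fun k => x (i * M1 m + k)) w|))).card : ℝ) with hFa
  have hSF : ∀ i, Fa i = C - Su i := by
    intro i
    have := card_filter_add_card_filter_not (s := (univ : Finset (O m)))
      (fun w => T ≤ |B m (fun k => x (i * M1 m + k)) w|)
    have h2 : Su i + Fa i = C := by
      simp only [hSu, hFa, hC]
      rw [← card_univ]
      exact_mod_cast this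
    linarith
  have hnJ : ∀ i ∈ J, 0 < n i := by
    intro i hi
    rw [hJ, mem_filter] at hi
    rcases eq_or_lt_of_le (hn0 i) with h | h
    · exfalso
      have h1 : ∀ k ∈ range (M1 m), x (i * M1 m + k) ^ 2 = 0 := by
        have := (sum_eq_zero_iff_of_nonneg (fun k _ => sq_nonneg (x (i * M1 m + k)))).mp h.symm
        exact this
      have h2 : β i = 0 := by
        simp only [hβ]
        apply sum_eq_zero
        intro k hk
        have := h1 k hk
        rw [sq_eq_zero_iff] at this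
        rw [this, mul_zero]
      rw [h2, abs_zero] at hi
      have : 0 < T * (4 * Real.sqrt 2) := by positivity
      linarith [hi.2]
    · exact h
  set q : Fin K → ℝ := fun i => if i ∈ J then (β i) ^ 2 / n i / (32 * m) else 0 with hq
  have hFq : ∀ i, Fa i ≤ C * Real.exp (- q i) := by
    intro i
    have h1 : Fa i ≤ C * (1 - q i) := by
      rw [hSF]
      by_cases hi : i ∈ J
      · have h2 := B_pz m hm (fun k => x (i * M1 m + k)) T hT.le (by
          rw [hJ, mem_filter] at hi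
          exact hi.2)
        have h3 : C * (β i) ^ 2 ≤ Su i * (32 * m * n i) := h2
        have h4 : C * q i ≤ Su i := by
          simp only [hq, if_pos hi]
          have := hnJ i hi
          rw [div_div, mul_div_assoc', div_le_iff₀ (by positivity)]
          linarith
        linarith
      · simp only [hq, if_neg hi]
        have : 0 ≤ Su i := Nat.cast_nonneg _
        linarith
    refine h1.trans ?_
    apply mul_le_mul_of_nonneg_left _ hC0.le
    have := Real.add_one_le_exp (- q i)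
    linarith
  -- sum of the success probabilities
  have hsumJ : δ * (Real.sqrt m * Real.sqrt K) / 2 ≤ ∑ i ∈ J, |β i| := by
    have h1 : |∑ i, β i| ≤ ∑ i, |β i| := abs_sum_le_sum_abs _ _
    have h2 : ∑ i, |β i| = ∑ i ∈ J, |β i| + ∑ i ∈ univ.filter (fun i => ¬ (T * (4 * Real.sqrt 2) ≤ |β i|)), |β i| :=
      (sum_filter_add_sum_filter_not _ _ _).symm
    have h3 : ∑ i ∈ univ.filter (fun i => ¬ (T * (4 * Real.sqrt 2) ≤ |β i|)), |β i| ≤
        K * (T * (4 * Real.sqrt 2)) := by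
      calc _ ≤ ∑ i ∈ univ.filter (fun i : Fin K => ¬ (T * (4 * Real.sqrt 2) ≤ |β i|)), T * (4 * Real.sqrt 2) := by
            apply sum_le_sum
            intro i hi
            rw [mem_filter, not_le] at hi
            exact hi.2.le
        _ = ((univ.filter (fun i : Fin K => ¬ (T * (4 * Real.sqrt 2) ≤ |β i|))).card : ℝ) *
              (T * (4 * Real.sqrt 2)) := by rw [sum_const, nsmul_eq_mul]
        _ ≤ _ := by
            apply mul_le_mul_of_nonneg_right _ (by positivity)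
            have := card_le_univ (univ.filter (fun i : Fin K => ¬ (T * (4 * Real.sqrt 2) ≤ |β i|)))
            rw [Fintype.card_fin] at this
            exact_mod_cast this
    have h4 : (K:ℝ) * (T * (4 * Real.sqrt 2)) ≤ δ * (Real.sqrt m * Real.sqrt K) / 2 := by
      have h5 : (K:ℝ) = Real.sqrt K * Real.sqrt K := (Real.mul_self_sqrt hKpos.le).symm
      have h6 : (8 * Real.sqrt 2 * T * Real.sqrt K) * Real.sqrt K ≤ (δ * Real.sqrt m) * Real.sqrt K :=
        mul_le_mul_of_nonneg_right hmT hsK.le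
      calc (K:ℝ) * (T * (4 * Real.sqrt 2)) = (Real.sqrt K * Real.sqrt K) * (T * (4 * Real.sqrt 2)) := by
            rw [← h5]
        _ ≤ _ := by linarith
    linarith
  have hsumn : ∑ i ∈ J, n i ≤ L ^ 2 := by
    calc ∑ i ∈ J, n i ≤ ∑ i, n i := sum_le_sum_of_subset_of_nonneg (subset_univ _) (fun i _ _ => hn0 i)
      _ = ∑ k ∈ range (K * M1 m), x k ^ 2 := by rw [sum_split_K]
      _ ≤ _ := hN
  have hcs : (∑ i ∈ J, |β i|) ^ 2 ≤ (∑ i ∈ J, (β i) ^ 2 / n i) * ∑ i ∈ J, n i := by
    apply sum_sq_le_sum_mul_sum_of_sq_le_mul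
    · intro i _
      have := hn0 i
      positivity
    · intro i _
      exact hn0 i
    · intro i hi
      have := hnJ i hi
      apply le_of_eq
      rw [sq_abs]
      field_simp
  have hS0 : 0 ≤ ∑ i ∈ J, (β i) ^ 2 / n i := sum_nonneg (fun i _ => by have := hn0 i; positivity)
  have hqs : 1 ≤ ∑ i, q i := by
    have h1 : ∑ i, q i = (∑ i ∈ J, (β i) ^ 2 / n i) / (32 * m) := by
      rw [sum_div]
      simp only [hq]
      rw [sum_ite_mem, univ_inter]
    rw [h1, le_div_iff₀ (by positivity), one_mul]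
    have h2 : (δ * (Real.sqrt m * Real.sqrt K) / 2) ^ 2 ≤ (∑ i ∈ J, |β i|) ^ 2 :=
      pow_le_pow_left₀ (by positivity) hsumJ 2
    have h3 : (δ * (Real.sqrt m * Real.sqrt K) / 2) ^ 2 = δ ^ 2 * m * K / 4 := by
      rw [div_pow, mul_pow, mul_pow, Real.sq_sqrt hm'.le, Real.sq_sqrt hKpos.le]
      ring
    rw [h3] at h2
    have h4 : (∑ i ∈ J, (β i) ^ 2 / n i) * ∑ i ∈ J, n i ≤ (∑ i ∈ J, (β i) ^ 2 / n i) * L ^ 2 :=
      mul_le_mul_of_nonneg_left hsumn hS0
    have h5 : (32 * m) * L ^ 2 ≤ (∑ i ∈ J, (β i) ^ 2 / n i) * L ^ 2 := by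
      have : (32 * m) * L ^ 2 ≤ δ ^ 2 * m * K / 4 := by nlinarith
      linarith
    exact le_of_mul_le_mul_right h5 (by positivity)
  -- product
  have hset : univ.filter (fun w : OK m K => ∀ i : Fin K,
      ¬ (T ≤ |B m (fun k => x (i * M1 m + k)) (w i)|)) =
      Fintype.piFinset (fun i : Fin K => univ.filter (fun w : O m =>
        ¬ (T ≤ |B m (fun k => x (i * M1 m + k)) w|))) := by
    ext w
    rw [Fintype.mem_piFinset, mem_filter]
    simp only [mem_univ, true_and, mem_filter]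
  rw [hset, Fintype.card_piFinset]
  push_cast
  have h1 : ∏ i : Fin K, Fa i ≤ ∏ i : Fin K, (C * Real.exp (- q i)) :=
    prod_le_prod (fun i _ => Nat.cast_nonneg _) (fun i _ => hFq i)
  refine h1.trans ?_
  rw [prod_mul_distrib, prod_const, card_univ, Fintype.card_fin, ← Real.exp_sum, sum_neg_distrib]
  have h2 : Real.exp (- ∑ i, q i) ≤ 1/2 := by
    have h3 : Real.exp (- ∑ i, q i) ≤ Real.exp (-1) := Real.exp_le_exp.mpr (by linarith)
    have h4 : Real.exp (-1) ≤ 1/2 := by
      rw [Real.exp_neg]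
      have h5 := Real.add_one_le_exp (1:ℝ)
      rw [inv_eq_one_div, div_le_div_iff₀ (Real.exp_pos 1) (by norm_num)]
      linarith
    linarith
  have h6 : (Fintype.card (OK m K) : ℝ) = C ^ K := by
    rw [hC, Fintype.card_pi, prod_const, card_univ, Fintype.card_fin]
    push_cast
    rfl
  rw [h6]
  have h7 : 0 < C ^ K := by positivity
  nlinarith

end Pool.Agent.Helper187.Ampl
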