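import Mathlib
import Pool.Agent.Helper187.Ampl

set_option autoImplicit false

namespace Pool.Agent.Helper187.Ampl

open Finset Pool.Agent.Helper187.Haar Pool.Agent.Helper187.Rad Pool.Agent.Helper187.Copy

/-- the quantity whose size is amplified -/
noncomputable def Y (m K : ℕ) (c ε : ℝ) (x : ℕ → ℝ) (N : ℕ) (w : OK m K) : ℝ :=
  ∑ k ∈ range N, x k * phK m K k w + (∑ k ∈ range N, aa m K k * x k) *
    ((c - 1) * (∑ k ∈ range (K * M1 m), aa m K k * phK m K k w) + ε)

lemma exists_mK (T L δ : ℝ) (hδ : 0 < δ) : ∃ m K : ℕ, 0 < m ∧ 0 < K ∧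
    8 * Real.sqrt 2 * T * Real.sqrt K ≤ δ * Real.sqrt m ∧ 128 * L ^ 2 ≤ δ ^ 2 * K := by
  obtain ⟨K, hK⟩ := exists_nat_gt (128 * L ^ 2 / δ ^ 2)
  have hδ2 : 0 < δ ^ 2 := by positivity
  have hKp : (0:ℝ) < K := lt_of_le_of_lt (by positivity) hK
  obtain ⟨m, hm⟩ := exists_nat_gt (((8 * Real.sqrt 2 * T * Real.sqrt K) / δ) ^ 2)
  have hmp : (0:ℝ) < m := lt_of_le_of_lt (by positivity) hm
  refine ⟨m, K, by exact_mod_cast hmp, by exact_mod_cast hKp, ?_, ?_⟩
  · have h1 : (8 * Real.sqrt 2 * T * Real.sqrt K) / δ ≤ Real.sqrt m := by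
      apply Real.le_sqrt_of_sq_le hm.le
    rw [div_le_iff₀ hδ] at h1
    linarith
  · rw [div_lt_iff₀ hδ2] at hK
    linarith

theorem amplify (G A δ : ℝ) (hG : 0 ≤ G) (hA : 0 ≤ A) (hδ : 0 < δ) :
    ∃ m K : ℕ, 0 < m ∧ 0 < K ∧ ∀ c ε : ℝ, 1/2 ≤ c → c ≤ 1 → |ε| ≤ G → ∀ x : ℕ → ℝ,
      δ ≤ |∑ k ∈ range (K * M1 m), aa m K k * x k| →
      (1/8) * (Fintype.card (OK m K) : ℝ) ≤
        ((univ.filter (fun w : OK m K => ∃ N ≤ K * M1 m, A ≤ |Y m K c ε x N w|)).card : ℝ) := by
  classical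
  set L : ℝ := 6 * A + 1 with hL
  set T : ℝ := 2 * A + L * (4 + G) with hT
  have hL0 : 0 < L := by positivity
  have hT0 : 0 < T := by positivity
  obtain ⟨m, K, hm, hK, hmT, hKL⟩ := exists_mK T L δ hδ
  refine ⟨m, K, hm, hK, ?_⟩
  intro c ε hc1 hc2 hε x hx
  have hm' : (0:ℝ) < m := by exact_mod_cast hm
  have hK' : (0:ℝ) < K := by exact_mod_cast hK
  set M : ℕ := K * M1 m with hM
  set X : ℝ := ∑ k ∈ range M, aa m K k * x k with hX
  have hasq := aa_sq m K hm hK
  have hcard : (0:ℝ) ≤ Fintype.card (OK m K) := Nat.cast_nonneg _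
  have hXsq : X ^ 2 ≤ ∑ k ∈ range M, x k ^ 2 := by
    have := sum_mul_sq_le_sq_mul_sq (range M) (aa m K) x
    rw [hasq, one_mul] at this
    exact this
  by_cases hbig : L ^ 2 ≤ ∑ k ∈ range M, x k ^ 2
  · -- large vectors
    set y : ℕ → ℝ := fun k => x k + X * (c - 1) * aa m K k with hy
    have hysq : ∑ k ∈ range M, y k ^ 2 = ∑ k ∈ range M, x k ^ 2 - X ^ 2 * (1 - c ^ 2) := by
      have h1 : ∀ k ∈ range M, y k ^ 2 = x k ^ 2 + 2 * (X * (c-1)) * (aa m K k * x k) +
          (X * (c-1)) ^ 2 * aa m K k ^ 2 := by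
        intro k _
        simp only [hy]
        ring
      rw [sum_congr rfl h1, sum_add_distrib, sum_add_distrib, ← mul_sum, ← mul_sum, hasq, ← hX]
      ring
    have h8 : 8 * A ^ 2 ≤ ∑ k ∈ range M, y k ^ 2 := by
      rw [hysq]
      have h1 : X ^ 2 * (1 - c ^ 2) ≤ (∑ k ∈ range M, x k ^ 2) * (1 - c ^ 2) := by
        apply mul_le_mul_of_nonneg_right hXsq
        nlinarith
      have h2 : (1/4 : ℝ) * (∑ k ∈ range M, x k ^ 2) ≤ c ^ 2 * (∑ k ∈ range M, x k ^ 2) := by
        apply mul_le_mul_of_nonneg_right _ (sum_nonneg (fun _ _ => sq_nonneg _))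
        nlinarith
      have h3 : 8 * A ^ 2 ≤ (1/4) * L ^ 2 := by rw [hL]; nlinarith
      nlinarith
    have h := case1 m K y (X * ε) A hA h8
    refine le_trans ?_ (h.trans ?_)
    · linarith
    · have hsub : univ.filter (fun w : OK m K => A ≤ |X * ε + ∑ k ∈ range (K * M1 m), y k * phK m K k w|) ⊆
          univ.filter (fun w : OK m K => ∃ N ≤ K * M1 m, A ≤ |Y m K c ε x N w|) := by
        intro w hw
        rw [mem_filter] at hw ⊢
        refine ⟨hw.1, M, le_refl _, ?_⟩
        have e : Y m K c ε x M w = X * ε + ∑ k ∈ range (K * M1 m), y k * phK m K k w := by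
          unfold Y
          rw [← hM, ← hX]
          have : ∑ k ∈ range M, y k * phK m K k w = ∑ k ∈ range M, x k * phK m K k w +
              X * (c-1) * ∑ k ∈ range M, aa m K k * phK m K k w := by
            rw [mul_sum, ← sum_add_distrib]
            apply sum_congr rfl
            intro k _
            simp only [hy]
            ring
          rw [this]
          ring
        rw [e]
        exact hw.2
      exact_mod_cast card_le_card hsub
  · -- small vectors
    rw [not_le] at hbig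
    have hδ' : δ * (Real.sqrt m * Real.sqrt K) ≤
        |∑ i : Fin K, ∑ k ∈ range (M1 m), al m k * x (i * M1 m + k)| := by
      have h1 := aa_inner m K x
      rw [← hM, ← hX, Real.sqrt_mul hm'.le] at h1
      have hp : 0 < Real.sqrt m * Real.sqrt K := mul_pos (Real.sqrt_pos.mpr hm') (Real.sqrt_pos.mpr hK')
      rw [eq_div_iff hp.ne'] at h1
      rw [← h1, abs_mul, abs_of_pos hp]
      exact mul_le_mul_of_nonneg_right hx hp.le
    have h2 := case2 m K hm x T L δ hT0 hL0 hbig.le hδ' hδ hmT hKL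
    set v : OK m K → ℝ := fun w => ∑ k ∈ range M, aa m K k * phK m K k w with hv
    have h3 : ((univ.filter (fun w : OK m K => 4 ≤ |v w|)).card : ℝ) ≤
        (1/16) * (Fintype.card (OK m K) : ℝ) := by
      have h4 := total_good2 m K (aa m K) 0
      rw [hasq] at h4
      have h5 : ∑ w : OK m K, (v w) ^ 2 = (Fintype.card (OK m K) : ℝ) := by
        simp only [zero_add] at h4
        rw [hv]
        simp only
        rw [h4]
        ring
      have h6 : 16 * ((univ.filter (fun w : OK m K => 4 ≤ |v w|)).card : ℝ) ≤ ∑ w : OK m K, (v w) ^ 2 := by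
        calc _ = ∑ w ∈ univ.filter (fun w : OK m K => 4 ≤ |v w|), (16:ℝ) := by
              rw [sum_const, nsmul_eq_mul]; ring
          _ ≤ ∑ w ∈ univ.filter (fun w : OK m K => 4 ≤ |v w|), (v w) ^ 2 := by
              apply sum_le_sum
              intro w hw
              rw [mem_filter] at hw
              rw [← sq_abs]
              nlinarith [hw.2, abs_nonneg (v w)]
          _ ≤ _ := sum_le_sum_of_subset_of_nonneg (filter_subset _ _) (fun _ _ _ => sq_nonneg _)
      linarith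
    have hcover : (univ : Finset (OK m K)) ⊆
        univ.filter (fun w : OK m K => ∃ N ≤ K * M1 m, A ≤ |Y m K c ε x N w|) ∪
        (univ.filter (fun w : OK m K => ∀ i : Fin K,
          ¬ (T ≤ |B m (fun k => x (i * M1 m + k)) (w i)|)) ∪
        univ.filter (fun w : OK m K => 4 ≤ |v w|)) := by
      intro w _
      rw [mem_union, mem_union]
      by_contra hcon
      push Not at hcon
      obtain ⟨c1, c2, c3⟩ := hcon
      rw [mem_filter] at c1 c2 c3
      simp only [mem_univ, true_and, not_forall, not_not, not_le, not_exists, not_and] at c1 c2 c3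
      obtain ⟨i, hi⟩ := c2
      have hw := (w i).1.2
      have hM1 : M1 m = 2 ^ m - 1 := rfl
      have hiK : (i:ℕ) < K := i.2
      have hle : (i:ℕ) * M1 m + ((w i).1 : ℕ) ≤ K * M1 m := by
        have : ((i:ℕ) + 1) * M1 m ≤ K * M1 m := Nat.mul_le_mul_right _ hiK
        rw [Nat.succ_mul] at this
        omega
      have d1 := c1 ((i:ℕ) * M1 m) (by omega)
      have d2 := c1 ((i:ℕ) * M1 m + ((w i).1 : ℕ)) hle
      have hdiff : Y m K c ε x ((i:ℕ) * M1 m + ((w i).1 : ℕ)) w - Y m K c ε x ((i:ℕ) * M1 m) w =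
          B m (fun k => x (i * M1 m + k)) (w i) +
          (∑ k ∈ Ico ((i:ℕ) * M1 m) ((i:ℕ) * M1 m + ((w i).1 : ℕ)), aa m K k * x k) *
            ((c - 1) * v w + ε) := by
        rw [← window m K x i w]
        unfold Y
        rw [← hM, Finset.sum_Ico_eq_sub _ (by omega), Finset.sum_Ico_eq_sub _ (by omega)]
        ring
      set Z : ℝ := ∑ k ∈ Ico ((i:ℕ) * M1 m) ((i:ℕ) * M1 m + ((w i).1 : ℕ)), aa m K k * x k with hZ
      have hZL : |Z| ≤ L := by
        have e1 := sum_mul_sq_le_sq_mul_sq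
          (Ico ((i:ℕ) * M1 m) ((i:ℕ) * M1 m + ((w i).1 : ℕ))) (aa m K) x
        have hsub : Ico ((i:ℕ) * M1 m) ((i:ℕ) * M1 m + ((w i).1 : ℕ)) ⊆ range M := by
          intro k hk
          rw [mem_Ico] at hk
          rw [mem_range]
          omega
        have e2 : ∑ k ∈ Ico ((i:ℕ) * M1 m) ((i:ℕ) * M1 m + ((w i).1 : ℕ)), aa m K k ^ 2 ≤ 1 := by
          rw [← hasq]
          exact sum_le_sum_of_subset_of_nonneg hsub (fun _ _ _ => sq_nonneg _)
        have e3 : ∑ k ∈ Ico ((i:ℕ) * M1 m) ((i:ℕ) * M1 m + ((w i).1 : ℕ)), x k ^ 2 ≤ L ^ 2 := by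
          refine le_trans ?_ hbig.le
          exact sum_le_sum_of_subset_of_nonneg hsub (fun _ _ _ => sq_nonneg _)
        have e4 : Z ^ 2 ≤ L ^ 2 := by
          calc Z ^ 2 ≤ _ := e1
            _ ≤ 1 * L ^ 2 := mul_le_mul e2 e3 (sum_nonneg (fun _ _ => sq_nonneg _)) (by norm_num)
            _ = _ := one_mul _
        have := sq_le_sq.mp e4
        rwa [abs_of_pos hL0] at this
      have hfac : |(c - 1) * v w + ε| ≤ 4 + G := by
        have f1 : |(c - 1) * v w| ≤ 4 := by
          rw [abs_mul]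
          have : |c - 1| ≤ 1 := by rw [abs_le]; constructor <;> linarith
          calc |c-1| * |v w| ≤ 1 * 4 := mul_le_mul this c3.le (abs_nonneg _) (by norm_num)
            _ = 4 := by norm_num
        exact (abs_add_le _ _).trans (add_le_add f1 hε)
      have hprod : |Z * ((c - 1) * v w + ε)| ≤ L * (4 + G) := by
        rw [abs_mul]
        exact mul_le_mul hZL hfac (abs_nonneg _) hL0.le
      have g1 := abs_sub (Y m K c ε x ((i:ℕ) * M1 m + ((w i).1 : ℕ)) w) (Y m K c ε x ((i:ℕ) * M1 m) w)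
      rw [hdiff] at g1
      have g2 := abs_sub_abs_le_abs_sub (B m (fun k => x (i * M1 m + k)) (w i))
        (-(Z * ((c - 1) * v w + ε)))
      rw [abs_neg, sub_neg_eq_add] at g2
      linarith
    have hcount : (Fintype.card (OK m K) : ℝ) ≤
        ((univ.filter (fun w : OK m K => ∃ N ≤ K * M1 m, A ≤ |Y m K c ε x N w|)).card : ℝ) +
        (((univ.filter (fun w : OK m K => ∀ i : Fin K,
          ¬ (T ≤ |B m (fun k => x (i * M1 m + k)) (w i)|))).card : ℝ) +
        ((univ.filter (fun w : OK m K => 4 ≤ |v w|)).card : ℝ)) := by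
      have e1 := (card_le_card hcover).trans (card_union_le _ _)
      have e2 := card_union_le (univ.filter (fun w : OK m K => ∀ i : Fin K,
          ¬ (T ≤ |B m (fun k => x (i * M1 m + k)) (w i)|))) (univ.filter (fun w : OK m K => 4 ≤ |v w|))
      rw [card_univ] at e1
      exact_mod_cast e1.trans (add_le_add_right e2 _)
    linarith

end Pool.Agent.Helper187.Ampl
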