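import Mathlib
import Pool.Agent.Helper187.Ampl2

set_option autoImplicit false

namespace Pool.Agent.Helper187.Ampl

open Finset Pool.Agent.Helper187.Haar Pool.Agent.Helper187.Rad Pool.Agent.Helper187.Copy

lemma on_of_good2 {Ω : Type} [Fintype Ω] (M : ℕ) (φ : ℕ → Ω → ℝ)
    (h : ∀ x : ℕ → ℝ, Good2 Ω (fun w => ∑ k ∈ range M, x k * φ k w) (∑ k ∈ range M, x k ^ 2)) :
    (∀ k < M, ∑ w, φ k w = 0) ∧
    (∀ j < M, ∀ k < M, ∑ w, φ j w * φ k w = if j = k then (Fintype.card Ω : ℝ) else 0) := by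
  have hs : ∀ k < M, ∀ w, ∑ i ∈ range M, (if i = k then (1:ℝ) else 0) * φ i w = φ k w := by
    intro k hk w
    simp only [ite_mul, one_mul, zero_mul]
    rw [sum_ite_eq' (range M) k, if_pos (mem_range.mpr hk)]
  have hn : ∀ k < M, ∑ i ∈ range M, (if i = k then (1:ℝ) else 0) ^ 2 = 1 := by
    intro k hk
    simp only [ite_pow, one_pow]
    rw [show (0:ℝ) ^ 2 = 0 by norm_num, sum_ite_eq' (range M) k, if_pos (mem_range.mpr hk)]
  have h2 : ∀ k < M, ∑ w, φ k w * φ k w = (Fintype.card Ω : ℝ) := by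
    intro k hk
    have := h (fun i => if i = k then (1:ℝ) else 0) 0
    simp only [hs k hk, hn k hk, zero_add] at this
    rw [show (0:ℝ) ^ 2 + 1 = 1 by norm_num, mul_one] at this
    rw [← this]
    apply sum_congr rfl
    intro w _
    ring
  constructor
  · intro k hk
    have := good2_mean (h (fun i => if i = k then (1:ℝ) else 0)) 0
    simp only [hs k hk, zero_add, mul_zero] at this
    exact this
  · intro j hj k hk
    split_ifs with hjk
    · subst hjk
      exact h2 j hj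
    · have := h (fun i => (if i = j then (1:ℝ) else 0) + (if i = k then (1:ℝ) else 0)) 0
      have e1 : ∀ w, ∑ i ∈ range M, ((if i = j then (1:ℝ) else 0) + (if i = k then (1:ℝ) else 0)) * φ i w =
          φ j w + φ k w := by
        intro w
        rw [← hs j hj w, ← hs k hk w, ← sum_add_distrib]
        apply sum_congr rfl
        intro i _
        ring
      have e2 : ∑ i ∈ range M, ((if i = j then (1:ℝ) else 0) + (if i = k then (1:ℝ) else 0)) ^ 2 = 2 := by
        have : ∀ i ∈ range M, ((if i = j then (1:ℝ) else 0) + (if i = k then (1:ℝ) else 0)) ^ 2 =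
            (if i = j then (1:ℝ) else 0) ^ 2 + (if i = k then (1:ℝ) else 0) ^ 2 := by
          intro i _
          by_cases h1 : i = j
          · have h2 : i ≠ k := fun h => hjk (h1 ▸ h)
            simp [h1, hjk]
          · simp [h1]
        rw [sum_congr rfl this, sum_add_distrib, hn j hj, hn k hk]
        norm_num
      simp only [e1, e2, zero_add] at this
      have e3 : ∑ w, (φ j w + φ k w) ^ 2 = ∑ w, φ j w * φ j w + ∑ w, φ k w * φ k w +
          2 * ∑ w, φ j w * φ k w := by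
        rw [mul_sum, ← sum_add_distrib, ← sum_add_distrib]
        apply sum_congr rfl
        intro w _
        ring
      rw [e3, h2 j hj, h2 k hk] at this
      linarith

/-- transfer from an abstract finite type to an initial segment -/
lemma sum_transfer {Ω : Type} [Fintype Ω] (n : ℕ) (e : Ω ≃ Fin n) (Ψ : ℕ → ℝ) (F : Ω → ℝ)
    (h : ∀ w, Ψ (e w) = F w) : ∑ l ∈ range n, Ψ l = ∑ w, F w := by
  rw [Finset.sum_range]
  exact (Fintype.sum_equiv e F (fun i => Ψ i) (fun w => (h w).symm)).symm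

/-- the multiplier concentrating on a small set -/
noncomputable def hm (q : ℕ) (z : Fin (2 ^ q)) : ℝ :=
  if (z : ℕ) = 0 then Real.sqrt (2 ^ q - (2 ^ q - 1) * (1 / 2 ^ q) ^ 2) else 1 / 2 ^ q

lemma hm_arg (q : ℕ) : (1 / (2:ℝ) ^ q) ^ 2 ≤ 2 ^ q - (2 ^ q - 1) * (1 / 2 ^ q) ^ 2 := by
  have hQ : (1:ℝ) ≤ 2 ^ q := one_le_pow₀ (by norm_num)
  set Q : ℝ := 2 ^ q with hQd
  have h1 : 1 / Q ≤ 1 := by rw [div_le_one (by linarith)]; exact hQ
  have h0 : 0 ≤ 1 / Q := by positivity
  have h2 : (1 / Q) ^ 2 ≤ 1 := by nlinarith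
  nlinarith

lemma hm_ge (q : ℕ) (z : Fin (2 ^ q)) : 1 / 2 ^ q ≤ hm q z := by
  unfold hm
  split_ifs
  · apply Real.le_sqrt_of_sq_le (hm_arg q)
  · exact le_refl _

lemma hm_pos (q : ℕ) (z : Fin (2 ^ q)) : 0 < hm q z := lt_of_lt_of_le (by positivity) (hm_ge q z)

lemma sum_fin_zero (q : ℕ) (a b : ℝ) : ∑ z : Fin (2 ^ q), (if (z : ℕ) = 0 then a else b) =
    a + (2 ^ q - 1) * b := by
  rw [← Finset.sum_range (fun z => if z = 0 then a else b)]
  have h0 : 0 < 2 ^ q := by positivity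
  have h : 2 ^ q = (2 ^ q - 1) + 1 := by omega
  rw [h, sum_range_succ']
  simp only [if_pos]
  have : ∀ k ∈ range (2 ^ q - 1), (if k + 1 = 0 then a else b) = b := by
    intro k _
    rw [if_neg (by omega)]
  rw [sum_congr rfl this, sum_const, card_range, nsmul_eq_mul, add_comm]
  congr 2
  rw [Nat.cast_sub (by omega)]
  push_cast
  ring

lemma hm_sq (q : ℕ) : ∑ z : Fin (2 ^ q), hm q z ^ 2 = 2 ^ q := by
  have h1 : ∀ z : Fin (2 ^ q), hm q z ^ 2 = if (z : ℕ) = 0 then
      (2 ^ q - (2 ^ q - 1) * (1 / 2 ^ q) ^ 2) else (1 / (2:ℝ) ^ q) ^ 2 := by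
    intro z
    unfold hm
    split_ifs
    · apply Real.sq_sqrt
      exact le_trans (sq_nonneg _) (hm_arg q)
    · rfl
  simp only [h1]
  rw [sum_fin_zero]
  ring

lemma hm_sum (q : ℕ) : ∑ z : Fin (2 ^ q), hm q z ≤ 2 * Real.sqrt (2 ^ q) := by
  unfold hm
  rw [sum_fin_zero]
  have hQ : (1:ℝ) ≤ 2 ^ q := one_le_pow₀ (by norm_num)
  have h1 : Real.sqrt (2 ^ q - (2 ^ q - 1) * (1 / 2 ^ q) ^ 2) ≤ Real.sqrt (2 ^ q) := by
    apply Real.sqrt_le_sqrt
    have : 0 ≤ ((2:ℝ) ^ q - 1) * (1 / 2 ^ q) ^ 2 := mul_nonneg (by linarith) (sq_nonneg _)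
    linarith
  have h2 : ((2:ℝ) ^ q - 1) * (1 / 2 ^ q) ≤ 1 := by
    rw [mul_one_div, div_le_one (by linarith)]
    linarith
  have h3 : 1 ≤ Real.sqrt (2 ^ q) := by
    rw [Real.one_le_sqrt]
    exact hQ
  linarith

theorem final (G A δ τ : ℝ) (hG : 0 ≤ G) (hA : 0 ≤ A) (hδ : 0 < δ) (hτ : 0 < τ) :
    ∃ (n M : ℕ) (φ : ℕ → ℕ → ℝ) (a : ℕ → ℝ),
      (∀ k < M, ∑ l ∈ range (2 ^ n), φ k l = 0) ∧
      (∀ j < M, ∀ k < M, ∑ l ∈ range (2 ^ n), φ j l * φ k l = if j = k then (2:ℝ) ^ n else 0) ∧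
      (∑ k ∈ range M, a k ^ 2 = 1) ∧
      (∑ l ∈ range (2 ^ n), |∑ k ∈ range M, a k * φ k l| ≤ τ * 2 ^ n) ∧
      (∀ c ε : ℝ, 1/2 ≤ c → c ≤ 1 → |ε| ≤ G → ∀ x : ℕ → ℝ,
        δ ≤ |∑ k ∈ range M, a k * x k| →
        (1/8) * (2:ℝ) ^ n ≤ (((range (2 ^ n)).filter (fun l => ∃ N ≤ M,
          A ≤ |∑ k ∈ range N, x k * φ k l + (∑ k ∈ range N, a k * x k) *
            ((c - 1) * (∑ k ∈ range M, a k * φ k l) + ε)|)).card : ℝ)) := by
  classical
  -- the small set
  obtain ⟨q, hq⟩ : ∃ q : ℕ, 2 * Real.sqrt (2 ^ q) ≤ τ * 2 ^ q := by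
    obtain ⟨q, hq⟩ := pow_unbounded_of_one_lt ((2 / τ) ^ 2) (show (1:ℝ) < 2 by norm_num)
    refine ⟨q, ?_⟩
    have h1 : 2 / τ ≤ Real.sqrt (2 ^ q) := Real.le_sqrt_of_sq_le hq.le
    rw [div_le_iff₀ hτ] at h1
    have h2 : (2:ℝ) ^ q = Real.sqrt (2 ^ q) * Real.sqrt (2 ^ q) :=
      (Real.mul_self_sqrt (by positivity)).symm
    have h3 : 0 < Real.sqrt ((2:ℝ) ^ q) := Real.sqrt_pos.mpr (by positivity)
    calc 2 * Real.sqrt (2 ^ q) ≤ (Real.sqrt (2 ^ q) * τ) * Real.sqrt (2 ^ q) :=
          mul_le_mul_of_nonneg_right h1 h3.le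
      _ = τ * (Real.sqrt (2 ^ q) * Real.sqrt (2 ^ q)) := by ring
      _ = _ := by rw [← h2]
  have hQ : (0:ℝ) < 2 ^ q := by positivity
  obtain ⟨m, K, hm0, hK0, hamp⟩ := amplify (G * 2 ^ q) (A * 2 ^ q) δ (by positivity) (by positivity) hδ
  set M : ℕ := K * M1 m with hM
  set Ω : Type := OK m K × Fin (2 ^ q) with hΩ
  set C : ℝ := (Fintype.card (OK m K) : ℝ) with hC
  have hC0 : 0 < C := by
    rw [hC]
    have : Nonempty (OK m K) := inferInstance
    exact_mod_cast Fintype.card_pos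
  obtain ⟨n, hn⟩ : ∃ n : ℕ, Fintype.card Ω = 2 ^ n := by
    refine ⟨(m + (2 ^ m - 1)) * K + q, ?_⟩
    simp only [hΩ, OK, O, Fintype.card_prod, Fintype.card_pi, Fintype.card_fin, Fintype.card_bool,
      prod_const, card_univ]
    rw [← pow_add, ← pow_mul, ← pow_add]
  have hCn : C * 2 ^ q = (2:ℝ) ^ n := by
    have h1 : (Fintype.card Ω : ℝ) = C * 2 ^ q := by
      change ((Fintype.card (OK m K × Fin (2 ^ q)) : ℕ) : ℝ) = _
      rw [Fintype.card_prod, Fintype.card_fin]
      push_cast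
      rfl
    rw [← h1, hn]
    push_cast
    rfl
  set e : Ω ≃ Fin (2 ^ n) := Fintype.equivFinOfCardEq hn with he
  set f : ℕ → Ω → ℝ := fun k w => hm q w.2 * phK m K k w.1 with hf
  set φ : ℕ → ℕ → ℝ := fun k l => if h : l < 2 ^ n then f k (e.symm ⟨l, h⟩) else 0 with hφ
  have hφe : ∀ k (w : Ω), φ k (e w) = f k w := by
    intro k w
    simp only [hφ]
    rw [dif_pos (e w).2]
    congr 1
    exact e.symm_apply_apply w
  -- orthonormality
  have hgood : ∀ x : ℕ → ℝ, Good2 Ω (fun w => ∑ k ∈ range M, x k * f k w) (∑ k ∈ range M, x k ^ 2) := by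
    intro x b
    rw [Fintype.sum_prod_type_right]
    have h1 : ∀ z : Fin (2 ^ q), ∑ w : OK m K, (b + ∑ k ∈ range M, x k * f k (w, z)) ^ 2 =
        C * (b ^ 2 + hm q z ^ 2 * ∑ k ∈ range M, x k ^ 2) := by
      intro z
      have h2 := total_good2 m K (fun k => hm q z * x k) b
      have h3 : ∑ k ∈ range M, (hm q z * x k) ^ 2 = hm q z ^ 2 * ∑ k ∈ range M, x k ^ 2 := by
        rw [mul_sum]
        apply sum_congr rfl
        intro k _
        ring
      rw [← hM, h3] at h2
      rw [← h2]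
      apply sum_congr rfl
      intro w _
      congr 2
      apply sum_congr rfl
      intro k _
      simp only [hf]
      ring
    simp only [h1]
    rw [← mul_sum, sum_add_distrib, ← sum_mul, hm_sq]
    simp only [sum_const, card_univ, Fintype.card_fin, nsmul_eq_mul]
    rw [hn]
    push_cast
    rw [← hCn]
    ring
  obtain ⟨hmean, horth⟩ := on_of_good2 M f hgood
  have hasq := aa_sq m K hm0 hK0
  refine ⟨n, M, φ, aa m K, ?_, ?_, ?_, ?_, ?_⟩
  · intro k hk
    rw [sum_transfer (2 ^ n) e _ (fun w => f k w) (fun w => hφe k w)]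
    exact hmean k hk
  · intro j hj k hk
    rw [sum_transfer (2 ^ n) e _ (fun w => f j w * f k w) (fun w => by rw [hφe, hφe])]
    rw [horth j hj k hk, hn]
    push_cast
    rfl
  · exact hasq
  · rw [sum_transfer (2 ^ n) e _ (fun w => |∑ k ∈ range M, aa m K k * f k w|)
      (fun w => by simp only [hφe])]
    rw [Fintype.sum_prod_type_right]
    have h1 : ∀ z : Fin (2 ^ q), ∑ w : OK m K, |∑ k ∈ range M, aa m K k * f k (w, z)| ≤
        hm q z * C := by
      intro z
      have h2 : ∀ w : OK m K, |∑ k ∈ range M, aa m K k * f k (w, z)| =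
          hm q z * |∑ k ∈ range M, aa m K k * phK m K k w| := by
        intro w
        have h6 : ∑ k ∈ range M, aa m K k * f k (w, z) =
            hm q z * ∑ k ∈ range M, aa m K k * phK m K k w := by
          rw [mul_sum]
          apply sum_congr rfl
          intro k _
          simp only [hf]
          ring
        rw [h6, abs_mul, abs_of_pos (hm_pos q z)]
      simp only [h2]
      rw [← mul_sum]
      apply mul_le_mul_of_nonneg_left _ (hm_pos q z).le
      have h3 := total_good2 m K (aa m K) 0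
      simp only [zero_add] at h3
      rw [hasq, ← hM, ← hC] at h3
      have h4 := sq_sum_le_card_mul_sum_sq (s := (univ : Finset (OK m K)))
        (f := fun w => |∑ k ∈ range M, aa m K k * phK m K k w|)
      simp only [sq_abs] at h4
      rw [h3, card_univ, ← hC] at h4
      have h5 : (∑ w : OK m K, |∑ k ∈ range M, aa m K k * phK m K k w|) ^ 2 ≤ C ^ 2 := by
        refine h4.trans (le_of_eq ?_)
        ring
      exact abs_le_of_sq_le_sq' h5 hC0.le |>.2
    refine (sum_le_sum (fun z _ => h1 z)).trans ?_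
    rw [← sum_mul]
    calc (∑ z : Fin (2 ^ q), hm q z) * C ≤ (τ * 2 ^ q) * C :=
          mul_le_mul_of_nonneg_right ((hm_sum q).trans hq) hC0.le
      _ = τ * 2 ^ n := by rw [← hCn]; ring
  · intro c ε hc1 hc2 hε x hx
    have hcard : (((range (2 ^ n)).filter (fun l => ∃ N ≤ M,
          A ≤ |∑ k ∈ range N, x k * φ k l + (∑ k ∈ range N, aa m K k * x k) *
            ((c - 1) * (∑ k ∈ range M, aa m K k * φ k l) + ε)|)).card : ℝ) =
        ∑ w : Ω, (if (∃ N ≤ M,
          A ≤ |∑ k ∈ range N, x k * f k w + (∑ k ∈ range N, aa m K k * x k) *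
            ((c - 1) * (∑ k ∈ range M, aa m K k * f k w) + ε)|) then (1:ℝ) else 0) := by
      rw [card_filter]
      push_cast
      apply sum_transfer (2 ^ n) e
      intro w
      simp only [hφe]
    rw [hcard, Fintype.sum_prod_type_right]
    have h1 : ∀ z : Fin (2 ^ q), (1/8) * C ≤ ∑ w : OK m K, (if (∃ N ≤ M,
          A ≤ |∑ k ∈ range N, x k * f k (w, z) + (∑ k ∈ range N, aa m K k * x k) *
            ((c - 1) * (∑ k ∈ range M, aa m K k * f k (w, z)) + ε)|) then (1:ℝ) else 0) := by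
      intro z
      have hz := hm_pos q z
      have hz1 := hm_ge q z
      have hz2 : 1 ≤ hm q z * 2 ^ q := by
        rw [div_le_iff₀ hQ] at hz1
        exact hz1
      have h2 := hamp c (ε / hm q z) hc1 hc2 (by
        rw [abs_div, abs_of_pos hz, div_le_iff₀ hz]
        calc |ε| ≤ G := hε
          _ ≤ G * (hm q z * 2 ^ q) := by nlinarith
          _ = _ := by ring) x hx
      refine h2.trans ?_
      rw [card_filter]
      push_cast
      apply sum_le_sum
      intro w _
      split_ifs with c1 c2 c2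
      · exact le_refl _
      · exfalso
        apply c2
        obtain ⟨N, hN, hbig⟩ := c1
        refine ⟨N, hN, ?_⟩
        have e1 : ∑ k ∈ range N, x k * f k (w, z) + (∑ k ∈ range N, aa m K k * x k) *
            ((c - 1) * (∑ k ∈ range M, aa m K k * f k (w, z)) + ε) =
            hm q z * Y m K c (ε / hm q z) x N w := by
          unfold Y
          have e2 : ∀ N', ∀ y : ℕ → ℝ, ∑ k ∈ range N', y k * f k (w, z) =
              hm q z * ∑ k ∈ range N', y k * phK m K k w := by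
            intro N' y
            rw [mul_sum]
            apply sum_congr rfl
            intro k _
            simp only [hf]
            ring
          rw [e2, e2, ← hM]
          field_simp
        rw [e1, abs_mul, abs_of_pos hz]
        calc A ≤ A * (hm q z * 2 ^ q) := by nlinarith
          _ = hm q z * (A * 2 ^ q) := by ring
          _ ≤ _ := mul_le_mul_of_nonneg_left hbig hz.le
      · norm_num
      · norm_num
    refine le_trans ?_ (sum_le_sum (fun z _ => h1 z))
    rw [sum_const, card_univ, Fintype.card_fin, nsmul_eq_mul, ← hCn]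
    push_cast
    apply le_of_eq
    ring

end Pool.Agent.Helper187.Ampl
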