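import Mathlib

set_option autoImplicit false

namespace Pool.Agent.Helper187.Gadget

open Finset

/-- dyadic triangular kernel -/
noncomputable def Q : ℕ → ℕ → ℕ → ℝ
  | 0, _, _ => 0
  | (n+1), l, k => (if l < 2 ^ n then 1 else -1) / 2 ^ (n+1) +
      (if (l < 2 ^ n ↔ k < 2 ^ n) then Q n (l % 2 ^ n) (k % 2 ^ n) else 0)

lemma Q_ll (n i j : ℕ) (hi : i < 2 ^ n) (hj : j < 2 ^ n) :
    Q (n+1) i j = 1 / 2 ^ (n+1) + Q n i j := by
  rw [Q]
  simp only [hi, hj, if_true, Nat.mod_eq_of_lt]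

lemma Q_lr (n i j : ℕ) (hi : i < 2 ^ n) : Q (n+1) i (2 ^ n + j) = 1 / 2 ^ (n+1) := by
  rw [Q]
  have : ¬ (2 ^ n + j < 2 ^ n) := by omega
  simp only [hi, if_true, this]
  simp

lemma Q_rl (n i j : ℕ) (hj : j < 2 ^ n) : Q (n+1) (2 ^ n + i) j = -1 / 2 ^ (n+1) := by
  rw [Q]
  have : ¬ (2 ^ n + i < 2 ^ n) := by omega
  simp only [hj, this]
  simp

lemma Q_rr (n i j : ℕ) (hi : i < 2 ^ n) (hj : j < 2 ^ n) :
    Q (n+1) (2 ^ n + i) (2 ^ n + j) = -1 / 2 ^ (n+1) + Q n i j := by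
  rw [Q]
  have h1 : ¬ (2 ^ n + i < 2 ^ n) := by omega
  have h2 : ¬ (2 ^ n + j < 2 ^ n) := by omega
  simp only [h1, h2, if_true, Nat.add_mod_left, Nat.mod_eq_of_lt hi, Nat.mod_eq_of_lt hj]
  simp

lemma sum_split (n : ℕ) (F : ℕ → ℝ) : ∑ l ∈ range (2 ^ (n+1)), F l =
    ∑ l ∈ range (2 ^ n), F l + ∑ l ∈ range (2 ^ n), F (2 ^ n + l) := by
  rw [pow_succ, mul_two, sum_range_add]

lemma Q_mean (n : ℕ) : ∀ k < 2 ^ n, ∑ l ∈ range (2 ^ n), Q n l k = 0 := by
  induction n with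
  | zero => intro k _; simp [Q]
  | succ n ih =>
    intro k hk
    rw [sum_split]
    by_cases h : k < 2 ^ n
    · have h1 : ∀ l ∈ range (2 ^ n), Q (n+1) l k = 1 / 2 ^ (n+1) + Q n l k := by
        intro l hl
        exact Q_ll n l k (mem_range.mp hl) h
      have h2 : ∀ l ∈ range (2 ^ n), Q (n+1) (2 ^ n + l) k = -1 / 2 ^ (n+1) := by
        intro l hl
        exact Q_rl n l k h
      rw [sum_congr rfl h1, sum_congr rfl h2, sum_add_distrib, ih k h]
      simp only [sum_const, card_range, nsmul_eq_mul]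
      ring
    · obtain ⟨j, rfl⟩ : ∃ j, k = 2 ^ n + j := ⟨k - 2 ^ n, by omega⟩
      have hj : j < 2 ^ n := by rw [pow_succ] at hk; omega
      have h1 : ∀ l ∈ range (2 ^ n), Q (n+1) l (2 ^ n + j) = 1 / 2 ^ (n+1) := by
        intro l hl
        exact Q_lr n l j (mem_range.mp hl)
      have h2 : ∀ l ∈ range (2 ^ n), Q (n+1) (2 ^ n + l) (2 ^ n + j) =
          -1 / 2 ^ (n+1) + Q n l j := by
        intro l hl
        exact Q_rr n l j (mem_range.mp hl) hj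
      rw [sum_congr rfl h1, sum_congr rfl h2, sum_add_distrib, ih j hj]
      simp only [sum_const, card_range, nsmul_eq_mul]
      ring

/-- the operator with kernel Q -/
noncomputable def A (n : ℕ) (c : ℕ → ℝ) (l : ℕ) : ℝ := ∑ k ∈ range (2 ^ n), c k * Q n l k

lemma A_mean (n : ℕ) (c : ℕ → ℝ) : ∑ l ∈ range (2 ^ n), A n c l = 0 := by
  unfold A
  rw [sum_comm]
  apply sum_eq_zero
  intro k hk
  rw [← mul_sum, Q_mean n k (mem_range.mp hk), mul_zero]

lemma A_left (n : ℕ) (c : ℕ → ℝ) (l : ℕ) (hl : l < 2 ^ n) :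
    A (n+1) c l = (∑ k ∈ range (2 ^ (n+1)), c k) / 2 ^ (n+1) + A n c l := by
  unfold A
  rw [sum_split, sum_split]
  have h1 : ∀ k ∈ range (2 ^ n), c k * Q (n+1) l k = c k / 2 ^ (n+1) + c k * Q n l k := by
    intro k hk
    rw [Q_ll n l k hl (mem_range.mp hk)]
    ring
  have h2 : ∀ k ∈ range (2 ^ n), c (2 ^ n + k) * Q (n+1) l (2 ^ n + k) = c (2 ^ n + k) / 2 ^ (n+1) := by
    intro k hk
    rw [Q_lr n l k hl]
    ring
  rw [sum_congr rfl h1, sum_congr rfl h2, sum_add_distrib, ← sum_div, ← sum_div]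
  ring

lemma A_right (n : ℕ) (c : ℕ → ℝ) (l : ℕ) (hl : l < 2 ^ n) :
    A (n+1) c (2 ^ n + l) = -(∑ k ∈ range (2 ^ (n+1)), c k) / 2 ^ (n+1) +
      A n (fun k => c (2 ^ n + k)) l := by
  unfold A
  rw [sum_split, sum_split]
  have h1 : ∀ k ∈ range (2 ^ n), c k * Q (n+1) (2 ^ n + l) k = - (c k / 2 ^ (n+1)) := by
    intro k hk
    rw [Q_rl n l k (mem_range.mp hk)]
    ring
  have h2 : ∀ k ∈ range (2 ^ n), c (2 ^ n + k) * Q (n+1) (2 ^ n + l) (2 ^ n + k) =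
      - (c (2 ^ n + k) / 2 ^ (n+1)) + c (2 ^ n + k) * Q n l k := by
    intro k hk
    rw [Q_rr n l k hl (mem_range.mp hk)]
    ring
  rw [sum_congr rfl h1, sum_congr rfl h2, sum_add_distrib, sum_neg_distrib, sum_neg_distrib,
    ← sum_div, ← sum_div]
  ring

lemma energy (n : ℕ) : ∀ c : ℕ → ℝ, ∑ l ∈ range (2 ^ n), (A n c l) ^ 2 ≤
    n * ∑ k ∈ range (2 ^ n), c k ^ 2 := by
  induction n with
  | zero => intro c; simp [A, Q]
  | succ n ih =>
    intro c
    set s : ℝ := ∑ k ∈ range (2 ^ (n+1)), c k with hs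
    have hcs : s ^ 2 ≤ 2 ^ (n+1) * ∑ k ∈ range (2 ^ (n+1)), c k ^ 2 := by
      have := sq_sum_le_card_mul_sum_sq (s := range (2 ^ (n+1))) (f := c)
      rw [card_range] at this
      push_cast at this
      exact this
    have h1 : ∀ l ∈ range (2 ^ n), (A (n+1) c l) ^ 2 =
        (s / 2 ^ (n+1)) ^ 2 + 2 * (s / 2 ^ (n+1)) * A n c l + (A n c l) ^ 2 := by
      intro l hl
      rw [A_left n c l (mem_range.mp hl)]
      ring
    have h2 : ∀ l ∈ range (2 ^ n), (A (n+1) c (2 ^ n + l)) ^ 2 =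
        (s / 2 ^ (n+1)) ^ 2 - 2 * (s / 2 ^ (n+1)) * A n (fun k => c (2 ^ n + k)) l +
        (A n (fun k => c (2 ^ n + k)) l) ^ 2 := by
      intro l hl
      rw [A_right n c l (mem_range.mp hl)]
      ring
    rw [sum_split, sum_congr rfl h1, sum_congr rfl h2, sum_add_distrib, sum_add_distrib,
      sum_add_distrib, sum_sub_distrib, ← mul_sum, ← mul_sum, A_mean, A_mean]
    simp only [sum_const, card_range, nsmul_eq_mul, mul_zero]
    have i1 := ih c
    have i2 := ih (fun k => c (2 ^ n + k))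
    have h3 : ∑ k ∈ range (2 ^ (n+1)), c k ^ 2 =
      ∑ k ∈ range (2 ^ n), c k ^ 2 + ∑ k ∈ range (2 ^ n), c (2 ^ n + k) ^ 2 := sum_split n _
    have h4 : (2 : ℝ) ^ n * (s / 2 ^ (n+1)) ^ 2 + 2 ^ n * (s / 2 ^ (n+1)) ^ 2 ≤
        ∑ k ∈ range (2 ^ (n+1)), c k ^ 2 := by
      have h5 : (2 : ℝ) ^ n * (s / 2 ^ (n+1)) ^ 2 + 2 ^ n * (s / 2 ^ (n+1)) ^ 2 = s ^ 2 / 2 ^ (n+1) := by
        field_simp
        ring
      rw [h5, div_le_iff₀ (by positivity)]
      linarith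
    push_cast
    rw [h3] at h4 ⊢
    nlinarith

/-- triangular partial sums -/
noncomputable def S (n l : ℕ) : ℝ := ∑ k ∈ range (l+1), Q n l k

lemma S_left (n i : ℕ) (hi : i < 2 ^ n) : S (n+1) i = S n i + ((i:ℝ)+1) / 2 ^ (n+1) := by
  unfold S
  have h1 : ∀ k ∈ range (i+1), Q (n+1) i k = 1 / 2 ^ (n+1) + Q n i k := by
    intro k hk
    rw [mem_range] at hk
    exact Q_ll n i k hi (by omega)
  rw [sum_congr rfl h1, sum_add_distrib]
  simp only [sum_const, card_range, nsmul_eq_mul]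
  push_cast
  ring

lemma S_right (n i : ℕ) (hi : i < 2 ^ n) :
    S (n+1) (2 ^ n + i) = S n i - 1/2 - ((i:ℝ)+1) / 2 ^ (n+1) := by
  unfold S
  rw [show 2 ^ n + i + 1 = 2 ^ n + (i+1) by ring, sum_range_add]
  have h0 : ∀ k ∈ range (2 ^ n), Q (n+1) (2 ^ n + i) k = -1 / 2 ^ (n+1) := by
    intro k hk
    exact Q_rl n i k (mem_range.mp hk)
  have h1 : ∀ k ∈ range (i+1), Q (n+1) (2 ^ n + i) (2 ^ n + k) = -1 / 2 ^ (n+1) + Q n i k := by
    intro k hk
    rw [mem_range] at hk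
    exact Q_rr n i k hi (by omega)
  rw [sum_congr rfl h0, sum_congr rfl h1, sum_add_distrib]
  simp only [sum_const, card_range, nsmul_eq_mul]
  push_cast
  field_simp
  ring

lemma second_moment (n : ℕ) : ∑ l ∈ range (2 ^ n), (S n l + (n:ℝ) / 4) ^ 2 ≤ (2:ℝ) ^ n * (n:ℝ) := by
  induction n with
  | zero => simp [S, Q]
  | succ n ih =>
    rw [sum_split, ← sum_add_distrib]
    have h1 : ∀ i ∈ range (2 ^ n), (S (n+1) i + ((n+1 : ℕ) : ℝ) / 4) ^ 2 +
        (S (n+1) (2 ^ n + i) + ((n+1 : ℕ) : ℝ) / 4) ^ 2 ≤ 2 * (S n i + n / 4) ^ 2 + 2 := by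
      intro i hi
      rw [mem_range] at hi
      rw [S_left n i hi, S_right n i hi]
      set x : ℝ := ((i:ℝ)+1) / 2 ^ (n+1) with hx
      have hx0 : 0 ≤ x := by positivity
      have hx1 : x ≤ 1/2 := by
        rw [hx, div_le_iff₀ (by positivity), pow_succ]
        have : ((i:ℝ) + 1) ≤ 2 ^ n := by exact_mod_cast hi
        linarith
      push_cast
      nlinarith
    calc _ ≤ ∑ i ∈ range (2 ^ n), (2 * (S n i + n / 4) ^ 2 + 2) := sum_le_sum h1
      _ = 2 * ∑ i ∈ range (2 ^ n), (S n i + n / 4) ^ 2 + 2 ^ n * 2 := by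
          rw [sum_add_distrib, ← mul_sum]
          simp
      _ ≤ 2 * (2 ^ n * n) + 2 ^ n * 2 := by linarith
      _ = _ := by push_cast; ring

/-- most points have a large triangular sum -/
lemma count_bad (n : ℕ) (hn : 0 < n) :
    (((range (2 ^ n)).filter (fun l => |S n l| < (n:ℝ) / 8)).card : ℝ) ≤ (2:ℝ) ^ n * (64 / (n:ℝ)) := by
  have hn' : (0:ℝ) < n := by exact_mod_cast hn
  have h1 : ∑ l ∈ (range (2 ^ n)).filter (fun l => |S n l| < n / 8), ((n:ℝ)/8) ^ 2 ≤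
      ∑ l ∈ range (2 ^ n), (S n l + n / 4) ^ 2 := by
    calc _ ≤ ∑ l ∈ (range (2 ^ n)).filter (fun l => |S n l| < n / 8), (S n l + n / 4) ^ 2 := by
          apply sum_le_sum
          intro l hl
          rw [mem_filter] at hl
          have := abs_lt.mp hl.2
          nlinarith
      _ ≤ _ := by
          apply sum_le_sum_of_subset_of_nonneg (filter_subset _ _)
          intro l _ _
          positivity
  have h2 := h1.trans (second_moment n)
  rw [sum_const, nsmul_eq_mul] at h2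
  rw [mul_div_assoc', le_div_iff₀ hn']
  nlinarith

end Pool.Agent.Helper187.Gadget
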