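import Mathlib
import Pool.Agent.Helper187.Digits

set_option autoImplicit false

namespace Pool.Agent.Helper187.StepSpace

open Finset MeasureTheory Pool.Agent.Helper187.Digits

/-- the real Hilbert space of square integrable functions on the unit interval -/
abbrev H : Type := Lp ℝ 2 mu

lemma IsStep.smul {a : ℕ} {f : ℝ → ℝ} (hf : IsStep a f) (c : ℝ) : IsStep a (fun t => c * f t) := by
  obtain ⟨F, hF⟩ := hf
  exact ⟨fun i => c * F i, fun t => by simp only [hF]⟩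

lemma inner_eq (x y : H) : inner ℝ x y = ∫ t, x t * y t ∂mu := by
  rw [MeasureTheory.L2.inner_def]
  apply integral_congr_ae
  filter_upwards with t
  simp [mul_comm]

lemma inner_of_ae {x y : H} {f g : ℝ → ℝ} (hx : x =ᵐ[mu] f) (hy : y =ᵐ[mu] g) :
    inner ℝ x y = ∫ t, f t * g t ∂mu := by
  rw [inner_eq]
  apply integral_congr_ae
  filter_upwards [hx, hy] with t h1 h2
  rw [h1, h2]

/-- step functions of level a as a subspace -/
def V (a : ℕ) : Submodule ℝ H where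
  carrier := {x | ∃ f, IsStep a f ∧ x =ᵐ[mu] f}
  add_mem' := by
    rintro x y ⟨f, hf, hx⟩ ⟨g, hg, hy⟩
    refine ⟨fun t => f t + g t, hf.add hg, ?_⟩
    filter_upwards [hx, hy, Lp.coeFn_add x y] with t h1 h2 h3
    rw [h3, Pi.add_apply, h1, h2]
  zero_mem' := ⟨fun _ => 0, IsStep.const a 0, Lp.coeFn_zero _ _ _⟩
  smul_mem' := by
    rintro c x ⟨f, hf, hx⟩
    refine ⟨fun t => c * f t, IsStep.smul hf c, ?_⟩
    filter_upwards [hx, Lp.coeFn_smul c x] with t h1 h2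
    rw [h2, Pi.smul_apply, h1, smul_eq_mul]

lemma mem_V {a : ℕ} {x : H} : x ∈ V a ↔ ∃ f, IsStep a f ∧ x =ᵐ[mu] f := Iff.rfl

lemma V_mono {a b : ℕ} (h : a ≤ b) : V a ≤ V b := by
  rintro x ⟨f, hf, hx⟩
  exact ⟨f, hf.mono h, hx⟩

/-- the class of a step function -/
noncomputable def toH {a : ℕ} {f : ℝ → ℝ} (hf : IsStep a f) : H := hf.memLp.toLp f

lemma toH_ae {a : ℕ} {f : ℝ → ℝ} (hf : IsStep a f) : toH hf =ᵐ[mu] f := hf.memLp.coeFn_toLp

lemma toH_mem {a : ℕ} {f : ℝ → ℝ} (hf : IsStep a f) : toH hf ∈ V a := ⟨f, hf, toH_ae hf⟩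

/-- vectors to step functions -/
noncomputable def vecFun (a : ℕ) (G : Fin (2 ^ a) → ℝ) (t : ℝ) : ℝ :=
  if h : D a t < 2 ^ a then G ⟨D a t, h⟩ else 0

lemma vecFun_step (a : ℕ) (G : Fin (2 ^ a) → ℝ) : IsStep a (vecFun a G) :=
  ⟨fun i => if h : i < 2 ^ a then G ⟨i, h⟩ else 0, fun _ => rfl⟩

noncomputable def vecMap (a : ℕ) : (Fin (2 ^ a) → ℝ) →ₗ[ℝ] H where
  toFun G := toH (vecFun_step a G)
  map_add' G G' := by
    apply Lp.ext
    filter_upwards [toH_ae (vecFun_step a (G + G')), toH_ae (vecFun_step a G),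
      toH_ae (vecFun_step a G'), Lp.coeFn_add (toH (vecFun_step a G)) (toH (vecFun_step a G'))]
      with t h1 h2 h3 h4
    rw [h1, h4, Pi.add_apply, h2, h3]
    unfold vecFun
    split_ifs <;> simp
  map_smul' c G := by
    apply Lp.ext
    filter_upwards [toH_ae (vecFun_step a (c • G)), toH_ae (vecFun_step a G),
      Lp.coeFn_smul c (toH (vecFun_step a G))] with t h1 h2 h3
    simp only [RingHom.id_apply]
    rw [h1, h3, Pi.smul_apply, h2]
    unfold vecFun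
    split_ifs <;> simp

lemma D_lt_ae (a : ℕ) : ∀ᵐ t ∂mu, D a t < 2 ^ a := by
  have h1 : ∀ᵐ t ∂mu, t ≠ 1 := ae_restrict_of_ae (by simp [ae_iff])
  have h2 : ∀ᵐ t ∂mu, t ∈ Set.Icc (0:ℝ) 1 := ae_restrict_mem measurableSet_Icc
  filter_upwards [h1, h2] with t ht1 ht2
  have h3 : t < 1 := lt_of_le_of_ne ht2.2 ht1
  unfold D
  rw [Nat.floor_lt (by have := ht2.1; positivity)]
  push_cast
  have : (0:ℝ) < 2 ^ a := by positivity
  nlinarith

lemma range_vecMap (a : ℕ) : LinearMap.range (vecMap a) = V a := by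
  apply le_antisymm
  · rintro x ⟨G, rfl⟩
    exact toH_mem (vecFun_step a G)
  · rintro x ⟨f, ⟨F, hF⟩, hx⟩
    refine ⟨fun i => F i, ?_⟩
    apply Lp.ext
    filter_upwards [hx, toH_ae (vecFun_step a (fun i => F i)), D_lt_ae a] with t h1 h2 h3
    change toH (vecFun_step a (fun i => F i)) t = x t
    rw [h1, h2, hF]
    unfold vecFun
    rw [dif_pos h3]

lemma vecMap_injective (a : ℕ) : Function.Injective (vecMap a) := by
  rw [← LinearMap.ker_eq_bot, LinearMap.ker_eq_bot']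
  intro G hG
  have h1 : inner ℝ (vecMap a G) (vecMap a G) = 0 := by rw [hG]; simp
  change inner ℝ (toH (vecFun_step a G)) (toH (vecFun_step a G)) = 0 at h1
  rw [inner_of_ae (toH_ae _) (toH_ae _)] at h1
  have h2 : ∀ t, vecFun a G t * vecFun a G t =
    (fun i => if h : i < 2 ^ a then G ⟨i, h⟩ * G ⟨i, h⟩ else 0) (D a t) := by
    intro t
    unfold vecFun
    simp only
    split_ifs <;> simp
  rw [integral_congr_ae (Filter.Eventually.of_forall h2), integral_step a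
    (fun i => if h : i < 2 ^ a then G ⟨i, h⟩ * G ⟨i, h⟩ else 0)] at h1
  rw [div_eq_zero_iff] at h1
  have h3 : ∑ i ∈ range (2 ^ a), (if h : i < 2 ^ a then G ⟨i, h⟩ * G ⟨i, h⟩ else 0) = 0 := by
    rcases h1 with h | h
    · exact h
    · exfalso
      have : (0:ℝ) < 2 ^ a := by positivity
      linarith
  rw [sum_eq_zero_iff_of_nonneg] at h3
  · funext i
    have := h3 i (mem_range.mpr i.2)
    rw [dif_pos i.2] at this
    exact mul_self_eq_zero.mp this
  · intro i _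
    split_ifs
    · exact mul_self_nonneg _
    · exact le_refl _

instance V_finite (a : ℕ) : FiniteDimensional ℝ (V a) := by
  rw [← range_vecMap]
  infer_instance

lemma finrank_V (a : ℕ) : Module.finrank ℝ (V a) = 2 ^ a := by
  rw [← range_vecMap, LinearMap.finrank_range_of_inj (vecMap_injective a)]
  simp

lemma V_bounded {a : ℕ} {x : H} (hx : x ∈ V a) : ∃ C : ℝ, 0 ≤ C ∧ ∀ᵐ t ∂mu, |x t| ≤ C := by
  obtain ⟨f, hf, hxf⟩ := hx
  obtain ⟨C, hC0, hC⟩ := hf.bounded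
  refine ⟨C, hC0, ?_⟩
  have h2 : ∀ᵐ t ∂mu, t ∈ Set.Icc (0:ℝ) 1 := ae_restrict_mem measurableSet_Icc
  filter_upwards [hxf, h2] with t h1 h2
  rw [h1]
  exact hC t h2

instance : IsProbabilityMeasure mu := ⟨by simp [mu]⟩

/-- step functions are dense -/
lemma V_dense (x : H) (ε : ℝ) (hε : 0 < ε) : ∃ a, ∃ y ∈ V a, ‖x - y‖ ≤ ε := by
  obtain ⟨g, _, hg, hgc, hgm⟩ := (Lp.memLp x).exists_hasCompactSupport_eLpNorm_sub_le
    (p := 2) (by norm_num) (ε := ENNReal.ofReal (ε/2)) (by simp; linarith)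
  have huc := isCompact_Icc.uniformContinuousOn_of_continuous (s := Set.Icc (0:ℝ) 1) hgc.continuousOn
  rw [Metric.uniformContinuousOn_iff] at huc
  obtain ⟨δ, hδ, hd⟩ := huc (ε/2) (by linarith)
  obtain ⟨a, ha⟩ := exists_pow_lt_of_lt_one hδ (show (1/2:ℝ) < 1 by norm_num)
  have hs : IsStep a (fun t => g ((D a t : ℝ) / 2 ^ a)) := ⟨fun i => g ((i:ℝ) / 2 ^ a), fun _ => rfl⟩
  refine ⟨a, toH hs, toH_mem hs, ?_⟩
  have hpos : (0:ℝ) < 2 ^ a := by positivity
  have h1 : ‖x - hgm.toLp g‖ ≤ ε/2 := by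
    rw [Lp.norm_def]
    have : eLpNorm (⇑(x - hgm.toLp g)) 2 mu = eLpNorm (⇑x - g) 2 mu := by
      apply eLpNorm_congr_ae
      filter_upwards [Lp.coeFn_sub x (hgm.toLp g), hgm.coeFn_toLp] with t h1 h2
      rw [h1, Pi.sub_apply, Pi.sub_apply, h2]
    rw [this]
    apply ENNReal.toReal_le_of_le_ofReal (by linarith) hg
  have h2 : ‖hgm.toLp g - toH hs‖ ≤ ε/2 := by
    have h3 : ∀ᵐ t ∂mu, ‖(hgm.toLp g - toH hs : H) t‖ ≤ ε/2 := by
      have h2 : ∀ᵐ t ∂mu, t ∈ Set.Icc (0:ℝ) 1 := ae_restrict_mem measurableSet_Icc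
      filter_upwards [Lp.coeFn_sub (hgm.toLp g) (toH hs), hgm.coeFn_toLp, toH_ae hs, h2]
        with t e1 e2 e3 ht
      rw [e1, Pi.sub_apply, e2, e3]
      rw [← dist_eq_norm]
      have ht0 : 0 ≤ (2:ℝ) ^ a * t := by have := ht.1; positivity
      have f1 : (D a t : ℝ) ≤ 2 ^ a * t := Nat.floor_le ht0
      have f2 : (2:ℝ) ^ a * t < D a t + 1 := Nat.lt_floor_add_one _
      have f3 : (D a t : ℝ) / 2 ^ a ≤ t := by
        rw [div_le_iff₀ hpos]; linarith
      have f4 : t < (D a t : ℝ) / 2 ^ a + 1 / 2 ^ a := by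
        rw [← add_div, lt_div_iff₀ hpos]; linarith
      have f5 : (0:ℝ) ≤ (D a t : ℝ) / 2 ^ a := by positivity
      have f6 : 1 / (2:ℝ) ^ a < δ := by
        rw [one_div_pow] at ha; exact ha
      apply (hd t ht _ ⟨f5, f3.trans ht.2⟩ _).le
      rw [Real.dist_eq, abs_lt]
      constructor <;> linarith
    have := Lp.norm_le_of_ae_bound (p := 2) (μ := mu) (by linarith : (0:ℝ) ≤ ε/2) h3
    simpa [measureUnivNNReal] using this
  calc ‖x - toH hs‖ = ‖(x - hgm.toLp g) + (hgm.toLp g - toH hs)‖ := by congr 1; abel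
    _ ≤ ‖x - hgm.toLp g‖ + ‖hgm.toLp g - toH hs‖ := norm_add_le _ _
    _ ≤ ε := by linarith

end Pool.Agent.Helper187.StepSpace
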