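import Mathlib
import Pool.Agent.Helper187.Digits
import Pool.Agent.Helper187.StepSpace
import Pool.Agent.Helper187.Gadget

set_option autoImplicit false

namespace Pool.Agent.Helper187.GadgetH

open Finset MeasureTheory Pool.Agent.Helper187.Digits Pool.Agent.Helper187.StepSpace
open Pool.Agent.Helper187.Gadget
open scoped MatrixOrder ComplexOrder

/-- indicator of the small set -/
noncomputable def zE (a s : ℕ) (t : ℝ) : ℝ := if D (a+s) t % 2 ^ s = 0 then 1 else 0

lemma zE_step (a s : ℕ) : IsStep (a+s) (zE a s) :=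
  ⟨fun i => if i % 2 ^ s = 0 then 1 else 0, fun _ => rfl⟩

lemma zE_sq (a s : ℕ) (t : ℝ) : zE a s t * zE a s t = zE a s t := by
  unfold zE; split_ifs <;> simp

noncomputable def beta (n : ℕ) : ℝ := Real.sqrt (2 ^ n / (4 * n))

lemma beta_sq (n : ℕ) : beta n * beta n = 2 ^ n / (4 * n) := Real.mul_self_sqrt (by positivity)

/-- main part -/
noncomputable def gf (a s n k : ℕ) (t : ℝ) : ℝ :=
  (1 - zE a s t) * (beta n * Q n (D (a+s+n) t % 2 ^ n) k)

/-- correction part -/
noncomputable def bf (a s n i : ℕ) (t : ℝ) : ℝ :=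
  (zE a s t * Real.sqrt (2 ^ s)) * (if D (a+s+n+i+1) t % 2 ^ 1 = 0 then 1 else -1)

lemma one_sub_step (a s : ℕ) : IsStep (a+s) (fun t => 1 - zE a s t) :=
  ⟨fun i => 1 - if i % 2 ^ s = 0 then 1 else 0, fun _ => rfl⟩

lemma gf_step (a s n k : ℕ) : IsStep (a+s+n) (gf a s n k) := by
  have h1 := (one_sub_step a s).mono (show a+s ≤ a+s+n by omega)
  have h2 : IsStep (a+s+n) (fun t => beta n * Q n (D (a+s+n) t % 2 ^ n) k) :=
    ⟨fun i => beta n * Q n (i % 2 ^ n) k, fun _ => rfl⟩
  exact h1.mul h2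

lemma bf_step (a s n i : ℕ) : IsStep (a+s+n+i+1) (bf a s n i) := by
  have h1 : IsStep (a+s+n+i+1) (fun t => zE a s t * Real.sqrt (2 ^ s)) :=
    ((zE_step a s).mono (show a+s ≤ a+s+n+i+1 by omega)).mul (IsStep.const _ _)
  have h2 : IsStep (a+s+n+i+1) (fun t => if D (a+s+n+i+1) t % 2 ^ 1 = 0 then (1:ℝ) else -1) :=
    ⟨fun i => if i % 2 ^ 1 = 0 then 1 else -1, fun _ => rfl⟩
  exact h1.mul h2

lemma int_zE (a s : ℕ) : ∫ t, zE a s t ∂mu = 1 / 2 ^ s := by
  have h1 := integral_mul_digits (IsStep.const a 1) s (fun i => if i = 0 then 1 else 0)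
  simp only [one_mul] at h1
  have h2 : ∑ l ∈ range (2 ^ s), (if l = 0 then (1:ℝ) else 0) = 1 := by
    rw [sum_ite_eq']
    simp
  rw [h2, Digits.integral_one, one_mul] at h1
  exact h1

lemma int_one_sub (a s : ℕ) : ∫ t, (1 - zE a s t) ∂mu = 1 - 1 / 2 ^ s := by
  rw [integral_sub (integrable_const _) (zE_step a s).integrable, int_zE, Digits.integral_one]

lemma int_u_gf {a s n k : ℕ} (hk : k < 2 ^ n) {u : ℝ → ℝ} (hu : IsStep (a+s) u) :
    ∫ t, u t * gf a s n k t ∂mu = 0 := by
  have hX : IsStep (a+s) (fun t => u t * (1 - zE a s t)) := hu.mul (one_sub_step a s)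
  have h1 := integral_mul_digits hX n (fun l => beta n * Q n l k)
  rw [← mul_sum, Q_mean n k hk] at h1
  simp only [mul_zero, zero_div] at h1
  rw [← h1]
  congr 1
  funext t
  unfold gf
  ring

lemma int_gf_gf (a s n j k : ℕ) :
    ∫ t, gf a s n j t * gf a s n k t ∂mu =
      (1 - 1 / 2 ^ s) * ((∑ l ∈ range (2 ^ n), Q n l j * Q n l k) / (4 * n)) := by
  have h1 := integral_mul_digits (one_sub_step a s) n
    (fun l => (beta n * Q n l j) * (beta n * Q n l k))
  rw [int_one_sub] at h1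
  have h2 : ∑ l ∈ range (2 ^ n), (beta n * Q n l j) * (beta n * Q n l k) =
      2 ^ n / (4 * n) * ∑ l ∈ range (2 ^ n), Q n l j * Q n l k := by
    rw [mul_sum, ← beta_sq]
    apply sum_congr rfl
    intro l _
    ring
  rw [h2] at h1
  have h3 : (2:ℝ) ^ n / (4 * n) * (∑ l ∈ range (2 ^ n), Q n l j * Q n l k) / 2 ^ n =
      (∑ l ∈ range (2 ^ n), Q n l j * Q n l k) / (4 * n) := by
    have : (0:ℝ) < 2 ^ n := by positivity
    field_simp
  rw [h3] at h1
  rw [← h1]
  congr 1
  funext t
  unfold gf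
  have : (1 - zE a s t) * (1 - zE a s t) = 1 - zE a s t := by
    have := zE_sq a s t
    linear_combination this
  calc _ = ((1 - zE a s t) * (1 - zE a s t)) * ((beta n * Q n (D (a + s + n) t % 2 ^ n) j) *
        (beta n * Q n (D (a + s + n) t % 2 ^ n) k)) := by ring
    _ = _ := by rw [this]

lemma int_u_bf {a s n i : ℕ} {u : ℝ → ℝ} (hu : IsStep (a+s+n+i) u) :
    ∫ t, u t * bf a s n i t ∂mu = 0 := by
  have hX : IsStep (a+s+n+i) (fun t => u t * (zE a s t * Real.sqrt (2 ^ s))) :=
    hu.mul (((zE_step a s).mono (show a+s ≤ a+s+n+i by omega)).mul (IsStep.const _ _))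
  have h1 := integral_mul_digits hX 1 (fun l => if l = 0 then 1 else -1)
  have h2 : ∑ l ∈ range (2 ^ 1), (if l = 0 then (1:ℝ) else -1) = 0 := by
    simp [sum_range_succ]
  rw [h2] at h1
  simp only [zero_div, mul_zero] at h1
  rw [← h1]
  congr 1
  funext t
  unfold bf
  ring

lemma int_bf_self (a s n i : ℕ) : ∫ t, bf a s n i t * bf a s n i t ∂mu = 1 := by
  have h1 : ∀ t, bf a s n i t * bf a s n i t = 2 ^ s * zE a s t := by
    intro t
    unfold bf
    have e1 := zE_sq a s t
    have e2 : Real.sqrt (2 ^ s) * Real.sqrt (2 ^ s) = 2 ^ s := Real.mul_self_sqrt (by positivity)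
    split_ifs
    · calc _ = (zE a s t * zE a s t) * (Real.sqrt (2 ^ s) * Real.sqrt (2 ^ s)) := by ring
        _ = _ := by rw [e1, e2]; ring
    · calc _ = (zE a s t * zE a s t) * (Real.sqrt (2 ^ s) * Real.sqrt (2 ^ s)) := by ring
        _ = _ := by rw [e1, e2]; ring
  simp_rw [h1]
  rw [integral_const_mul, int_zE]
  have : (0:ℝ) < 2 ^ s := by positivity
  field_simp

/-- existence of the correcting coefficients -/
lemma exists_R (s n : ℕ) (hn : 0 < n) : ∃ R : ℕ → ℕ → ℝ, ∀ j < 2 ^ n, ∀ k < 2 ^ n,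
    1 / (4 * 2 ^ n) + (1 - 1 / 2 ^ s) * ((∑ l ∈ range (2 ^ n), Q n l j * Q n l k) / (4 * n)) +
      ∑ i ∈ range (2 ^ n), R i j * R i k = if j = k then 1 else 0 := by
  have hn' : (0:ℝ) < n := by exact_mod_cast hn
  set q : ℝ := 1 - 1 / 2 ^ s with hq
  have hq0 : 0 ≤ q := by
    have : 1 / (2:ℝ) ^ s ≤ 1 := by
      rw [div_le_one (by positivity)]
      exact one_le_pow₀ (by norm_num)
    linarith
  have hq1 : q ≤ 1 := by
    have : (0:ℝ) ≤ 1 / (2:ℝ) ^ s := by positivity
    linarith
  obtain ⟨M, hMa⟩ : ∃ M : Matrix (Fin (2 ^ n)) (Fin (2 ^ n)) ℝ, ∀ j k, M j k =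
    (if j = k then (1:ℝ) else 0) - 1 / (4 * 2 ^ n) -
      q * ((∑ l ∈ range (2 ^ n), Q n l j * Q n l k) / (4 * n)) := ⟨Matrix.of (fun j k => _), fun j k => rfl⟩
  have hpsd : M.PosSemidef := by
    rw [Matrix.posSemidef_iff_dotProduct_mulVec]
    constructor
    · ext j k
      rw [Matrix.conjTranspose_apply, star_trivial, hMa, hMa]
      have e1 : (if k = j then (1:ℝ) else 0) = if j = k then 1 else 0 := by
        split_ifs with h1 h2 h2 <;> first | rfl | (exfalso; exact h2 h1.symm) | (exfalso; exact h1 h2.symm)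
      rw [e1]
      congr 4
      funext l
      ring
    · intro x
      set c : ℕ → ℝ := fun k => if h : k < 2 ^ n then x ⟨k, h⟩ else 0 with hc
      have hsum : ∀ F : ℕ → ℝ, ∑ k : Fin (2 ^ n), F k = ∑ k ∈ range (2 ^ n), F k := by
        intro F
        rw [Finset.sum_range]
      have hxc : ∀ k : Fin (2 ^ n), x k = c k := by
        intro k
        simp only [hc, k.2, dif_pos]
      have h1 : star x ⬝ᵥ M.mulVec x = ∑ k ∈ range (2 ^ n), c k ^ 2 -
          (∑ k ∈ range (2 ^ n), c k) ^ 2 / (4 * 2 ^ n) -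
          q * ((∑ l ∈ range (2 ^ n), (A n c l) ^ 2) / (4 * n)) := by
        have e0 : star x ⬝ᵥ M.mulVec x = ∑ j : Fin (2 ^ n), ∑ k : Fin (2 ^ n),
            (c j * c k * (if j = k then (1:ℝ) else 0) - c j * c k * (1 / (4 * 2 ^ n)) -
            c j * c k * (q * ((∑ l ∈ range (2 ^ n), Q n l j * Q n l k) / (4 * n)))) := by
          simp only [dotProduct, Matrix.mulVec, star_trivial, mul_sum, hMa]
          apply sum_congr rfl
          intro j _
          apply sum_congr rfl
          intro k _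
          rw [hxc, hxc]
          ring
        have e1 : ∑ j : Fin (2 ^ n), ∑ k : Fin (2 ^ n), c j * c k * (if j = k then (1:ℝ) else 0) =
            ∑ k ∈ range (2 ^ n), c k ^ 2 := by
          rw [← hsum]
          apply sum_congr rfl
          intro j _
          simp [sq]
        have e2 : ∑ j : Fin (2 ^ n), ∑ k : Fin (2 ^ n), c j * c k * (1 / (4 * 2 ^ n)) =
            (∑ k ∈ range (2 ^ n), c k) ^ 2 / (4 * 2 ^ n) := by
          rw [← hsum, sq, sum_mul_sum, sum_div]
          apply sum_congr rfl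
          intro j _
          rw [sum_div]
          apply sum_congr rfl
          intro k _
          ring
        have e3 : ∑ j : Fin (2 ^ n), ∑ k : Fin (2 ^ n),
            c j * c k * (q * ((∑ l ∈ range (2 ^ n), Q n l j * Q n l k) / (4 * n))) =
            q * ((∑ l ∈ range (2 ^ n), (A n c l) ^ 2) / (4 * n)) := by
          have f1 : ∀ l, (A n c l) ^ 2 = ∑ j : Fin (2 ^ n), ∑ k : Fin (2 ^ n),
              c j * c k * (Q n l j * Q n l k) := by
            intro l
            unfold A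
            rw [← hsum, sq, sum_mul_sum]
            apply sum_congr rfl
            intro j _
            apply sum_congr rfl
            intro k _
            ring
          simp_rw [f1]
          rw [sum_comm (s := range (2 ^ n)), sum_div, mul_sum]
          apply sum_congr rfl
          intro j _
          rw [sum_comm (s := range (2 ^ n)), sum_div, mul_sum]
          apply sum_congr rfl
          intro k _
          rw [← mul_sum]
          ring
        rw [e0]
        simp only [sum_sub_distrib]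
        rw [e1, e2, e3]
      rw [h1]
      have hen := energy n c
      have hcs : (∑ k ∈ range (2 ^ n), c k) ^ 2 ≤ 2 ^ n * ∑ k ∈ range (2 ^ n), c k ^ 2 := by
        have := sq_sum_le_card_mul_sum_sq (s := range (2 ^ n)) (f := c)
        rw [card_range] at this
        push_cast at this
        exact this
      set T : ℝ := ∑ k ∈ range (2 ^ n), c k ^ 2 with hT
      have hT0 : 0 ≤ T := sum_nonneg (fun _ _ => sq_nonneg _)
      have g1 : (∑ k ∈ range (2 ^ n), c k) ^ 2 / (4 * 2 ^ n) ≤ T / 4 := by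
        rw [div_le_div_iff₀ (by positivity) (by norm_num)]
        linarith
      have g2 : (∑ l ∈ range (2 ^ n), (A n c l) ^ 2) / (4 * n) ≤ T / 4 := by
        rw [div_le_div_iff₀ (by positivity) (by norm_num)]
        linarith
      have g3 : 0 ≤ (∑ l ∈ range (2 ^ n), (A n c l) ^ 2) / (4 * n) :=
        div_nonneg (sum_nonneg (fun _ _ => sq_nonneg _)) (by positivity)
      have g4 : q * ((∑ l ∈ range (2 ^ n), (A n c l) ^ 2) / (4 * n)) ≤ T / 4 := by
        calc _ ≤ 1 * ((∑ l ∈ range (2 ^ n), (A n c l) ^ 2) / (4 * n)) :=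
              mul_le_mul_of_nonneg_right hq1 g3
          _ ≤ _ := by linarith
      linarith
  obtain ⟨B, hB⟩ := CStarAlgebra.nonneg_iff_eq_star_mul_self.mp hpsd.nonneg
  rw [Matrix.star_eq_conjTranspose] at hB
  refine ⟨fun i k => if h : i < 2 ^ n ∧ k < 2 ^ n then B ⟨i, h.1⟩ ⟨k, h.2⟩ else 0, ?_⟩
  intro j hj k hk
  have h1 : M ⟨j, hj⟩ ⟨k, hk⟩ = ∑ i : Fin (2 ^ n), B i ⟨j, hj⟩ * B i ⟨k, hk⟩ := by
    conv_lhs => rw [hB]
    simp only [Matrix.mul_apply, Matrix.conjTranspose_apply, star_trivial]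
  have h2 : ∑ i ∈ range (2 ^ n), (if h : i < 2 ^ n ∧ j < 2 ^ n then B ⟨i, h.1⟩ ⟨j, h.2⟩ else 0) *
      (if h : i < 2 ^ n ∧ k < 2 ^ n then B ⟨i, h.1⟩ ⟨k, h.2⟩ else 0) =
      ∑ i : Fin (2 ^ n), B i ⟨j, hj⟩ * B i ⟨k, hk⟩ := by
    rw [Finset.sum_range]
    apply sum_congr rfl
    intro i _
    rw [dif_pos ⟨i.2, hj⟩, dif_pos ⟨i.2, hk⟩]
  rw [h2, ← h1, hMa]
  simp only [Fin.mk.injEq]
  ring

noncomputable def al (n : ℕ) : ℝ := 1 / (2 * Real.sqrt (2 ^ n))

lemma al_pos (n : ℕ) : 0 < al n := by unfold al; positivity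

lemma al_sq (n : ℕ) : al n * al n = 1 / (4 * 2 ^ n) := by
  unfold al
  have : Real.sqrt (2 ^ n) * Real.sqrt (2 ^ n) = 2 ^ n := Real.mul_self_sqrt (by positivity)
  rw [div_mul_div_comm, one_mul]
  congr 1
  linear_combination 4 * this

lemma al_beta (n : ℕ) (hn : 0 < n) : al n * beta n = 1 / (4 * Real.sqrt n) := by
  have hn' : (0:ℝ) < n := by exact_mod_cast hn
  unfold al beta
  rw [Real.sqrt_div' _ (by positivity), Real.sqrt_mul (by norm_num)]
  have h4 : Real.sqrt 4 = 2 := by
    rw [show (4:ℝ) = 2 ^ 2 by norm_num]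
    exact Real.sqrt_sq (by norm_num)
  rw [h4]
  have : 0 < Real.sqrt (2 ^ n) := Real.sqrt_pos.mpr (by positivity)
  have : 0 < Real.sqrt n := Real.sqrt_pos.mpr hn'
  field_simp
  norm_num

lemma measure_zero_digits (a s : ℕ) :
    mu {t | D (a+s) t % 2 ^ s = 0} = ENNReal.ofReal (1 / 2 ^ s) := by
  have hm : MeasurableSet {t | D (a+s) t % 2 ^ s = 0} :=
    (measurableSet_eq_fun ((measurable_of_countable (fun i : ℕ => i % 2 ^ s)).comp (D_meas (a+s)))
      measurable_const)
  have h1 : ∫ t, zE a s t ∂mu = mu.real {t | D (a+s) t % 2 ^ s = 0} := by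
    rw [← integral_indicator_one hm]
    congr 1
    funext t
    simp only [zE, Set.indicator, Set.mem_ofPred_eq, Pi.one_apply]
  rw [int_zE] at h1
  rw [h1, ofReal_measureReal]

lemma measure_bad (a s n : ℕ) (hn : 0 < n) :
    mu {t | |S n (D (a+s+n) t % 2 ^ n)| < (n:ℝ)/8} ≤ ENNReal.ofReal (64 / n) := by
  classical
  have hm : MeasurableSet {t | |S n (D (a+s+n) t % 2 ^ n)| < (n:ℝ)/8} := by
    apply measurableSet_lt _ measurable_const
    exact ((measurable_of_countable (fun i : ℕ => |S n (i % 2 ^ n)|)).comp (D_meas (a+s+n)))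
  have h1 := integral_mul_digits (IsStep.const (a+s) 1) n (fun l => if |S n l| < (n:ℝ)/8 then 1 else 0)
  simp only [one_mul] at h1
  rw [Digits.integral_one, one_mul] at h1
  have h2 : ∫ t, (if |S n (D (a+s+n) t % 2 ^ n)| < (n:ℝ)/8 then (1:ℝ) else 0) ∂mu =
      mu.real {t | |S n (D (a+s+n) t % 2 ^ n)| < (n:ℝ)/8} := by
    rw [← integral_indicator_one hm]
    congr 1
  rw [h2] at h1
  have h3 : ∑ l ∈ range (2 ^ n), (if |S n l| < (n:ℝ)/8 then (1:ℝ) else 0) =
      (((range (2 ^ n)).filter (fun l => |S n l| < (n:ℝ) / 8)).card : ℝ) := by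
    rw [← sum_filter]
    simp
  rw [h3] at h1
  have h4 := count_bad n hn
  have hp : (0:ℝ) < 2 ^ n := by positivity
  rw [← ofReal_measureReal (μ := mu)]
  apply ENNReal.ofReal_le_ofReal
  rw [h1, div_le_iff₀ hp]
  linarith

lemma inner_V_G {a s n k : ℕ} (hk : k < 2 ^ n) {x : H} (hx : x ∈ V (a+s)) :
    inner ℝ x (toH (gf_step a s n k)) = 0 := by
  obtain ⟨f, hf, hxf⟩ := hx
  rw [inner_of_ae hxf (toH_ae _)]
  exact int_u_gf hk hf

lemma inner_V_B {a s n i : ℕ} {x : H} (hx : x ∈ V (a+s+n+i)) :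
    inner ℝ x (toH (bf_step a s n i)) = 0 := by
  obtain ⟨f, hf, hxf⟩ := hx
  rw [inner_of_ae hxf (toH_ae _)]
  exact int_u_bf hf

lemma inner_G_G (a s n j k : ℕ) : inner ℝ (toH (gf_step a s n j)) (toH (gf_step a s n k)) =
    (1 - 1 / 2 ^ s) * ((∑ l ∈ range (2 ^ n), Q n l j * Q n l k) / (4 * n)) := by
  rw [inner_of_ae (toH_ae _) (toH_ae _)]
  exact int_gf_gf a s n j k

lemma inner_B_B (a s n i j : ℕ) : inner ℝ (toH (bf_step a s n i)) (toH (bf_step a s n j)) =
    if i = j then (1:ℝ) else 0 := by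
  rcases lt_trichotomy i j with h | h | h
  · rw [if_neg (by omega)]
    apply inner_V_B
    exact V_mono (by omega) (toH_mem (bf_step a s n i))
  · subst h
    rw [if_pos rfl, inner_of_ae (toH_ae _) (toH_ae _)]
    exact int_bf_self a s n i
  · rw [if_neg (by omega), real_inner_comm]
    apply inner_V_B
    exact V_mono (by omega) (toH_mem (bf_step a s n j))

theorem gadget (a : ℕ) (e : H) (he : e ∈ V a) (hn1 : inner ℝ e e = (1:ℝ)) (C : ℝ)
    (hC : ∀ᵐ t ∂mu, |e t| ≤ C) (s n : ℕ) (hn : 0 < n) :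
    ∃ ψ : ℕ → H, (∀ k < 2 ^ n, ψ k ∈ V (a+s+n+2^n)) ∧
      (∀ j < 2 ^ n, ∀ k < 2 ^ n, inner ℝ (ψ j) (ψ k) = if j = k then (1:ℝ) else 0) ∧
      (∀ x ∈ V a, ∀ k < 2 ^ n, inner ℝ x (ψ k) = al n * inner ℝ x e) ∧
      (mu {t | ∀ l ≤ 2 ^ n, |al n * ∑ k ∈ range l, ψ k t| < Real.sqrt n / 32 - C / 4} ≤
        ENNReal.ofReal (1 / 2 ^ s + 64 / n)) := by
  obtain ⟨R, hR⟩ := exists_R s n hn
  set G : ℕ → H := fun k => toH (gf_step a s n k) with hG
  set B : ℕ → H := fun i => toH (bf_step a s n i) with hB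
  have hGm : ∀ k, G k ∈ V (a+s+n) := fun k => toH_mem _
  have hBm : ∀ i, B i ∈ V (a+s+n+i+1) := fun i => toH_mem _
  set T : ℕ → H := fun k => ∑ i ∈ range (2 ^ n), R i k • B i with hT
  have hGG : ∀ j k, inner ℝ (G j) (G k) =
    (1 - 1 / 2 ^ s) * ((∑ l ∈ range (2 ^ n), Q n l j * Q n l k) / (4 * n)) := inner_G_G a s n
  have hxG : ∀ x ∈ V (a+s), ∀ k < 2 ^ n, inner ℝ x (G k) = 0 := fun x hx k hk => inner_V_G hk hx
  have hxT : ∀ x ∈ V (a+s+n), ∀ k, inner ℝ x (T k) = 0 := by
    intro x hx k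
    rw [hT]
    simp only
    rw [inner_sum]
    apply sum_eq_zero
    intro i _
    rw [inner_smul_right, inner_V_B (V_mono (by omega) hx), mul_zero]
  have hTT : ∀ j k, inner ℝ (T j) (T k) = ∑ i ∈ range (2 ^ n), R i j * R i k := by
    intro j k
    rw [hT]
    simp only
    rw [sum_inner]
    apply sum_congr rfl
    intro i hi
    rw [inner_sum]
    simp only [inner_smul_left, inner_smul_right, hB, inner_B_B]
    rw [sum_eq_single i]
    · simp; ring
    · intro i' _ hne
      rw [if_neg (Ne.symm hne)]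
      ring
    · intro h; exact absurd hi h
  have hea : e ∈ V (a+s) := V_mono (by omega) he
  have hea' : e ∈ V (a+s+n) := V_mono (by omega) he
  refine ⟨fun k => al n • e + G k + T k, ?_, ?_, ?_, ?_⟩
  · intro k _
    apply Submodule.add_mem
    · apply Submodule.add_mem
      · apply Submodule.smul_mem
        exact V_mono (by omega) he
      · exact V_mono (by omega) (hGm k)
    · apply Submodule.sum_mem
      intro i hi
      rw [mem_range] at hi
      apply Submodule.smul_mem
      exact V_mono (by omega) (hBm i)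
  · intro j hj k hk
    simp only [inner_add_left, inner_add_right, inner_smul_left, inner_smul_right]
    have c1 : inner ℝ (G j) e = 0 := by rw [real_inner_comm]; exact hxG e hea j hj
    have c2 : inner ℝ (T j) e = 0 := by rw [real_inner_comm]; exact hxT e hea' j
    have c3 : inner ℝ (T j) (G k) = 0 := by rw [real_inner_comm]; exact hxT _ (hGm k) j
    rw [hxG e hea k hk, hxT e hea' k, c1, c2, c3, hxT _ (hGm j) k, hn1, hGG, hTT]
    have h1 := hR j hj k hk
    rw [← al_sq] at h1
    simp only [conj_trivial]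
    linarith
  · intro x hx k hk
    rw [inner_add_right, inner_add_right, inner_smul_right, hxG x (V_mono (by omega) hx) k hk,
      hxT x (V_mono (by omega) hx) k]
    ring
  · -- pointwise estimate
    have hae : ∀ᵐ t ∂mu, ∀ k, (al n • e + G k + T k : H) t =
        al n * e t + gf a s n k t + ∑ i ∈ range (2 ^ n), R i k * bf a s n i t := by
      rw [ae_all_iff]
      intro k
      have hTk : (T k : ℝ → ℝ) =ᵐ[mu] fun t => ∑ i ∈ range (2 ^ n), R i k * bf a s n i t := by
        have h1 : ∀ᵐ t ∂mu, ∀ i, (R i k • B i : H) t = R i k * bf a s n i t := by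
          rw [ae_all_iff]
          intro i
          filter_upwards [Lp.coeFn_smul (R i k) (B i), toH_ae (bf_step a s n i)] with t h1 h2
          rw [h1, Pi.smul_apply, smul_eq_mul]
          rw [hB]
          simp only
          rw [h2]
        have h2 : (T k : ℝ → ℝ) =ᵐ[mu] fun t => ∑ i ∈ range (2 ^ n), (R i k • B i : H) t := by
          have := Lp.coeFn_finsetSum (range (2 ^ n)) (fun i => R i k • B i)
          filter_upwards [this] with t ht
          rw [hT]
          simp only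
          rw [ht]
          simp
        filter_upwards [h1, h2] with t h1 h2
        rw [h2]
        exact sum_congr rfl (fun i _ => h1 i)
      filter_upwards [hTk, Lp.coeFn_add (al n • e + G k) (T k), Lp.coeFn_add (al n • e) (G k),
        Lp.coeFn_smul (al n) e, toH_ae (gf_step a s n k)] with t h1 h2 h3 h4 h5
      rw [h2, Pi.add_apply, h3, Pi.add_apply, h4, Pi.smul_apply, h1, smul_eq_mul]
      congr 2
    have hsub : mu {t | ∀ l ≤ 2 ^ n, |al n * ∑ k ∈ range l, (al n • e + G k + T k : H) t| <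
        Real.sqrt n / 32 - C / 4} ≤ mu ({t | D (a+s) t % 2 ^ s = 0} ∪
          {t | |S n (D (a+s+n) t % 2 ^ n)| < (n:ℝ)/8}) := by
      apply measure_mono_ae
      filter_upwards [hae, hC] with t h1 h2 h3
      change t ∈ ({t | D (a+s) t % 2 ^ s = 0} ∪
          {t | |S n (D (a+s+n) t % 2 ^ n)| < (n:ℝ)/8} : Set ℝ)
      by_contra hcon
      rw [Set.mem_union, not_or] at hcon
      obtain ⟨hz, hS⟩ := hcon
      simp only [Set.mem_ofPred_eq, not_lt] at hz hS
      change ∀ l ≤ 2 ^ n, _ at h3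
      set l : ℕ := D (a+s+n) t % 2 ^ n with hl
      have hlt : l < 2 ^ n := Nat.mod_lt _ (by positivity)
      have h4 := h3 (l+1) (by omega)
      have hz0 : zE a s t = 0 := by unfold zE; rw [if_neg hz]
      have h5 : ∀ k, (al n • e + G k + T k : H) t = al n * e t + beta n * Q n l k := by
        intro k
        rw [h1 k]
        have : ∑ i ∈ range (2 ^ n), R i k * bf a s n i t = 0 := by
          apply sum_eq_zero
          intro i _
          unfold bf
          rw [hz0]; ring
        rw [this]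
        unfold gf
        rw [hz0]; ring
      simp only [h5] at h4
      have h6 : al n * ∑ k ∈ range (l+1), (al n * e t + beta n * Q n l k) =
          (al n * al n) * ((l+1 : ℕ):ℝ) * e t + (al n * beta n) * S n l := by
        rw [sum_add_distrib, ← mul_sum (range (l+1)) (fun k => Q n l k) (beta n)]
        simp only [sum_const, card_range, nsmul_eq_mul]
        unfold S; ring
      rw [h6, al_sq, al_beta n hn] at h4
      have hn' : (0:ℝ) < n := by exact_mod_cast hn
      have h7 : Real.sqrt n / 32 ≤ |1 / (4 * Real.sqrt n) * S n l| := by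
        rw [abs_mul, abs_of_pos (by positivity)]
        have hs : 0 < Real.sqrt n := Real.sqrt_pos.mpr hn'
        have hss : Real.sqrt n * Real.sqrt n = n := Real.mul_self_sqrt hn'.le
        rw [div_mul_eq_mul_div, one_mul, div_le_div_iff₀ (by norm_num) (by positivity)]
        nlinarith
      have h8 : |1 / (4 * 2 ^ n) * ((l+1 : ℕ):ℝ) * e t| ≤ C / 4 := by
        rw [abs_mul, abs_of_nonneg (by positivity)]
        have h9 : 1 / (4 * (2:ℝ) ^ n) * ((l+1 : ℕ):ℝ) ≤ 1/4 := by
          rw [div_mul_eq_mul_div, one_mul, div_le_div_iff₀ (by positivity) (by norm_num)]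
          have : ((l+1 : ℕ):ℝ) ≤ 2 ^ n := by exact_mod_cast hlt
          linarith
        have hC0 : 0 ≤ C := (abs_nonneg _).trans h2
        calc _ ≤ 1/4 * C := mul_le_mul h9 h2 (abs_nonneg _) (by norm_num)
          _ = _ := by ring
      have h10 := abs_sub_abs_le_abs_sub (1 / (4 * Real.sqrt n) * S n l)
        (-(1 / (4 * 2 ^ n) * ((l+1 : ℕ):ℝ) * e t))
      rw [abs_neg, sub_neg_eq_add, add_comm (1 / (4 * Real.sqrt n) * S n l)] at h10
      linarith
    refine hsub.trans ((measure_union_le _ _).trans ?_)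
    rw [measure_zero_digits, ENNReal.ofReal_add (by positivity) (by positivity)]
    gcongr
    exact measure_bad a s n hn

end Pool.Agent.Helper187.GadgetH
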