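import Mathlib
import Pool.Agent.Helper187.Digits
import Pool.Agent.Helper187.StepSpace
import Pool.Agent.Helper187.GadgetH

set_option autoImplicit false

namespace Pool.Agent.Helper187.Block

open Finset MeasureTheory Pool.Agent.Helper187.Digits Pool.Agent.Helper187.StepSpace
open Pool.Agent.Helper187.GadgetH

/-- orthogonal projection onto step functions of level a -/
noncomputable def P (a : ℕ) (x : H) : H := (V a).starProjection x

lemma P_mem (a : ℕ) (x : H) : P a x ∈ V a := Submodule.starProjection_apply_mem _ _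

lemma P_orth (a : ℕ) (x : H) {y : H} (hy : y ∈ V a) : inner ℝ (x - P a x) y = 0 :=
  Submodule.starProjection_inner_eq_zero x y hy

lemma P_cont (a : ℕ) : Continuous (P a) := by
  unfold P
  exact (V a).starProjection.continuous

lemma P_min (a : ℕ) (x : H) {y : H} (hy : y ∈ V a) : ‖x - P a x‖ ≤ ‖x - y‖ := by
  have h1 : x - y = (x - P a x) + (P a x - y) := by abel
  have h2 : inner ℝ (x - P a x) (P a x - y) = 0 := P_orth a x (Submodule.sub_mem _ (P_mem a x) hy)
  have h3 : ‖x - y‖ * ‖x - y‖ = ‖x - P a x‖ * ‖x - P a x‖ + ‖P a x - y‖ * ‖P a x - y‖ := by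
    rw [h1]
    exact norm_add_sq_eq_norm_sq_add_norm_sq_of_inner_eq_zero _ _ h2
  nlinarith [norm_nonneg (x - P a x), norm_nonneg (x - y), norm_nonneg (P a x - y)]

lemma F1 (F : Set H) (hc : IsCompact F) (a : ℕ) (ε : ℝ) (hε : 0 < ε) :
    ∃ b, a ≤ b ∧ ∀ x ∈ F, ‖x - P b x‖ < ε := by
  obtain ⟨b, hb⟩ := hc.elim_directed_cover (fun b : ℕ => {x : H | ‖x - P b x‖ < ε})
    (fun b => isOpen_lt (by have := P_cont b; fun_prop) continuous_const)
    (by
      intro x _
      rw [Set.mem_iUnion]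
      obtain ⟨b, y, hy, hxy⟩ := V_dense x (ε/2) (by linarith)
      exact ⟨b, lt_of_le_of_lt ((P_min b x hy).trans hxy) (by linarith)⟩)
    (by
      apply directed_of_isDirected_le
      intro i j hij x hx
      exact lt_of_le_of_lt (P_min j x (V_mono hij (P_mem i x))) hx)
  refine ⟨max a b, le_max_left _ _, fun x hx => ?_⟩
  exact lt_of_le_of_lt (P_min _ x (V_mono (le_max_right a b) (P_mem b x))) (hb hx)

lemma F2 (F : Set H) (hc : IsCompact F) (a : ℕ) (hd : ∀ x ∈ F, x ∉ V a) :
    ∃ δ : ℝ, 0 < δ ∧ ∀ x ∈ F, δ ≤ ‖x - P a x‖ := by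
  rcases F.eq_empty_or_nonempty with h | h
  · exact ⟨1, one_pos, by simp [h]⟩
  · obtain ⟨x0, hx0, hmin⟩ := hc.exists_isMinOn h (f := fun x => ‖x - P a x‖)
      (by have := P_cont a; fun_prop)
    refine ⟨‖x0 - P a x0‖, ?_, fun x hx => hmin hx⟩
    rw [norm_pos_iff]
    intro h0
    apply hd x0 hx0
    rw [sub_eq_zero] at h0
    rw [h0]
    exact P_mem a x0

/-- Markov bound for a sum of squares of unit vectors -/
lemma markov (K : ℕ) (g : ℕ → H) (hg : ∀ k < K, inner ℝ (g k) (g k) = (1:ℝ)) (ε : ℝ) (hε : 0 < ε) :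
    mu {t | (K:ℝ) / ε < ∑ k ∈ range K, (g k t) ^ 2} ≤ ENNReal.ofReal ε := by
  have hint : ∀ k, Integrable (fun t => (g k t) ^ 2) mu := fun k =>
    (Lp.memLp (g k)).integrable_sq
  have hI : ∫ t, ∑ k ∈ range K, (g k t) ^ 2 ∂mu = K := by
    rw [integral_finsetSum _ (fun k _ => hint k)]
    have : ∀ k ∈ range K, ∫ t, (g k t) ^ 2 ∂mu = 1 := by
      intro k hk
      have h1 := hg k (mem_range.mp hk)
      rw [inner_eq] at h1
      rw [← h1]
      congr 1
      funext t
      ring
    rw [sum_congr rfl this]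
    simp
  rcases Nat.eq_zero_or_pos K with hK | hK
  · subst hK
    have : {t : ℝ | ((0:ℕ):ℝ) / ε < ∑ k ∈ range 0, (g k t) ^ 2} = ∅ := by
      ext t; simp
    rw [this]; simp
  have hK' : (0:ℝ) < K := by exact_mod_cast hK
  have h2 := mul_meas_ge_le_integral_of_nonneg (μ := mu)
    (f := fun t => ∑ k ∈ range K, (g k t) ^ 2)
    (Filter.Eventually.of_forall (fun t => sum_nonneg (fun _ _ => sq_nonneg _)))
    (integrable_finsetSum _ (fun k _ => hint k)) ((K:ℝ)/ε)
  rw [hI] at h2
  have h3 : mu.real {t | (K:ℝ) / ε ≤ ∑ k ∈ range K, (g k t) ^ 2} ≤ ε := by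
    have h4 : (K:ℝ) / ε * mu.real {t | (K:ℝ) / ε ≤ ∑ k ∈ range K, (g k t) ^ 2} ≤ K := h2
    rw [div_mul_eq_mul_div, div_le_iff₀ hε] at h4
    exact le_of_mul_le_mul_left h4 hK'
  calc mu {t | (K:ℝ) / ε < ∑ k ∈ range K, (g k t) ^ 2}
      ≤ mu {t | (K:ℝ) / ε ≤ ∑ k ∈ range K, (g k t) ^ 2} := by
        apply measure_mono
        intro t ht
        simp only [Set.mem_ofPred_eq] at ht ⊢
        exact ht.le
    _ = ENNReal.ofReal (mu.real {t | (K:ℝ) / ε ≤ ∑ k ∈ range K, (g k t) ^ 2}) :=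
        (ofReal_measureReal).symm
    _ ≤ _ := ENNReal.ofReal_le_ofReal h3

lemma exists_params (C A ε : ℝ) (hε : 0 < ε) :
    ∃ s n : ℕ, 0 < n ∧ 1 / (2:ℝ) ^ s + 64 / n ≤ ε ∧ A ≤ Real.sqrt n / 32 - C / 4 := by
  obtain ⟨s, hs⟩ := exists_pow_lt_of_lt_one (show 0 < ε/2 by linarith) (show (1/2:ℝ) < 1 by norm_num)
  obtain ⟨n1, hn1⟩ := exists_nat_gt (128 / ε)
  obtain ⟨n2, hn2⟩ := exists_nat_gt ((32 * (|A| + |C|)) ^ 2)
  refine ⟨s, max n1 n2 + 1, by omega, ?_, ?_⟩
  · have h1 : 1 / (2:ℝ) ^ s ≤ ε/2 := by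
      rw [one_div_pow] at hs; exact hs.le
    have h2 : 64 / ((max n1 n2 + 1 : ℕ) : ℝ) ≤ ε / 2 := by
      have h3 : (n1:ℝ) ≤ ((max n1 n2 + 1 : ℕ) : ℝ) := by
        have : n1 ≤ max n1 n2 + 1 := (le_max_left _ _).trans (Nat.le_succ _)
        exact_mod_cast this
      have h4 : 128 / ε < ((max n1 n2 + 1 : ℕ) : ℝ) := hn1.trans_le h3
      rw [div_lt_iff₀ hε] at h4
      rw [div_le_div_iff₀ (by positivity) (by norm_num)]
      linarith
    linarith
  · have h3 : (n2:ℝ) ≤ ((max n1 n2 + 1 : ℕ) : ℝ) := by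
      have : n2 ≤ max n1 n2 + 1 := (le_max_right _ _).trans (Nat.le_succ _)
      exact_mod_cast this
    have h5 : 32 * (|A| + |C|) ≤ Real.sqrt ((max n1 n2 + 1 : ℕ) : ℝ) := by
      apply Real.le_sqrt_of_sq_le
      linarith
    have := le_abs_self A
    have := le_abs_self C
    have := abs_nonneg C
    linarith

theorem block (F : Set H) (hc : IsCompact F) (a : ℕ) (hd : ∀ x ∈ F, x ∉ V a) (L ε : ℝ)
    (hL : 0 ≤ L) (hε : 0 < ε) :
    ∃ (a' M : ℕ) (ψ : ℕ → H), a < a' ∧ (∀ k < M, ψ k ∈ V a') ∧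
      (∀ k < M, ∀ x ∈ V a, inner ℝ x (ψ k) = 0) ∧
      (∀ j < M, ∀ k < M, inner ℝ (ψ j) (ψ k) = if j = k then (1:ℝ) else 0) ∧
      ∀ x ∈ F, mu {t | ∀ p q, p ≤ q → q ≤ M →
        |∑ j ∈ Ico p q, inner ℝ x (ψ j) * ψ j t| < L} ≤ ENNReal.ofReal ε := by
  obtain ⟨δ, hδ, hδF⟩ := F2 F hc a hd
  obtain ⟨b, hab, hbF⟩ := F1 F hc a (δ/2) (by linarith)
  set W : Submodule ℝ H := V b ⊓ (V a)ᗮ with hW
  have : FiniteDimensional ℝ W := Submodule.finiteDimensional_inf_left _ _
  set d : ℕ := Module.finrank ℝ W with hdd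
  set e : OrthonormalBasis (Fin d) ℝ W := stdOrthonormalBasis ℝ W with he
  -- the basis as a sequence in H
  set E : ℕ → H := fun i => if h : i < d then (e ⟨i, h⟩ : H) else 0 with hE
  have hEW : ∀ i < d, E i ∈ W := by
    intro i hi
    simp only [hE, dif_pos hi]
    exact (e ⟨i, hi⟩).2
  have hEb : ∀ i < d, E i ∈ V b := fun i hi => (hEW i hi).1
  have hEa : ∀ i < d, ∀ x ∈ V a, inner ℝ x (E i) = 0 := by
    intro i hi x hx
    have := (hEW i hi).2
    rw [SetLike.mem_coe, Submodule.mem_orthogonal] at this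
    exact this x hx
  have hEE : ∀ i < d, ∀ j < d, inner ℝ (E i) (E j) = if i = j then (1:ℝ) else 0 := by
    intro i hi j hj
    simp only [hE, dif_pos hi, dif_pos hj]
    have := (orthonormal_iff_ite.mp e.orthonormal) ⟨i, hi⟩ ⟨j, hj⟩
    rw [Submodule.coe_inner] at this
    rw [this]
    simp only [Fin.mk.injEq]
  -- a large coefficient
  set δ1 : ℝ := δ / (2 * Real.sqrt (d + 1)) with hδ1
  have hδ1pos : 0 < δ1 := by
    have : 0 < Real.sqrt ((d:ℝ) + 1) := Real.sqrt_pos.mpr (by positivity)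
    positivity
  have hcoef : ∀ x ∈ F, ∃ i < d, δ1 ≤ |inner ℝ x (E i)| := by
    intro x hx
    by_contra hcon
    push Not at hcon
    set y : H := P b x - P a x with hy
    have hyW : y ∈ W := by
      refine ⟨Submodule.sub_mem _ (P_mem b x) (V_mono hab (P_mem a x)), ?_⟩
      rw [SetLike.mem_coe, Submodule.mem_orthogonal]
      intro u hu
      have h1 := P_orth a x hu
      have h2 := P_orth b x (V_mono hab hu)
      rw [inner_sub_left] at h1 h2
      rw [hy, inner_sub_right, real_inner_comm, real_inner_comm (P a x)]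
      linarith
    have hy1 : δ / 2 < ‖y‖ := by
      have h1 := hδF x hx
      have h2 := hbF x hx
      have h3 : x - P a x = (x - P b x) + y := by rw [hy]; abel
      have h4 := norm_add_le (x - P b x) y
      rw [← h3] at h4
      linarith
    have hy2 : ‖y‖ ^ 2 = ∑ i ∈ range d, (inner ℝ x (E i)) ^ 2 := by
      have h1 : ‖(⟨y, hyW⟩ : W)‖ ^ 2 = ∑ i : Fin d, ‖inner ℝ (e i) (⟨y, hyW⟩ : W)‖ ^ 2 :=
        (e.sum_sq_norm_inner_right _).symm
      have h2 : ‖(⟨y, hyW⟩ : W)‖ = ‖y‖ := rfl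
      rw [h2] at h1
      rw [h1, Finset.sum_range]
      apply sum_congr rfl
      intro i _
      have h3 : inner ℝ (e i) (⟨y, hyW⟩ : W) = inner ℝ (e i : H) y := rfl
      rw [h3, Real.norm_eq_abs, sq_abs]
      have h4 : E i = (e i : H) := by simp only [hE, dif_pos i.2]
      rw [h4, hy, inner_sub_right]
      have h5 := P_orth b x (hEb i i.2)
      have h6 := hEa i i.2 (P a x) (P_mem a x)
      rw [h4] at h5 h6
      rw [inner_sub_left] at h5
      rw [real_inner_comm (P b x), real_inner_comm (P a x), h6, sub_zero]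
      congr 1
      linarith
    have hy3 : ∑ i ∈ range d, (inner ℝ x (E i)) ^ 2 ≤ d * δ1 ^ 2 := by
      calc _ ≤ ∑ i ∈ range d, δ1 ^ 2 := by
            apply sum_le_sum
            intro i hi
            rw [← sq_abs]
            apply pow_le_pow_left₀ (abs_nonneg _)
            exact (hcon i (mem_range.mp hi)).le
        _ = _ := by simp
    have hy4 : ((d:ℝ) + 1) * δ1 ^ 2 = (δ / 2) ^ 2 := by
      rw [hδ1, div_pow, mul_pow, Real.sq_sqrt (by positivity)]
      have : (0:ℝ) < (d:ℝ) + 1 := by positivity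
      field_simp
    have hy5 : (δ/2) ^ 2 < ‖y‖ ^ 2 := pow_lt_pow_left₀ hy1 (by linarith) (by norm_num)
    rw [hy2, ← hy4] at hy5
    have : 0 ≤ δ1 ^ 2 := sq_nonneg _
    nlinarith
  -- uniform bound for the basis functions
  have hbound : ∀ i : ℕ, ∃ C : ℝ, 0 ≤ C ∧ (i < d → ∀ᵐ t ∂mu, |E i t| ≤ C) := by
    intro i
    by_cases hi : i < d
    · obtain ⟨C, hC0, hC⟩ := V_bounded (hEb i hi)
      exact ⟨C, hC0, fun _ => hC⟩
    · exact ⟨0, le_refl _, fun h => absurd h hi⟩
  choose Cf hCf0 hCf using hbound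
  set C : ℝ := ∑ i ∈ range d, Cf i with hC
  have hCE : ∀ i < d, ∀ᵐ t ∂mu, |E i t| ≤ C := by
    intro i hi
    filter_upwards [hCf i hi] with t ht
    exact ht.trans (single_le_sum (f := Cf) (fun j _ => hCf0 j) (mem_range.mpr hi))
  obtain ⟨s, n, hn, hsn, hA⟩ := exists_params C ((L+1)/δ1) (ε/2) (by linarith)
  set K : ℕ := 2 ^ n with hK
  have hKpos : (0:ℝ) < K := by rw [hK]; positivity
  set τ : ℝ := Real.sqrt ((ε/2) / K) with hτ
  have hτpos : 0 < τ := Real.sqrt_pos.mpr (by positivity)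
  obtain ⟨b', hbb', hb'F⟩ := F1 F hc b τ hτpos
  set w : ℕ := s + n + K with hw
  have hgad : ∀ i : ℕ, ∃ g : ℕ → H, i < d → ((∀ k < K, g k ∈ V (b' + i * w + s + n + K)) ∧
      (∀ j < K, ∀ k < K, inner ℝ (g j) (g k) = if j = k then (1:ℝ) else 0) ∧
      (∀ x ∈ V (b' + i * w), ∀ k < K, inner ℝ x (g k) = al n * inner ℝ x (E i)) ∧
      (mu {t | ∀ l ≤ K, |al n * ∑ k ∈ range l, g k t| < Real.sqrt n / 32 - C / 4} ≤
        ENNReal.ofReal (1 / 2 ^ s + 64 / n))) := by
    intro i
    by_cases hi : i < d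
    · obtain ⟨g, hg⟩ := gadget (b' + i * w) (E i) (V_mono (by nlinarith) (hEb i hi))
        (by rw [hEE i hi i hi, if_pos rfl]) C (hCE i hi) s n hn
      exact ⟨g, fun _ => hg⟩
    · exact ⟨fun _ => 0, fun h => absurd h hi⟩
  choose g hg using hgad
  refine ⟨b' + d * w + 1, d * K, fun j => g (j / K) (j % K), ?_, ?_, ?_, ?_, ?_⟩
  · have : 0 ≤ d * w := Nat.zero_le _
    omega
  · intro j hj
    have hKp : 0 < K := by rw [hK]; positivity
    have hi : j / K < d := Nat.div_lt_of_lt_mul (by rwa [mul_comm] at hj)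
    have hm := (hg (j / K) hi).1 (j % K) (Nat.mod_lt _ hKp)
    apply V_mono _ hm
    have : (j / K + 1) * w ≤ d * w := Nat.mul_le_mul_right _ hi
    have h2 : (j / K + 1) * w = j / K * w + (s + n + K) := by rw [Nat.succ_mul]
    omega
  · intro j hj x hx
    have hKp : 0 < K := by rw [hK]; positivity
    have hi : j / K < d := Nat.div_lt_of_lt_mul (by rwa [mul_comm] at hj)
    have hx' : x ∈ V (b' + j / K * w) := V_mono (by
      have : 0 ≤ j / K * w := Nat.zero_le _
      omega) hx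
    rw [(hg (j / K) hi).2.2.1 x hx' (j % K) (Nat.mod_lt _ hKp), hEa _ hi x hx, mul_zero]
  · -- orthonormality
    have hKp : 0 < K := by rw [hK]; positivity
    have hlt : ∀ i i' : ℕ, i < i' → i' < d → ∀ k < K, ∀ k' < K,
        inner ℝ (g i k) (g i' k') = 0 := by
      intro i i' hii hi' k hk k' hk'
      have hi : i < d := by omega
      have h1 : g i k ∈ V (b' + i' * w) := by
        apply V_mono _ ((hg i hi).1 k hk)
        have : (i + 1) * w ≤ i' * w := Nat.mul_le_mul_right _ hii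
        have h2 : (i + 1) * w = i * w + (s + n + K) := by rw [Nat.succ_mul]
        omega
      rw [(hg i' hi').2.2.1 _ h1 k' hk']
      have h2 : E i' ∈ V (b' + i * w) := V_mono (by
        have : 0 ≤ i * w := Nat.zero_le _
        omega) (hEb i' hi')
      rw [real_inner_comm, (hg i hi).2.2.1 _ h2 k hk, hEE i' hi' i hi, if_neg (by omega)]
      simp
    intro j hj k hk
    have hi : j / K < d := Nat.div_lt_of_lt_mul (by rwa [mul_comm] at hj)
    have hi' : k / K < d := Nat.div_lt_of_lt_mul (by rwa [mul_comm] at hk)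
    have hr : j % K < K := Nat.mod_lt _ hKp
    have hr' : k % K < K := Nat.mod_lt _ hKp
    rcases lt_trichotomy (j / K) (k / K) with h | h | h
    · have hne : j ≠ k := by rintro rfl; omega
      rw [if_neg hne]
      exact hlt _ _ h hi' _ hr _ hr'
    · simp only
      rw [← h, (hg (j / K) hi).2.1 _ hr _ hr']
      have h1 : (j % K = k % K) ↔ j = k := by
        constructor
        · intro h2
          rw [← Nat.div_add_mod j K, ← Nat.div_add_mod k K, h, h2]
        · rintro rfl; rfl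
      simp only [h1]
    · have hne : j ≠ k := by rintro rfl; omega
      rw [if_neg hne, real_inner_comm]
      exact hlt _ _ h hi _ hr' _ hr
  · -- main estimate
    intro x hx
    have hKp : 0 < K := by rw [hK]; positivity
    obtain ⟨i, hi, hcx⟩ := hcoef x hx
    obtain ⟨hg1, hg2, hg3, hg4⟩ := hg i hi
    set y : H := x - P (b' + i * w) x with hy
    have hynorm : ‖y‖ < τ := by
      apply lt_of_le_of_lt (P_min _ x (V_mono (by omega) (P_mem b' x))) (hb'F x hx)
    have hcoefk : ∀ k < K, inner ℝ x (g i k) = al n * inner ℝ x (E i) + inner ℝ y (g i k) := by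
      intro k hk
      have h1 : inner ℝ x (g i k) = inner ℝ (P (b' + i * w) x) (g i k) + inner ℝ y (g i k) := by
        rw [← inner_add_left, hy]
        congr 1
        abel
      rw [h1, hg3 _ (P_mem _ x) k hk]
      have hEi : E i ∈ V (b' + i * w) := V_mono (by
        have : 0 ≤ i * w := Nat.zero_le _
        omega) (hEb i hi)
      have h2 := P_orth (b' + i * w) x hEi
      rw [inner_sub_left] at h2
      have h3 : inner ℝ (P (b' + i * w) x) (E i) = inner ℝ x (E i) := by linarith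
      rw [h3]
    have hbessel : ∑ k ∈ range K, (inner ℝ y (g i k)) ^ 2 ≤ τ ^ 2 := by
      have hon : Orthonormal ℝ (fun k : Fin K => g i k) := by
        rw [orthonormal_iff_ite]
        intro p q
        rw [hg2 p p.2 q q.2]
        simp only [Fin.ext_iff]
      have h1 := hon.sum_inner_products_le (x := y) (s := Finset.univ)
      rw [Finset.sum_range]
      calc _ = ∑ k : Fin K, ‖inner ℝ (g i k) y‖ ^ 2 := by
            apply sum_congr rfl
            intro k _
            rw [Real.norm_eq_abs, sq_abs, real_inner_comm]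
        _ ≤ ‖y‖ ^ 2 := h1
        _ ≤ _ := pow_le_pow_left₀ (norm_nonneg _) hynorm.le 2
    have hsub : {t | ∀ p q, p ≤ q → q ≤ d * K →
        |∑ j ∈ Ico p q, inner ℝ x (g (j / K) (j % K)) * g (j / K) (j % K) t| < L} ⊆
        {t | ∀ l ≤ K, |al n * ∑ k ∈ range l, g i k t| < Real.sqrt n / 32 - C / 4} ∪
        {t | (K:ℝ) / (ε/2) < ∑ k ∈ range K, (g i k t) ^ 2} := by
      intro t ht
      by_contra hcon
      rw [Set.mem_union, not_or] at hcon
      obtain ⟨hc1, hc2⟩ := hcon
      simp only [Set.mem_ofPred_eq, not_forall, not_lt] at hc1 hc2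
      obtain ⟨l, hl, hbig⟩ := hc1
      have h1 := ht (i * K) (i * K + l) (by omega) (by
        have : (i + 1) * K ≤ d * K := Nat.mul_le_mul_right _ hi
        rw [Nat.succ_mul] at this
        omega)
      have h2 : ∑ j ∈ Ico (i * K) (i * K + l), inner ℝ x (g (j / K) (j % K)) * g (j / K) (j % K) t =
          ∑ k ∈ range l, inner ℝ x (g i k) * g i k t := by
        rw [Finset.sum_Ico_eq_sum_range]
        have : i * K + l - i * K = l := by omega
        rw [this]
        apply sum_congr rfl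
        intro k hk
        rw [mem_range] at hk
        have e1 : (i * K + k) / K = i := by
          rw [add_comm, Nat.add_mul_div_right _ _ hKp, Nat.div_eq_of_lt (by omega), zero_add]
        have e2 : (i * K + k) % K = k := by
          rw [add_comm, Nat.add_mul_mod_self_right, Nat.mod_eq_of_lt (by omega)]
        rw [e1, e2]
      rw [h2] at h1
      have h3 : ∑ k ∈ range l, inner ℝ x (g i k) * g i k t =
          inner ℝ x (E i) * (al n * ∑ k ∈ range l, g i k t) +
          ∑ k ∈ range l, inner ℝ y (g i k) * g i k t := by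
        rw [mul_sum, mul_sum, ← sum_add_distrib]
        apply sum_congr rfl
        intro k hk
        rw [mem_range] at hk
        rw [hcoefk k (by omega)]
        ring
      have h4 : |∑ k ∈ range l, inner ℝ y (g i k) * g i k t| ≤ 1 := by
        have h5 := sum_mul_sq_le_sq_mul_sq (range l) (fun k => inner ℝ y (g i k)) (fun k => g i k t)
        have h6 : ∑ k ∈ range l, (inner ℝ y (g i k)) ^ 2 ≤ τ ^ 2 := by
          refine le_trans ?_ hbessel
          apply sum_le_sum_of_subset_of_nonneg (range_subset_range.mpr hl)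
          intro _ _ _; positivity
        have h7 : ∑ k ∈ range l, (g i k t) ^ 2 ≤ (K:ℝ) / (ε/2) := by
          refine le_trans ?_ hc2
          apply sum_le_sum_of_subset_of_nonneg (range_subset_range.mpr hl)
          intro _ _ _; positivity
        have h8 : τ ^ 2 * ((K:ℝ) / (ε/2)) = 1 := by
          rw [hτ, Real.sq_sqrt (by positivity)]
          field_simp
        rw [← sq_le_one_iff_abs_le_one]
        calc _ ≤ (∑ k ∈ range l, (inner ℝ y (g i k)) ^ 2) * (∑ k ∈ range l, (g i k t) ^ 2) := h5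
          _ ≤ τ ^ 2 * ((K:ℝ) / (ε/2)) := by
              apply mul_le_mul h6 h7 (sum_nonneg (fun _ _ => sq_nonneg _)) (sq_nonneg _)
          _ = 1 := h8
      have h9 : L + 1 ≤ |inner ℝ x (E i) * (al n * ∑ k ∈ range l, g i k t)| := by
        rw [abs_mul]
        have h10 : (L+1)/δ1 ≤ |al n * ∑ k ∈ range l, g i k t| := hA.trans hbig
        calc L + 1 = δ1 * ((L+1)/δ1) := by field_simp
          _ ≤ _ := mul_le_mul hcx h10 (by positivity) (abs_nonneg _)
      rw [h3] at h1
      have h11 := abs_sub_abs_le_abs_sub (inner ℝ x (E i) * (al n * ∑ k ∈ range l, g i k t))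
        (-(∑ k ∈ range l, inner ℝ y (g i k) * g i k t))
      rw [abs_neg, sub_neg_eq_add] at h11
      linarith
    refine (measure_mono hsub).trans ((measure_union_le _ _).trans ?_)
    have h1 := hg4.trans (ENNReal.ofReal_le_ofReal hsn)
    have h2 := markov K (g i) (fun k hk => by rw [hg2 k hk k hk, if_pos rfl]) (ε/2) (by linarith)
    calc _ ≤ ENNReal.ofReal (ε/2) + ENNReal.ofReal (ε/2) := add_le_add h1 h2
      _ = ENNReal.ofReal ε := by
          rw [← ENNReal.ofReal_add (by linarith) (by linarith)]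
          congr 1
          ring

end Pool.Agent.Helper187.Block
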