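import Mathlib
import Pool.Agent.Helper187.Digits
import Pool.Agent.Helper187.StepSpace
import Pool.Agent.Helper187.Block

set_option autoImplicit false

namespace Pool.Agent.Helper187.Global

open Finset MeasureTheory Pool.Agent.Helper187.Digits Pool.Agent.Helper187.StepSpace
open Pool.Agent.Helper187.Block

/-- an ordered orthonormal basis of the step functions of level a -/
def Good (a : ℕ) (φ : ℕ → H) : Prop :=
  (∀ i < 2 ^ a, φ i ∈ V a) ∧
  (∀ i < 2 ^ a, ∀ j < 2 ^ a, inner ℝ (φ i) (φ j) = if i = j then (1:ℝ) else 0) ∧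
  (∀ y ∈ V a, (∀ i < 2 ^ a, inner ℝ (φ i) y = 0) → y = 0)

lemma good_extend (a N : ℕ) (χ : ℕ → H) (hm : ∀ i < N, χ i ∈ V a)
    (ho : ∀ i < N, ∀ j < N, inner ℝ (χ i) (χ j) = if i = j then (1:ℝ) else 0) :
    N ≤ 2 ^ a ∧ ∃ φ, Good a φ ∧ ∀ i < N, φ i = χ i := by
  have hN : N ≤ 2 ^ a := by
    set u : Fin N → V a := fun i => ⟨χ i, hm i i.2⟩ with hu
    have hou : Orthonormal ℝ u := by
      rw [orthonormal_iff_ite]
      intro i j
      have := ho i i.2 j j.2
      rw [Submodule.coe_inner]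
      simp only [hu]
      rw [this]
      simp only [Fin.ext_iff]
    have := hou.linearIndependent.fintype_card_le_finrank
    rw [finrank_V] at this
    simpa using this
  refine ⟨hN, ?_⟩
  set v : Fin (2 ^ a) → V a := fun i => if h : (i:ℕ) < N then ⟨χ i, hm i h⟩ else 0 with hv
  have hov : Orthonormal ℝ (({i : Fin (2 ^ a) | (i:ℕ) < N} : Set (Fin (2 ^ a))).domRestrict v) := by
    rw [orthonormal_iff_ite]
    rintro ⟨i, hi⟩ ⟨j, hj⟩
    simp only [Set.mem_ofPred_eq] at hi hj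
    rw [Submodule.coe_inner]
    simp only [Set.domRestrict_apply, hv, dif_pos hi, dif_pos hj]
    rw [ho i hi j hj]
    simp only [Subtype.mk.injEq, Fin.ext_iff]
  obtain ⟨b, hb⟩ := hov.exists_orthonormalBasis_extension_of_card_eq (by rw [finrank_V]; simp)
  refine ⟨fun i => if h : i < 2 ^ a then (b ⟨i, h⟩ : H) else 0, ⟨?_, ?_, ?_⟩, ?_⟩
  · intro i hi
    simp only [dif_pos hi]
    exact (b ⟨i, hi⟩).2
  · intro i hi j hj
    simp only [dif_pos hi, dif_pos hj]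
    have := (orthonormal_iff_ite.mp b.orthonormal) ⟨i, hi⟩ ⟨j, hj⟩
    rw [Submodule.coe_inner] at this
    rw [this]
    simp only [Fin.mk.injEq]
  · intro y hy h
    have h1 : ‖(⟨y, hy⟩ : V a)‖ ^ 2 = ∑ i, ‖inner ℝ (b i) (⟨y, hy⟩ : V a)‖ ^ 2 :=
      (b.sum_sq_norm_inner_right _).symm
    have h2 : ∀ i, inner ℝ (b i) (⟨y, hy⟩ : V a) = 0 := by
      intro i
      have := h i i.2
      simp only [dif_pos i.2] at this
      exact this
    simp only [h2, norm_zero] at h1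
    have h3 : ‖(⟨y, hy⟩ : V a)‖ = 0 := by
      rw [← sq_eq_zero_iff, h1]
      simp
    have h4 : (⟨y, hy⟩ : V a) = 0 := norm_eq_zero.mp h3
    exact congrArg Subtype.val h4
  · intro i hi
    have hi' : i < 2 ^ a := by omega
    simp only [dif_pos hi']
    rw [hb ⟨i, hi'⟩ hi]
    simp only [hv, dif_pos hi]

lemma good_zero : ∃ φ, Good 0 φ := by
  obtain ⟨_, φ, h, _⟩ := good_extend 0 0 (fun _ => 0) (by intro i hi; omega) (by intro i hi; omega)
  exact ⟨φ, h⟩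

lemma step (F : Set H) (hc : IsCompact F) (a : ℕ) (hd : ∀ x ∈ F, x ∉ V a) (L ε : ℝ)
    (hL : 0 ≤ L) (hε : 0 < ε) (φ : ℕ → H) (hφ : Good a φ) :
    ∃ (a' : ℕ) (φ' : ℕ → H), a < a' ∧ Good a' φ' ∧ (∀ i < 2 ^ a, φ' i = φ i) ∧
      ∀ x ∈ F, mu {t | ∀ p q, 2 ^ a ≤ p → p ≤ q → q ≤ 2 ^ a' →
        |∑ j ∈ Ico p q, inner ℝ x (φ' j) * φ' j t| < L} ≤ ENNReal.ofReal ε := by
  obtain ⟨a', M, ψ, haa, h1, h2, h3, h4⟩ := block F hc a hd L ε hL hε
  set χ : ℕ → H := fun i => if i < 2 ^ a then φ i else ψ (i - 2 ^ a) with hχ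
  obtain ⟨hN, φ', hG, hφ'⟩ := good_extend a' (2 ^ a + M) χ
    (by
      intro i hi
      simp only [hχ]
      split_ifs with h
      · exact V_mono haa.le (hφ.1 i h)
      · exact h1 _ (by omega))
    (by
      intro i hi j hj
      simp only [hχ]
      split_ifs with c1 c2 c3 c3 c4 c3 c3
      · rw [hφ.2.1 i c1 j c2, if_pos c3]
      · rw [hφ.2.1 i c1 j c2, if_neg c3]
      · exfalso; omega
      · exact h2 _ (by omega) _ (hφ.1 i c1)
      · exfalso; omega
      · rw [real_inner_comm]; exact h2 _ (by omega) _ (hφ.1 j c4)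
      · subst c3
        rw [h3 _ (by omega) _ (by omega), if_pos rfl]
      · rw [h3 _ (by omega) _ (by omega), if_neg (by omega)])
  refine ⟨a', φ', haa, hG, ?_, ?_⟩
  · intro i hi
    rw [hφ' i (by omega)]
    simp only [hχ, if_pos hi]
  · intro x hx
    refine le_trans (measure_mono ?_) (h4 x hx)
    intro t ht
    simp only [Set.mem_ofPred_eq] at ht ⊢
    intro p q hpq hq
    have := ht (2 ^ a + p) (2 ^ a + q) (by omega) (by omega) (by omega)
    have e : ∑ j ∈ Ico (2 ^ a + p) (2 ^ a + q), inner ℝ x (φ' j) * φ' j t =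
        ∑ j ∈ Ico p q, inner ℝ x (ψ j) * ψ j t := by
      rw [add_comm (2 ^ a) p, add_comm (2 ^ a) q, ← Finset.sum_Ico_add']
      apply sum_congr rfl
      intro j hj
      rw [mem_Ico] at hj
      rw [hφ' (j + 2 ^ a) (by omega)]
      simp only [hχ]
      rw [if_neg (by omega)]
      simp
    rwa [e] at this

/-- the abstract theorem -/
theorem main (F : ℕ → Set H) (hc : ∀ m, IsCompact (F m)) (hd : ∀ m a, ∀ x ∈ F m, x ∉ V a) :
    ∃ Φ : ℕ → H, Orthonormal ℝ Φ ∧ (∀ x : H, (∀ i, inner ℝ x (Φ i) = 0) → x = 0) ∧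
      ∀ x : H, (∃ m0, ∀ m, m0 ≤ m → x ∈ F m) →
        ∀ᵐ t ∂mu, ¬ BddAbove (Set.range (fun N : ℕ => |∑ i ∈ range N, inner ℝ x (Φ i) * Φ i t|)) := by
  classical
  obtain ⟨φ0, hφ0⟩ := good_zero
  have hstep : ∀ (m : ℕ) (st : {st : ℕ × (ℕ → H) // Good st.1 st.2}),
      ∃ st' : {st : ℕ × (ℕ → H) // Good st.1 st.2}, st.1.1 < st'.1.1 ∧
        (∀ i < 2 ^ st.1.1, st'.1.2 i = st.1.2 i) ∧
        ∀ x ∈ F m, mu {t | ∀ p q, 2 ^ st.1.1 ≤ p → p ≤ q → q ≤ 2 ^ st'.1.1 →
          |∑ j ∈ Ico p q, inner ℝ x (st'.1.2 j) * st'.1.2 j t| < m} ≤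
          ENNReal.ofReal ((1/2) ^ m) := by
    rintro m ⟨⟨a, φ⟩, hG⟩
    obtain ⟨a', φ', h1, h2, h3, h4⟩ := step (F m) (hc m) a (hd m a) m ((1/2) ^ m)
      (Nat.cast_nonneg m) (by positivity) φ hG
    exact ⟨⟨⟨a', φ'⟩, h2⟩, h1, h3, h4⟩
  choose nxt hn1 hn2 hn3 using hstep
  set st : ℕ → {st : ℕ × (ℕ → H) // Good st.1 st.2} := fun m =>
    Nat.rec ⟨⟨0, φ0⟩, hφ0⟩ (fun m s => nxt m s) m with hst
  have hsucc : ∀ m, st (m+1) = nxt m (st m) := fun m => rfl
  set a : ℕ → ℕ := fun m => (st m).1.1 with ha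
  set φ : ℕ → ℕ → H := fun m => (st m).1.2 with hφ
  have hG : ∀ m, Good (a m) (φ m) := fun m => (st m).2
  have hmono1 : ∀ m, a m < a (m+1) := fun m => by
    simp only [ha, hsucc]; exact hn1 m (st m)
  have hmono : StrictMono a := strictMono_nat_of_lt_succ hmono1
  have hage : ∀ m, m ≤ a m := fun m => hmono.id_le m
  have hlt : ∀ m, m < 2 ^ a m := fun m =>
    lt_of_lt_of_le (Nat.lt_two_pow_self) (Nat.pow_le_pow_right (by norm_num) (hage m))
  have hst1 : ∀ m, ∀ i < 2 ^ a m, φ (m+1) i = φ m i := fun m i hi => by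
    simp only [hφ, hsucc]; exact hn2 m (st m) i hi
  have hstab : ∀ m k, ∀ i < 2 ^ a m, φ (m+k) i = φ m i := by
    intro m k
    induction k with
    | zero => intro i _; rfl
    | succ k ih =>
      intro i hi
      rw [← add_assoc, hst1 (m+k) i, ih i hi]
      exact lt_of_lt_of_le hi (Nat.pow_le_pow_right (by norm_num) (hmono.monotone (by omega)))
  set Φ : ℕ → H := fun i => φ i i with hΦ
  have hΦeq : ∀ m, ∀ i < 2 ^ a m, Φ i = φ m i := by
    intro m i hi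
    simp only [hΦ]
    rcases le_total m i with h | h
    · obtain ⟨k, rfl⟩ := Nat.exists_eq_add_of_le h
      exact hstab m k _ hi
    · obtain ⟨k, rfl⟩ := Nat.exists_eq_add_of_le h
      exact (hstab i k i (hlt i)).symm
  refine ⟨Φ, ?_, ?_, ?_⟩
  · rw [orthonormal_iff_ite]
    intro i j
    have hi : i < 2 ^ a (max i j) := lt_of_lt_of_le (hlt i)
      (Nat.pow_le_pow_right (by norm_num) (hmono.monotone (le_max_left _ _)))
    have hj : j < 2 ^ a (max i j) := lt_of_lt_of_le (hlt j)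
      (Nat.pow_le_pow_right (by norm_num) (hmono.monotone (le_max_right _ _)))
    rw [hΦeq _ i hi, hΦeq _ j hj]
    exact (hG _).2.1 i hi j hj
  · intro x hx
    by_contra hne
    have hpos : 0 < ‖x‖ := norm_pos_iff.mpr hne
    obtain ⟨b, y, hy, hxy⟩ := V_dense x (‖x‖/2) (by linarith)
    have h1 : P (a b) x = 0 := by
      apply (hG b).2.2 _ (P_mem _ _)
      intro i hi
      have h2 := P_orth (a b) x ((hG b).1 i hi)
      rw [inner_sub_left] at h2
      have h3 := hx i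
      rw [hΦeq b i hi] at h3
      rw [real_inner_comm]
      linarith
    have h2 := P_min (a b) x (V_mono (hage b) hy)
    rw [h1, sub_zero] at h2
    linarith
  · rintro x ⟨m0, hm0⟩
    have hA : ∀ m, m0 ≤ m → mu {t | ∀ p q, 2 ^ a m ≤ p → p ≤ q → q ≤ 2 ^ a (m+1) →
        |∑ j ∈ Ico p q, inner ℝ x (Φ j) * Φ j t| < m} ≤ ENNReal.ofReal ((1/2) ^ m) := by
      intro m hm
      refine le_trans (measure_mono ?_) (hn3 m (st m) x (hm0 m hm))
      intro t ht
      simp only [Set.mem_ofPred_eq] at ht ⊢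
      intro p q h1 h2 h3
      have := ht p q h1 h2 h3
      have e : ∑ j ∈ Ico p q, inner ℝ x (Φ j) * Φ j t =
          ∑ j ∈ Ico p q, inner ℝ x ((nxt m (st m)).1.2 j) * (nxt m (st m)).1.2 j t := by
        apply sum_congr rfl
        intro j hj
        rw [mem_Ico] at hj
        have hj' : j < 2 ^ a (m+1) := lt_of_lt_of_le hj.2 h3
        rw [hΦeq (m+1) j hj']
      rwa [e] at this
    have hsum : ∑' m : ℕ, mu {t | ∀ p q, 2 ^ a (m+m0) ≤ p → p ≤ q → q ≤ 2 ^ a (m+m0+1) →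
        |∑ j ∈ Ico p q, inner ℝ x (Φ j) * Φ j t| < ((m+m0 : ℕ) : ℝ)} ≠ ⊤ := by
      apply ne_top_of_le_ne_top _ (ENNReal.tsum_le_tsum (fun m => hA (m+m0) (by omega)))
      rw [← ENNReal.ofReal_tsum_of_nonneg (fun m => by positivity)]
      · exact ENNReal.ofReal_ne_top
      · exact (summable_geometric_of_lt_one (by norm_num) (by norm_num : (1/2:ℝ) < 1)).comp_injective
          (add_left_injective m0)
    filter_upwards [ae_eventually_notMem hsum] with t ht hb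
    obtain ⟨B, hB⟩ := hb
    rw [Filter.eventually_atTop] at ht
    obtain ⟨m1, hm1⟩ := ht
    obtain ⟨m2, hm2⟩ := exists_nat_gt (2 * B)
    have h1 := hm1 (max m1 m2) (le_max_left _ _)
    simp only [Set.mem_ofPred_eq, not_forall, not_lt] at h1
    obtain ⟨p, q, _, hpq, _, hbig⟩ := h1
    have e : ∑ j ∈ Ico p q, inner ℝ x (Φ j) * Φ j t =
        ∑ j ∈ range q, inner ℝ x (Φ j) * Φ j t - ∑ j ∈ range p, inner ℝ x (Φ j) * Φ j t := by
      rw [Finset.sum_Ico_eq_sub _ hpq]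
    have hp : |∑ j ∈ range p, inner ℝ x (Φ j) * Φ j t| ≤ B := hB ⟨p, rfl⟩
    have hq : |∑ j ∈ range q, inner ℝ x (Φ j) * Φ j t| ≤ B := hB ⟨q, rfl⟩
    rw [e] at hbig
    have h2 := abs_sub (∑ j ∈ range q, inner ℝ x (Φ j) * Φ j t) (∑ j ∈ range p, inner ℝ x (Φ j) * Φ j t)
    have h3 : (m2:ℝ) ≤ ((max m1 m2 + m0 : ℕ) : ℝ) := by
      have : m2 ≤ max m1 m2 + m0 := (le_max_right _ _).trans (Nat.le_add_right _ _)
      exact_mod_cast this
    linarith

end Pool.Agent.Helper187.Global
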