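import Mathlib
import Pool.Agent.Helper187.Digits
import Pool.Agent.Helper187.StepSpace
import Pool.Agent.Helper187.Global

set_option autoImplicit false

namespace Pool.Agent.Helper187.Modulus

open MeasureTheory Pool.Agent.Helper187.Digits Pool.Agent.Helper187.StepSpace

/-- the twist: +1 before 1/3, -1 after -/
noncomputable def tw (t : ℝ) : ℝ := if t < 1/3 then 1 else -1

lemma tw_meas : Measurable tw := by
  unfold tw
  exact Measurable.ite measurableSet_Iio measurable_const measurable_const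

lemma tw_sq (t : ℝ) : tw t * tw t = 1 := by unfold tw; split_ifs <;> norm_num

lemma tw_abs (t : ℝ) : |tw t| = 1 := by unfold tw; split_ifs <;> simp

abbrev CI : Type := C(Set.Icc (0:ℝ) 1, ℝ)

/-- extension to the line -/
noncomputable def ex (f : CI) : ℝ → ℝ := Set.IccExtend (zero_le_one) f

lemma ex_cont (f : CI) : Continuous (ex f) := f.continuous.Icc_extend'

lemma ex_le (f : CI) (t : ℝ) : |ex f t| ≤ ‖f‖ := by
  unfold ex Set.IccExtend
  exact f.norm_coe_le_norm _

lemma tf_memLp (f : CI) : MemLp (fun t => tw t * ex f t) 2 mu := by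
  apply MemLp.of_bound (tw_meas.mul (ex_cont f).measurable).aestronglyMeasurable ‖f‖
  filter_upwards with t
  change |tw t * ex f t| ≤ ‖f‖
  rw [abs_mul, tw_abs, one_mul]
  exact ex_le f t

noncomputable def T (f : CI) : H := (tf_memLp f).toLp _

lemma T_ae (f : CI) : T f =ᵐ[mu] fun t => tw t * ex f t := (tf_memLp f).coeFn_toLp

lemma T_cont : Continuous T := by
  have : LipschitzWith 1 T := by
    apply LipschitzWith.of_dist_le_mul
    intro f g
    rw [NNReal.coe_one, one_mul, dist_eq_norm, dist_eq_norm]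
    have h3 : ∀ᵐ t ∂mu, ‖(T f - T g : H) t‖ ≤ ‖f - g‖ := by
      filter_upwards [Lp.coeFn_sub (T f) (T g), T_ae f, T_ae g] with t e1 e2 e3
      rw [e1, Pi.sub_apply, e2, e3, ← mul_sub, Real.norm_eq_abs, abs_mul, tw_abs, one_mul]
      have : ex f t - ex g t = ex (f - g) t := rfl
      rw [this]
      exact ex_le _ t
    have := Lp.norm_le_of_ae_bound (p := 2) (μ := mu) (norm_nonneg (f - g)) h3
    simpa [measureUnivNNReal] using this
  exact this.continuous

/-- a continuous function whose twist is a step function vanishes -/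
lemma T_not_step (f : CI) (a : ℕ) (h : T f ∈ V a) : f = 0 := by
  obtain ⟨g, ⟨F, hF⟩, hg⟩ := h
  have hae : ∀ᵐ t ∂mu, tw t * ex f t = F (D a t) := by
    filter_upwards [hg, T_ae f] with t h1 h2
    rw [← h2, h1, hF]
  have hmem : ∀ᵐ t ∂mu, t ∈ Set.Icc (0:ℝ) 1 := ae_restrict_mem measurableSet_Icc
  -- every nonempty open subinterval of the unit interval contains good points
  have hdense : ∀ x y : ℝ, 0 ≤ x → x < y → y ≤ 1 → ∃ t, x < t ∧ t < y ∧ tw t * ex f t = F (D a t) := by
    intro x y hx hxy hy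
    by_contra hcon
    push Not at hcon
    have h1 : mu (Set.Ioo x y) = 0 := by
      rw [ae_iff] at hae
      apply measure_mono_null _ hae
      intro t ht
      simp only [Set.mem_ofPred_eq]
      exact hcon t ht.1 ht.2
    rw [Measure.restrict_apply measurableSet_Ioo] at h1
    have h2 : Set.Ioo x y ∩ Set.Icc 0 1 = Set.Ioo x y := by
      apply Set.inter_eq_left.mpr
      intro t ht
      exact ⟨by linarith [ht.1], by linarith [ht.2]⟩
    rw [h2, Real.volume_Ioo, ENNReal.ofReal_eq_zero] at h1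
    linarith
  -- the finite set of values
  set Z : Set ℝ := ((fun i : ℕ => F i) '' (Set.Iic (2 ^ a))) ∪ ((fun i : ℕ => - F i) '' (Set.Iic (2 ^ a)))
    with hZ
  have hZfin : Z.Finite := ((Set.finite_Iic _).image _).union ((Set.finite_Iic _).image _)
  have hval : ∀ t, t ∈ Set.Icc (0:ℝ) 1 → tw t * ex f t = F (D a t) → ex f t ∈ Z := by
    intro t ht h1
    have hD := D_le (a := a) ht
    unfold tw at h1
    split_ifs at h1
    · left; exact ⟨D a t, hD, by simp only; linarith⟩
    · right; exact ⟨D a t, hD, by simp only; linarith⟩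
  have hall : ∀ t ∈ Set.Icc (0:ℝ) 1, ex f t ∈ Z := by
    intro t ht
    by_contra hcon
    have hopen : IsOpen {s | ex f s ∉ Z} :=
      (hZfin.isClosed.preimage (ex_cont f)).isOpen_compl
    obtain ⟨ε, hε, hball⟩ := Metric.isOpen_iff.mp hopen t hcon
    -- a subinterval around t inside the unit interval
    rcases le_or_gt t (1/2) with h1 | h1
    · obtain ⟨s, hs1, hs2, hs3⟩ := hdense t (t + min (ε/2) (1/2)) ht.1
        (by have : 0 < min (ε/2) (1/2) := lt_min (by linarith) (by norm_num)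
            linarith) (by have := min_le_right (ε/2) (1/2:ℝ); linarith)
      have h5 : s < t + ε/2 := by have := min_le_left (ε/2) (1/2:ℝ); linarith
      have h6 : s ≤ 1 := by have := min_le_right (ε/2) (1/2:ℝ); linarith
      have : s ∈ {s | ex f s ∉ Z} := hball (by rw [Metric.mem_ball, Real.dist_eq, abs_lt]; constructor <;> linarith)
      exact this (hval s ⟨by linarith [ht.1], h6⟩ hs3)
    · obtain ⟨s, hs1, hs2, hs3⟩ := hdense (t - min (ε/2) (1/2)) t
        (by have := min_le_right (ε/2) (1/2:ℝ); linarith)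
        (by have : 0 < min (ε/2) (1/2) := lt_min (by linarith) (by norm_num)
            linarith) ht.2
      have h5 : t - ε/2 < s := by have := min_le_left (ε/2) (1/2:ℝ); linarith
      have h6 : 0 ≤ s := by have := min_le_right (ε/2) (1/2:ℝ); linarith
      have : s ∈ {s | ex f s ∉ Z} := hball (by rw [Metric.mem_ball, Real.dist_eq, abs_lt]; constructor <;> linarith)
      exact this (hval s ⟨h6, by linarith [ht.2]⟩ hs3)
  -- hence constant
  have hconst : ∀ t ∈ Set.Icc (0:ℝ) 1, ∀ s ∈ Set.Icc (0:ℝ) 1, ex f t = ex f s := by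
    intro t ht s hs
    by_contra hne
    have hpre : IsPreconnected (ex f '' Set.Icc 0 1) :=
      isPreconnected_Icc.image _ (ex_cont f).continuousOn
    have hinf := hpre.infinite_of_nontrivial ⟨ex f t, ⟨t, ht, rfl⟩, ex f s, ⟨s, hs, rfl⟩, hne⟩
    apply hinf
    apply hZfin.subset
    rintro z ⟨u, hu, rfl⟩
    exact hall u hu
  -- look at the dyadic interval around one third
  have hpos : (0:ℝ) < 2 ^ a := by positivity
  set i : ℕ := D a (1/3) with hi
  have h0 : (0:ℝ) ≤ 2 ^ a * (1/3) := by positivity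
  have hi1 : (i:ℝ) ≤ 2 ^ a * (1/3) := Nat.floor_le h0
  have hi2 : (2:ℝ) ^ a * (1/3) < i + 1 := Nat.lt_floor_add_one _
  have hine : (i:ℝ) ≠ 2 ^ a * (1/3) := by
    intro h
    have h1 : (3 * i : ℕ) = 2 ^ a := by
      have : (3:ℝ) * i = 2 ^ a := by rw [h]; ring
      exact_mod_cast this
    have h2 : 3 ∣ 2 ^ a := ⟨i, h1.symm⟩
    have h3 := Nat.Prime.dvd_of_dvd_pow Nat.prime_three h2
    omega
  have hi1' : (i:ℝ) < 2 ^ a * (1/3) := lt_of_le_of_ne hi1 hine
  have hDi : ∀ t, (i:ℝ) / 2 ^ a < t → t < ((i:ℝ)+1) / 2 ^ a → D a t = i := by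
    intro t h1 h2
    rw [div_lt_iff₀ hpos] at h1
    rw [lt_div_iff₀ hpos] at h2
    unfold D
    have : (0:ℝ) ≤ i := Nat.cast_nonneg i
    rw [Nat.floor_eq_iff (by linarith)]
    constructor <;> linarith
  have e1 : (i:ℝ) / 2 ^ a < 1/3 := by rw [div_lt_iff₀ hpos]; linarith
  have e2 : (1/3:ℝ) < ((i:ℝ)+1) / 2 ^ a := by rw [lt_div_iff₀ hpos]; linarith
  obtain ⟨t1, a1, a2, a3⟩ := hdense ((i:ℝ) / 2 ^ a) (1/3) (by positivity) e1 (by norm_num)
  have hmin : 1/3 < min (((i:ℝ)+1) / 2 ^ a) 1 := lt_min e2 (by norm_num)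
  obtain ⟨t2, b1, b2, b3⟩ := hdense (1/3) (min (((i:ℝ)+1) / 2 ^ a) 1) (by norm_num) hmin (min_le_right _ _)
  have b2' : t2 < ((i:ℝ)+1) / 2 ^ a := lt_of_lt_of_le b2 (min_le_left _ _)
  have b2'' : t2 < 1 := lt_of_lt_of_le b2 (min_le_right _ _)
  rw [hDi t1 a1 (by linarith)] at a3
  rw [hDi t2 (by linarith) b2'] at b3
  have ha0 : (0:ℝ) ≤ (i:ℝ) / 2 ^ a := by positivity
  have hc := hconst t1 ⟨by linarith, by linarith⟩ t2 ⟨by linarith, by linarith⟩
  have htw1 : tw t1 = 1 := by unfold tw; rw [if_pos a2]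
  have htw2 : tw t2 = -1 := by unfold tw; rw [if_neg (by linarith)]
  rw [htw1] at a3
  rw [htw2] at b3
  have hz : ex f t1 = 0 := by linarith
  ext s
  have : ex f s = f s := by
    unfold ex
    exact Set.IccExtend_val _ _ _
  rw [← this, hconst s s.2 t1 ⟨by linarith, by linarith⟩, hz]
  rfl

/-- compact classes -/
def Kc (ω : ℝ → ℝ) (m : ℕ) : Set CI :=
  {f | (∀ x, |f x| ≤ m) ∧ ∀ x y : Set.Icc (0:ℝ) 1, |f x - f y| ≤ m * ω |(x:ℝ) - y|}

lemma Kc_compact (ω : ℝ → ℝ) (hω : ∀ ε > 0, ∃ δ > 0, ∀ s, 0 ≤ s → s < δ → ω s ≤ ε) (m : ℕ) :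
    IsCompact (Kc ω m) := by
  have heq : ∀ x0 : Set.Icc (0:ℝ) 1, ∀ ε > 0, ∃ δ > 0, ∀ x : Set.Icc (0:ℝ) 1, |(x0:ℝ) - x| < δ →
      (m:ℝ) * ω |(x0:ℝ) - x| < ε := by
    intro x0 ε hε
    obtain ⟨δ, hδ, h⟩ := hω (ε / (m + 1)) (by positivity)
    refine ⟨δ, hδ, fun x hx => ?_⟩
    have h1 := h _ (abs_nonneg _) hx
    have h2 : (m:ℝ) * ω |(x0:ℝ) - x| ≤ m * (ε / (m+1)) :=
      mul_le_mul_of_nonneg_left h1 (Nat.cast_nonneg m)
    have h3 : (m:ℝ) * (ε / (m+1)) < ε := by
      rw [mul_div_assoc', div_lt_iff₀ (by positivity)]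
      nlinarith
    linarith
  apply ArzelaAscoli.isCompact_of_equicontinuous
  · have himg : ContinuousMap.toFun '' (Kc ω m) = (Set.univ.pi (fun _ => Set.Icc (-(m:ℝ)) m)) ∩
        {f : Set.Icc (0:ℝ) 1 → ℝ | ∀ x y, |f x - f y| ≤ m * ω |(x:ℝ) - y|} := by
      ext g
      constructor
      · rintro ⟨f, ⟨h1, h2⟩, rfl⟩
        refine ⟨fun x _ => abs_le.mp (h1 x), h2⟩
      · rintro ⟨h1, h2⟩
        simp only [Set.mem_ofPred_eq] at h2
        have hcont : Continuous g := by
          rw [Metric.continuous_iff]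
          intro x0 ε hε
          obtain ⟨δ, hδ, h⟩ := heq x0 ε hε
          refine ⟨δ, hδ, fun x hx => ?_⟩
          rw [dist_comm, Subtype.dist_eq, Real.dist_eq] at hx
          rw [dist_comm, Real.dist_eq]
          exact lt_of_le_of_lt (h2 x0 x) (h x hx)
        exact ⟨⟨g, hcont⟩, ⟨fun x => abs_le.mpr (h1 x trivial), h2⟩, rfl⟩
    rw [himg]
    apply IsCompact.inter_right
    · exact isCompact_univ_pi (fun _ => isCompact_Icc)
    · have : {f : Set.Icc (0:ℝ) 1 → ℝ | ∀ x y, |f x - f y| ≤ m * ω |(x:ℝ) - y|} =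
        ⋂ x, ⋂ y, {f : Set.Icc (0:ℝ) 1 → ℝ | |f x - f y| ≤ m * ω |(x:ℝ) - y|} := by
        ext f
        constructor
        · intro h
          rw [Set.mem_iInter]
          intro x
          rw [Set.mem_iInter]
          intro y
          exact h x y
        · intro h x y
          rw [Set.mem_iInter] at h
          have h1 := h x
          rw [Set.mem_iInter] at h1
          exact h1 y
      rw [this]
      apply isClosed_iInter
      intro x
      apply isClosed_iInter
      intro y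
      exact isClosed_le (by fun_prop) continuous_const
  · intro x0
    rw [Metric.equicontinuousAt_iff]
    intro ε hε
    obtain ⟨δ, hδ, h⟩ := heq x0 ε hε
    refine ⟨δ, hδ, ?_⟩
    rintro x hx ⟨f, h1, h2⟩
    rw [dist_comm, Subtype.dist_eq, Real.dist_eq] at hx
    rw [Real.dist_eq]
    exact lt_of_le_of_lt (h2 x0 x) (h x hx)

/-- For every modulus of continuity there is a complete orthonormal system for which the
expansion of every nonzero continuous function with that modulus is unbounded almost everywhere. -/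
theorem system (ω : ℝ → ℝ) (hω0 : ∀ s, 0 ≤ ω s)
    (hω : ∀ ε > 0, ∃ δ > 0, ∀ s, 0 ≤ s → s < δ → ω s ≤ ε) :
    ∃ φ : ℕ → ℝ → ℝ,
      (∀ n, Measurable (φ n)) ∧
      (∀ n, MemLp (φ n) 2 (volume.restrict (Set.Icc (0:ℝ) 1))) ∧
      (∀ i j, ∫ t in Set.Icc (0:ℝ) 1, φ i t * φ j t = if i = j then (1:ℝ) else 0) ∧
      (∀ g : ℝ → ℝ, MemLp g 2 (volume.restrict (Set.Icc (0:ℝ) 1)) →
        (∀ n, ∫ t in Set.Icc (0:ℝ) 1, g t * φ n t = 0) →
        g =ᵐ[volume.restrict (Set.Icc (0:ℝ) 1)] 0) ∧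
      (∀ f : ℝ → ℝ, (∃ C : ℝ, ∀ x ∈ Set.Icc (0:ℝ) 1, ∀ y ∈ Set.Icc (0:ℝ) 1,
          |f x - f y| ≤ C * ω |x - y|) →
        (∃ x ∈ Set.Icc (0:ℝ) 1, f x ≠ 0) →
        ∀ᵐ t ∂(volume.restrict (Set.Icc (0:ℝ) 1)),
          ¬ BddAbove (Set.range (fun N : ℕ => |∑ n ∈ Finset.range N,
              (∫ s in Set.Icc (0:ℝ) 1, f s * φ n s) * φ n t|))) := by
  obtain ⟨Φ, hon, hcomp, hdiv⟩ := Global.main
    (fun m => T '' (Kc ω m ∩ {f | 1 / ((m:ℝ) + 1) ≤ ‖f‖}))
    (fun m => ((Kc_compact ω hω m).inter_right (isClosed_le continuous_const continuous_norm)).image T_cont)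
    (by
      rintro m a x ⟨f, ⟨_, h2⟩, rfl⟩ hmem
      have h0 := T_not_step f a hmem
      rw [h0] at h2
      simp only [Set.mem_ofPred_eq, norm_zero] at h2
      have : 0 < 1 / ((m:ℝ) + 1) := by positivity
      linarith)
  have hΦm : ∀ n, Measurable (fun t => tw t * Φ n t) := fun n =>
    tw_meas.mul (Lp.stronglyMeasurable (Φ n)).measurable
  have htw_memLp : ∀ g : ℝ → ℝ, MemLp g 2 mu → MemLp (fun t => tw t * g t) 2 mu := by
    intro g hg
    apply MemLp.of_le hg (tw_meas.aestronglyMeasurable.mul hg.1)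
    filter_upwards with t
    change |tw t * g t| ≤ |g t|
    rw [abs_mul, tw_abs, one_mul]
  refine ⟨fun n t => tw t * Φ n t, hΦm, fun n => htw_memLp _ (Lp.memLp (Φ n)), ?_, ?_, ?_⟩
  · intro i j
    rw [← (orthonormal_iff_ite.mp hon) i j, inner_eq]
    congr 1
    funext t
    calc _ = (tw t * tw t) * (Φ i t * Φ j t) := by ring
      _ = _ := by rw [tw_sq, one_mul]
  · intro g hg h
    have h1 := htw_memLp g hg
    have hx : h1.toLp _ = 0 := by
      apply hcomp
      intro i
      rw [inner_of_ae h1.coeFn_toLp (Filter.EventuallyEq.refl _ _)]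
      rw [← h i]
      congr 1
      funext t
      ring
    have h2 : (h1.toLp _ : ℝ → ℝ) =ᵐ[mu] fun _ => 0 := by
      rw [hx]
      exact Lp.coeFn_zero _ _ _
    filter_upwards [h1.coeFn_toLp, h2] with t e1 e2
    rw [e1] at e2
    simp only [Pi.zero_apply]
    rcases mul_eq_zero.mp e2 with h3 | h3
    · have := tw_sq t
      rw [h3] at this
      norm_num at this
    · exact h3
  · rintro f ⟨C, hC⟩ ⟨x0, hx0, hfx0⟩
    -- continuity
    have hcont : ContinuousOn f (Set.Icc 0 1) := by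
      rw [Metric.continuousOn_iff]
      intro x hx ε hε
      obtain ⟨δ, hδ, h⟩ := hω (ε / (|C| + 1)) (by positivity)
      refine ⟨δ, hδ, fun y hy hxy => ?_⟩
      rw [Real.dist_eq] at hxy ⊢
      have h1 := h _ (abs_nonneg _) hxy
      have h2 := hC y hy x hx
      have h3 : C * ω |y - x| ≤ |C| * ω |y - x| :=
        mul_le_mul_of_nonneg_right (le_abs_self C) (hω0 _)
      have h4 : |C| * ω |y - x| ≤ |C| * (ε / (|C| + 1)) :=
        mul_le_mul_of_nonneg_left h1 (abs_nonneg C)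
      have h5 : |C| * (ε / (|C|+1)) < ε := by
        rw [mul_div_assoc', div_lt_iff₀ (by positivity)]
        nlinarith [abs_nonneg C]
      linarith
    set fc : CI := ⟨fun t => f t, hcont.domRestrict⟩ with hfc
    have hfcpos : 0 < ‖fc‖ := by
      rw [norm_pos_iff]
      intro h
      apply hfx0
      have := congrArg (fun g : CI => g ⟨x0, hx0⟩) h
      exact this
    have hin : ∃ m0 : ℕ, ∀ m, m0 ≤ m → T fc ∈ T '' (Kc ω m ∩ {f | 1 / ((m:ℝ) + 1) ≤ ‖f‖}) := by
      obtain ⟨m1, hm1⟩ := exists_nat_gt ‖fc‖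
      obtain ⟨m2, hm2⟩ := exists_nat_gt |C|
      obtain ⟨m3, hm3⟩ := exists_nat_gt (1 / ‖fc‖)
      refine ⟨max m1 (max m2 m3), fun m hm => ⟨fc, ⟨⟨?_, ?_⟩, ?_⟩, rfl⟩⟩
      · intro x
        have h1 : m1 ≤ m := (le_max_left _ _).trans hm
        have h2 : (m1:ℝ) ≤ m := by exact_mod_cast h1
        have h3 := fc.norm_coe_le_norm x
        rw [Real.norm_eq_abs] at h3
        linarith
      · intro x y
        have h1 : m2 ≤ m := (le_max_left _ _).trans ((le_max_right _ _).trans hm)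
        have h2 : (m2:ℝ) ≤ m := by exact_mod_cast h1
        have h3 := hC x x.2 y y.2
        have h4 : C ≤ m := by have := le_abs_self C; linarith
        exact h3.trans (mul_le_mul_of_nonneg_right h4 (hω0 _))
      · have h1 : m3 ≤ m := (le_max_right _ _).trans ((le_max_right _ _).trans hm)
        have h2 : (m3:ℝ) ≤ m := by exact_mod_cast h1
        simp only [Set.mem_ofPred_eq]
        rw [div_le_iff₀ (by positivity)]
        rw [div_lt_iff₀ hfcpos] at hm3
        nlinarith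
    have hmem : ∀ᵐ t ∂mu, t ∈ Set.Icc (0:ℝ) 1 := ae_restrict_mem measurableSet_Icc
    have hcoef : ∀ n, ∫ s in Set.Icc (0:ℝ) 1, f s * (tw s * Φ n s) = inner ℝ (T fc) (Φ n) := by
      intro n
      rw [inner_of_ae (T_ae fc) (Filter.EventuallyEq.refl _ _)]
      apply integral_congr_ae
      filter_upwards [hmem] with t ht
      have : ex fc t = f t := by
        unfold ex
        rw [Set.IccExtend_of_mem _ _ ht]
        rfl
      rw [this]
      ring
    filter_upwards [hdiv (T fc) hin] with t ht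
    intro hb
    apply ht
    obtain ⟨B, hB⟩ := hb
    refine ⟨B, ?_⟩
    rintro z ⟨N, rfl⟩
    have h1 := hB ⟨N, rfl⟩
    simp only at h1 ⊢
    simp_rw [hcoef] at h1
    have h2 : ∑ n ∈ Finset.range N, inner ℝ (T fc) (Φ n) * (tw t * Φ n t) =
        tw t * ∑ n ∈ Finset.range N, inner ℝ (T fc) (Φ n) * Φ n t := by
      rw [Finset.mul_sum]
      apply Finset.sum_congr rfl
      intro n _
      ring
    rw [h2, abs_mul, tw_abs, one_mul] at h1
    exact h1

end Pool.Agent.Helper187.Modulus
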