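import Mathlib
import Pool.Agent.Helper187.Modulus

set_option autoImplicit false

namespace Pool.Agent.Helper187.Analytic

open MeasureTheory Filter Topology

/-- A complete orthonormal system for which every nonzero analytic function has an almost
everywhere divergent expansion. -/
theorem system :
    ∃ φ : ℕ → ℝ → ℝ,
      (∀ n, Measurable (φ n)) ∧
      (∀ n, MemLp (φ n) 2 (volume.restrict (Set.Icc (0:ℝ) 1))) ∧
      (∀ i j, ∫ t in Set.Icc (0:ℝ) 1, φ i t * φ j t = if i = j then (1:ℝ) else 0) ∧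
      (∀ g : ℝ → ℝ, MemLp g 2 (volume.restrict (Set.Icc (0:ℝ) 1)) →
        (∀ n, ∫ t in Set.Icc (0:ℝ) 1, g t * φ n t = 0) →
        g =ᵐ[volume.restrict (Set.Icc (0:ℝ) 1)] 0) ∧
      (∀ f : ℝ → ℝ, AnalyticOnNhd ℝ f (Set.Icc (0:ℝ) 1) →
        (∃ x ∈ Set.Icc (0:ℝ) 1, f x ≠ 0) →
        ∀ᵐ t ∂(volume.restrict (Set.Icc (0:ℝ) 1)),
          ¬ ∃ L : ℝ, Tendsto
            (fun N : ℕ => ∑ n ∈ Finset.range N,
              (∫ s in Set.Icc (0:ℝ) 1, f s * φ n s) * φ n t)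
            atTop (𝓝 L)) := by
  obtain ⟨φ, h1, h2, h3, h4, h5⟩ := Modulus.system (fun s => |s|) (fun s => abs_nonneg s)
    (fun ε hε => ⟨ε, hε, fun s hs hs2 => by
      rw [abs_of_nonneg hs]
      exact hs2.le⟩)
  refine ⟨φ, h1, h2, h3, h4, ?_⟩
  intro f hf hne
  have hlip : ∃ C : ℝ, ∀ x ∈ Set.Icc (0:ℝ) 1, ∀ y ∈ Set.Icc (0:ℝ) 1,
      |f x - f y| ≤ C * |(|x - y|)| := by
    have hd : ContinuousOn (deriv f) (Set.Icc (0:ℝ) 1) := hf.deriv.continuousOn
    obtain ⟨C, hC⟩ := isCompact_Icc.exists_bound_of_continuousOn hd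
    refine ⟨C, fun x hx y hy => ?_⟩
    rw [abs_abs]
    have := Convex.norm_image_sub_le_of_norm_deriv_le (𝕜 := ℝ) (f := f) (s := Set.Icc (0:ℝ) 1)
      (fun z hz => (hf z hz).differentiableAt) hC (convex_Icc 0 1) hy hx
    simpa [Real.norm_eq_abs] using this
  filter_upwards [h5 f hlip hne] with t ht
  rintro ⟨L, hL⟩
  apply ht
  have hb := hL.abs.bddAbove_range
  exact hb

/-- The same for nonzero polynomials. -/
theorem poly_ne (p : Polynomial ℝ) (hp : p ≠ 0) : ∃ x ∈ Set.Icc (0:ℝ) 1, p.eval x ≠ 0 := by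
  by_contra hcon
  push Not at hcon
  apply hp
  apply Polynomial.eq_zero_of_infinite_isRoot
  apply Set.Infinite.mono (s := Set.Icc (0:ℝ) 1)
  · intro x hx
    exact hcon x hx
  · exact Set.Icc_infinite (by norm_num)

theorem poly_analytic (p : Polynomial ℝ) : AnalyticOnNhd ℝ (fun x => p.eval x) (Set.Icc (0:ℝ) 1) := by
  have := AnalyticOnNhd.eval_polynomial (𝕜 := ℝ) (A := ℝ) p
  exact this.mono (Set.subset_univ _)

end Pool.Agent.Helper187.Analytic
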