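import Pool.Agent.Helper187.GlobalU

set_option autoImplicit false

/-!
Complete orthonormal systems with a.e. unbounded expansions of all nonzero essentially bounded
functions (function-level form of `GlobalU.main`).
-/

open MeasureTheory Set

namespace Pool.Agent.Helper187.EssBdd

theorem essBdd :
    ∃ φ : ℕ → ℝ → ℝ,
      (∀ i, Measurable (φ i)) ∧
      (∀ i, MemLp (φ i) 2 (volume.restrict (Icc (0:ℝ) 1))) ∧
      (∀ i j, ∫ x in Icc (0:ℝ) 1, φ i x * φ j x = if i = j then (1:ℝ) else 0) ∧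
      (∀ g : ℝ → ℝ, MemLp g 2 (volume.restrict (Icc (0:ℝ) 1)) →
        (∀ i, ∫ x in Icc (0:ℝ) 1, g x * φ i x = 0) →
        g =ᵐ[volume.restrict (Icc (0:ℝ) 1)] 0) ∧
      (∀ f : ℝ → ℝ, MemLp f ⊤ (volume.restrict (Icc (0:ℝ) 1)) →
        ¬ f =ᵐ[volume.restrict (Icc (0:ℝ) 1)] 0 →
        ∀ᵐ t ∂(volume.restrict (Icc (0:ℝ) 1)),
          ¬ BddAbove (range (fun n : ℕ =>
            |∑ i ∈ Finset.range n, (∫ x in Icc (0:ℝ) 1, f x * φ i x) * φ i t|))) := by
  obtain ⟨Φ, hon, hcomp, hdiv⟩ := Pool.Agent.Helper187.GlobalU.main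
  -- measurable representatives
  let φ : ℕ → ℝ → ℝ := fun i => (Lp.aestronglyMeasurable (Φ i)).mk (Φ i)
  have hφm : ∀ i, Measurable (φ i) := fun i =>
    (Lp.aestronglyMeasurable (Φ i)).stronglyMeasurable_mk.measurable
  have hae : ∀ i, (Φ i : ℝ → ℝ) =ᵐ[volume.restrict (Icc (0:ℝ) 1)] φ i := fun i =>
    (Lp.aestronglyMeasurable (Φ i)).ae_eq_mk
  refine ⟨φ, hφm, fun i => (Lp.memLp (Φ i)).ae_eq (hae i), ?_, ?_, ?_⟩
  · intro i j
    rw [← (orthonormal_iff_ite.mp hon) i j]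
    rw [Pool.Agent.Helper187.StepSpace.inner_of_ae (hae i) (hae j)]
  · intro g hg h
    have hx : hg.toLp g = 0 := by
      apply hcomp
      intro i
      rw [Pool.Agent.Helper187.StepSpace.inner_of_ae hg.coeFn_toLp (hae i)]
      exact h i
    have h2 : (hg.toLp g : ℝ → ℝ) =ᵐ[volume.restrict (Icc (0:ℝ) 1)] fun _ => 0 := by
      rw [hx]
      exact Lp.coeFn_zero _ _ _
    filter_upwards [hg.coeFn_toLp, h2] with t e1 e2
    rw [← e1, e2]
    rfl
  · intro f hf hne0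
    have hfL : MemLp f 2 (volume.restrict (Icc (0:ℝ) 1)) := hf.mono_exponent le_top
    obtain ⟨C, hC⟩ : ∃ C : ℝ, ∀ᵐ t ∂(volume.restrict (Icc (0:ℝ) 1)), |f t| ≤ C := by
      refine ⟨(eLpNormEssSup f (volume.restrict (Icc (0:ℝ) 1))).toReal, ?_⟩
      have hfin : eLpNormEssSup f (volume.restrict (Icc (0:ℝ) 1)) < ⊤ := by
        have := hf.2
        rwa [eLpNorm_exponent_top] at this
      filter_upwards [ae_le_eLpNormEssSup (f := f) (μ := volume.restrict (Icc (0:ℝ) 1))] with t ht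
      have h3 := ENNReal.toReal_mono hfin.ne ht
      simpa using h3
    have hne : hfL.toLp f ≠ 0 := by
      intro h0
      apply hne0
      have h2 : (hfL.toLp f : ℝ → ℝ) =ᵐ[volume.restrict (Icc (0:ℝ) 1)] fun _ => 0 := by
        rw [h0]
        exact Lp.coeFn_zero _ _ _
      filter_upwards [hfL.coeFn_toLp, h2] with t e1 e2
      rw [← e1, e2]
      rfl
    have hall : ∀ᵐ t ∂(volume.restrict (Icc (0:ℝ) 1)), ∀ i, Φ i t = φ i t := by
      rw [ae_all_iff]
      exact hae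
    filter_upwards [hdiv (hfL.toLp f) ⟨C, by
      filter_upwards [hfL.coeFn_toLp, hC] with t e1 e2
      rw [e1]
      exact e2⟩ hne, hall] with t ht ht2
    intro hb
    apply ht
    have hcoef : ∀ i, inner ℝ (hfL.toLp f) (Φ i) = ∫ x in Icc (0:ℝ) 1, f x * φ i x := fun i =>
      Pool.Agent.Helper187.StepSpace.inner_of_ae hfL.coeFn_toLp (hae i)
    simp_rw [hcoef, ht2]
    exact hb

end Pool.Agent.Helper187.EssBdd
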