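import Mathlib
import Pool.Agent.Helper187.Digits
import Pool.Agent.Helper187.StepSpace
import Pool.Agent.Helper187.Ampl3

set_option autoImplicit false

namespace Pool.Agent.Helper187.StepU

open Finset MeasureTheory Pool.Agent.Helper187.Digits Pool.Agent.Helper187.StepSpace

lemma D_point (b p : ℕ) : D b ((p:ℝ) / 2 ^ b) = p := by
  unfold D
  have : (2:ℝ) ^ b * ((p:ℝ) / 2 ^ b) = p := by
    have : (2:ℝ) ^ b ≠ 0 := by positivity
    field_simp
  rw [this, Nat.floor_natCast]

lemma coeFn_comb (M : ℕ) (a : ℕ → ℝ) (F : ℕ → H) :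
    ((∑ k ∈ range M, a k • F k : H) : ℝ → ℝ) =ᵐ[mu] fun t => ∑ k ∈ range M, a k * F k t := by
  have h1 := Lp.coeFn_finsetSum (p := 2) (μ := mu) (range M) (fun k => a k • F k)
  have h2 : ∀ k, (a k • F k : H) =ᵐ[mu] fun t => a k * F k t := by
    intro k
    filter_upwards [Lp.coeFn_smul (a k) (F k)] with t ht
    rw [ht, Pi.smul_apply, smul_eq_mul]
  have h3 : ∀ᵐ t ∂mu, ∀ k, (a k • F k : H) t = a k * F k t := ae_all_iff.mpr h2
  filter_upwards [h1, h3] with t e1 e2
  rw [e1, Finset.sum_apply]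
  exact sum_congr rfl (fun k _ => e2 k)

theorem stepH (b : ℕ) (e : H) (he : e ∈ V b) (hn : inner ℝ e e = (1:ℝ)) (A δ τ c s : ℝ)
    (hA : 0 ≤ A) (hδ : 0 < δ) (hτ : 0 < τ) (hc : 1/2 ≤ c) (hc1 : c ≤ 1) (hs0 : 0 ≤ s) (hs1 : s ≤ 1)
    (hcs : c ^ 2 + s ^ 2 = 1) :
    ∃ (b' M : ℕ) (ψ : ℕ → H) (v : H) (a : ℕ → ℝ), b < b' ∧ v ∈ V b' ∧ (∀ k < M, ψ k ∈ V b') ∧
      (∀ x ∈ V b, inner ℝ x v = 0) ∧ inner ℝ v v = (1:ℝ) ∧
      (∀ j < M, ∀ k < M, inner ℝ (ψ j) (ψ k) = if j = k then (1:ℝ) else 0) ∧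
      (∀ x ∈ V b, inner ℝ x e = 0 → ∀ k < M, inner ℝ x (ψ k) = 0) ∧
      (∀ k < M, inner ℝ (c • e - s • v) (ψ k) = 0) ∧
      (∀ k < M, |a k| ≤ 1) ∧
      (∀ (f : H) (C : ℝ), 0 ≤ C → (∀ᵐ t ∂mu, |f t| ≤ C) →
        |∑ k ∈ range M, a k * inner ℝ f (ψ k) - s * inner ℝ f e| ≤ C * τ) ∧
      (∀ x : ℕ → ℝ, δ ≤ |∑ k ∈ range M, a k * x k| → ∀ g : ℝ → ℝ, IsStep b g → (∀ t, 0 ≤ g t) →
        (1/8) * ∫ t, g t ∂mu ≤
          ∫ t, g t * ({t | ∃ N ≤ M, A ≤ |∑ k ∈ range N, x k * ψ k t|}.indicator (fun _ => (1:ℝ)) t) ∂mu) := by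
  classical
  obtain ⟨ef, hef, hee⟩ := he
  obtain ⟨G, hG0, hG⟩ := hef.bounded
  obtain ⟨E, hE⟩ := hef
  obtain ⟨n, M, φ, a, hmean, horth, hasq, hL1, hamp⟩ := Ampl.final G A δ τ hG0 hA hδ hτ
  have hEG : ∀ p < 2 ^ b, |E p| ≤ G := by
    intro p hp
    have hpos : (0:ℝ) < 2 ^ b := by positivity
    have h1 := hG ((p:ℝ) / 2 ^ b) ⟨by positivity, by
      rw [div_le_one hpos]
      exact_mod_cast hp.le⟩
    rwa [hE, D_point] at h1
  have hst : ∀ k, IsStep (b + n) (fun t => φ k (D (b + n) t % 2 ^ n)) := fun k => IsStep.digits b n (φ k)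
  set F : ℕ → H := fun k => toH (hst k) with hF
  have hFae : ∀ k, F k =ᵐ[mu] fun t => φ k (D (b + n) t % 2 ^ n) := fun k => toH_ae _
  have hFm : ∀ k, F k ∈ V (b + n) := fun k => toH_mem _
  have h2n : (0:ℝ) < 2 ^ n := by positivity
  have hxF : ∀ x ∈ V b, ∀ k < M, inner ℝ x (F k) = 0 := by
    rintro x ⟨f, hf, hxf⟩ k hk
    rw [inner_of_ae hxf (hFae k), integral_mul_digits hf n (φ k), hmean k hk]
    simp
  have hFF : ∀ j < M, ∀ k < M, inner ℝ (F j) (F k) = if j = k then (1:ℝ) else 0 := by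
    intro j hj k hk
    rw [inner_of_ae (hFae j) (hFae k)]
    have h1 := integral_mul_digits (IsStep.const b 1) n (fun l => φ j l * φ k l)
    simp only [one_mul] at h1
    rw [h1, Digits.integral_one, horth j hj k hk]
    split_ifs
    · rw [div_self h2n.ne', one_mul]
    · simp
  set v : H := ∑ k ∈ range M, a k • F k with hv
  have hvm : v ∈ V (b + n) := Submodule.sum_mem _ (fun k _ => Submodule.smul_mem _ _ (hFm k))
  have hxv : ∀ x ∈ V b, inner ℝ x v = 0 := by
    intro x hx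
    rw [hv, inner_sum]
    apply sum_eq_zero
    intro k hk
    rw [inner_smul_right, hxF x hx k (mem_range.mp hk), mul_zero]
  have hvF : ∀ k < M, inner ℝ v (F k) = a k := by
    intro k hk
    rw [hv, sum_inner]
    have : ∀ j ∈ range M, inner ℝ (a j • F j) (F k) = if j = k then a j else 0 := by
      intro j hj
      rw [inner_smul_left, hFF j (mem_range.mp hj) k hk]
      split_ifs <;> simp
    rw [sum_congr rfl this, sum_ite_eq' (range M) k, if_pos (mem_range.mpr hk)]
  have hFv : ∀ k < M, inner ℝ (F k) v = a k := by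
    intro k hk
    rw [real_inner_comm, hvF k hk]
  have hvv : inner ℝ v v = (1:ℝ) := by
    conv_lhs => rw [hv]
    rw [sum_inner]
    have : ∀ j ∈ range M, inner ℝ (a j • F j) v = a j ^ 2 := by
      intro j hj
      rw [inner_smul_left, hFv j (mem_range.mp hj)]
      simp
      ring
    rw [← hv, sum_congr rfl this, hasq]
  have hem : e ∈ V b := ⟨ef, ⟨E, hE⟩, hee⟩
  have hev : inner ℝ e v = 0 := hxv e hem
  have hve : inner ℝ v e = 0 := by rw [real_inner_comm]; exact hev
  have heF : ∀ k < M, inner ℝ e (F k) = 0 := fun k hk => hxF e hem k hk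
  have hFe : ∀ k < M, inner ℝ (F k) e = 0 := fun k hk => by rw [real_inner_comm]; exact heF k hk
  set ψ : ℕ → H := fun k => F k + a k • ((c - 1) • v + s • e) with hψ
  have hak : ∀ k < M, |a k| ≤ 1 := by
    intro k hk
    rw [← sq_le_one_iff_abs_le_one, ← hasq]
    exact single_le_sum (f := fun k => a k ^ 2) (fun _ _ => sq_nonneg _) (mem_range.mpr hk)
  have hvb : V (b+n) ≤ V (b+n+1) := V_mono (by omega)
  refine ⟨b + n + 1, M, ψ, v, a, by omega, hvb hvm, ?_, hxv, hvv, ?_, ?_, ?_, hak, ?_, ?_⟩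
  · intro k hk
    apply Submodule.add_mem _ (hvb (hFm k))
    apply Submodule.smul_mem
    apply Submodule.add_mem
    · exact Submodule.smul_mem _ _ (hvb hvm)
    · exact Submodule.smul_mem _ _ (V_mono (by omega) hem)
  · intro j hj k hk
    simp only [hψ]
    simp only [inner_add_left, inner_add_right, inner_smul_left, inner_smul_right]
    rw [hFF j hj k hk, hFv j hj, hFe j hj, hvF k hk, heF k hk, hvv, hve, hev, hn]
    simp only [conj_trivial]
    linear_combination (a j * a k) * hcs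
  · intro x hx hxe k hk
    simp only [hψ]
    simp only [inner_add_right, inner_smul_right]
    rw [hxF x hx k hk, hxv x hx, hxe]
    ring
  · intro k hk
    simp only [hψ]
    simp only [inner_sub_left, inner_add_right, inner_smul_left, inner_smul_right]
    rw [hvF k hk, heF k hk, hvv, hve, hev, hn]
    simp only [conj_trivial]
    ring
  · intro f C hC hfC
    have h1 : ∑ k ∈ range M, a k * inner ℝ f (ψ k) = inner ℝ f (∑ k ∈ range M, a k • ψ k) := by
      rw [inner_sum]
      apply sum_congr rfl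
      intro k _
      rw [inner_smul_right]
    have h2 : ∑ k ∈ range M, a k • ψ k = c • v + s • e := by
      have h3 : ∀ k ∈ range M, a k • ψ k = a k • F k + (a k ^ 2) • ((c - 1) • v + s • e) := by
        intro k _
        simp only [hψ]
        rw [smul_add, smul_smul, sq]
      rw [sum_congr rfl h3, sum_add_distrib, ← hv, ← sum_smul, hasq, one_smul, ← add_assoc]
      congr 1
      rw [sub_smul, one_smul]
      abel
    rw [h1, h2, inner_add_right, inner_smul_right, inner_smul_right]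
    have h4 : c * inner ℝ f v + s * inner ℝ f e - s * inner ℝ f e = c * inner ℝ f v := by ring
    rw [h4, abs_mul, abs_of_nonneg (by linarith : (0:ℝ) ≤ c)]
    have h5 : |inner ℝ f v| ≤ C * τ := by
      have hvae : v =ᵐ[mu] fun t => ∑ k ∈ range M, a k * φ k (D (b + n) t % 2 ^ n) := by
        have h6 : ∀ᵐ t ∂mu, ∀ k, F k t = φ k (D (b + n) t % 2 ^ n) := ae_all_iff.mpr hFae
        filter_upwards [coeFn_comb M a F, h6] with t e1 e2
        rw [hv, e1]
        exact sum_congr rfl (fun k _ => by rw [e2 k])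
      have hstep : IsStep (b + n) (fun t => |∑ k ∈ range M, a k * φ k (D (b + n) t % 2 ^ n)|) :=
        ⟨fun i => |∑ k ∈ range M, a k * φ k (i % 2 ^ n)|, fun _ => rfl⟩
      have h7 : ∫ t, |∑ k ∈ range M, a k * φ k (D (b + n) t % 2 ^ n)| ∂mu ≤ τ := by
        have h8 := integral_mul_digits (IsStep.const b 1) n (fun l => |∑ k ∈ range M, a k * φ k l|)
        simp only [one_mul] at h8
        rw [h8, Digits.integral_one, one_mul, div_le_iff₀ h2n]
        exact hL1
      rw [inner_eq]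
      calc |∫ t, f t * v t ∂mu| ≤ ∫ t, C * |∑ k ∈ range M, a k * φ k (D (b + n) t % 2 ^ n)| ∂mu := by
            rw [← Real.norm_eq_abs]
            apply norm_integral_le_of_norm_le (hstep.integrable.const_mul C)
            filter_upwards [hvae, hfC] with t e1 e2
            rw [e1, Real.norm_eq_abs, abs_mul]
            exact mul_le_mul_of_nonneg_right e2 (abs_nonneg _)
        _ = C * ∫ t, |∑ k ∈ range M, a k * φ k (D (b + n) t % 2 ^ n)| ∂mu := integral_const_mul _ _
        _ ≤ C * τ := mul_le_mul_of_nonneg_left h7 hC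
    calc c * |inner ℝ f v| ≤ 1 * (C * τ) := mul_le_mul hc1 h5 (abs_nonneg _) (by norm_num)
      _ = C * τ := one_mul _
  · intro x hx g hg hg0
    obtain ⟨g', hg'⟩ := hg
    have hg'0 : ∀ p < 2 ^ b, 0 ≤ g' p := by
      intro p _
      have := hg0 ((p:ℝ) / 2 ^ b)
      rwa [hg', D_point] at this
    have h1 : ∫ t, g t ∂mu = (∑ p ∈ range (2 ^ b), g' p) / 2 ^ b := by
      simp_rw [hg']
      exact integral_step b g'
    set Pr : ℕ → ℕ → Prop := fun p l => ∃ N ≤ M,
          A ≤ |∑ k ∈ range N, x k * φ k l + (∑ k ∈ range N, a k * x k) *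
            ((c - 1) * (∑ k ∈ range M, a k * φ k l) + s * E p)| with hPr
    have h2 : ∫ t, g t * ({t | ∃ N ≤ M, A ≤ |∑ k ∈ range N, x k * ψ k t|}.indicator
        (fun _ => (1:ℝ)) t) ∂mu = ∫ t, (fun i => g' (i / 2 ^ n) * (if Pr (i / 2 ^ n) (i % 2 ^ n) then
          (1:ℝ) else 0)) (D (b + n) t) ∂mu := by
      apply integral_congr_ae
      have hψae : ∀ᵐ t ∂mu, ∀ k, ψ k t = φ k (D (b + n) t % 2 ^ n) + a k *
          ((c - 1) * (∑ j ∈ range M, a j * φ j (D (b + n) t % 2 ^ n)) + s * E (D b t)) := by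
        rw [ae_all_iff]
        intro k
        have h6 : ∀ᵐ t ∂mu, ∀ k, F k t = φ k (D (b + n) t % 2 ^ n) := ae_all_iff.mpr hFae
        filter_upwards [h6, coeFn_comb M a F, Lp.coeFn_add (F k) (a k • ((c - 1) • v + s • e)),
          Lp.coeFn_smul (a k) ((c - 1) • v + s • e), Lp.coeFn_add ((c - 1) • v) (s • e),
          Lp.coeFn_smul (c - 1) v, Lp.coeFn_smul s e, hee] with t e1 e2 e3 e4 e5 e6 e7 e8
        simp only [hψ]
        rw [e3, Pi.add_apply, e4, Pi.smul_apply, e5, Pi.add_apply, e6, Pi.smul_apply, e7, Pi.smul_apply,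
          e8, hE, e1 k]
        simp only [smul_eq_mul]
        rw [hv, e2]
        simp only [e1]
      filter_upwards [hψae] with t ht
      rw [hg']
      have hDb : D (b + n) t / 2 ^ n = D b t := D_div b n t
      rw [hDb]
      congr 1
      have hsum : ∀ N, ∑ k ∈ range N, x k * ψ k t = ∑ k ∈ range N, x k * φ k (D (b + n) t % 2 ^ n) +
          (∑ k ∈ range N, a k * x k) * ((c - 1) * (∑ k ∈ range M, a k * φ k (D (b + n) t % 2 ^ n)) +
          s * E (D b t)) := by
        intro N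
        rw [sum_mul, ← sum_add_distrib]
        apply sum_congr rfl
        intro k _
        rw [ht k]
        ring
      simp only [Set.indicator, Set.mem_ofPred_eq, hPr]
      simp_rw [hsum]
    rw [h2, integral_step (b + n) (fun i => g' (i / 2 ^ n) *
      (if Pr (i / 2 ^ n) (i % 2 ^ n) then (1:ℝ) else 0)), h1]
    have hpb : (0:ℝ) < 2 ^ b := by positivity
    rw [pow_add (2:ℕ) b n, sum_range_mul]
    have h3 : ∀ p ∈ range (2 ^ b), g' p * ((1/8) * 2 ^ n) ≤ ∑ l ∈ range (2 ^ n),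
        g' ((p * 2 ^ n + l) / 2 ^ n) * (if Pr ((p * 2 ^ n + l) / 2 ^ n) ((p * 2 ^ n + l) % 2 ^ n) then
          (1:ℝ) else 0) := by
      intro p hp
      rw [mem_range] at hp
      have e1 : ∀ l ∈ range (2 ^ n), g' ((p * 2 ^ n + l) / 2 ^ n) *
          (if Pr ((p * 2 ^ n + l) / 2 ^ n) ((p * 2 ^ n + l) % 2 ^ n) then (1:ℝ) else 0) =
          g' p * (if Pr p l then (1:ℝ) else 0) := by
        intro l hl
        rw [mem_range] at hl
        have f1 : (p * 2 ^ n + l) / 2 ^ n = p := by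
          rw [add_comm, Nat.add_mul_div_right _ _ (by positivity), Nat.div_eq_of_lt hl, zero_add]
        have f2 : (p * 2 ^ n + l) % 2 ^ n = l := by
          rw [add_comm, Nat.add_mul_mod_self_right, Nat.mod_eq_of_lt hl]
        rw [f1, f2]
      rw [sum_congr rfl e1, ← mul_sum]
      apply mul_le_mul_of_nonneg_left _ (hg'0 p hp)
      have h4 := hamp c (s * E p) hc hc1 (by
        rw [abs_mul, abs_of_nonneg hs0]
        calc s * |E p| ≤ 1 * G := mul_le_mul hs1 (hEG p hp) (abs_nonneg _) (by norm_num)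
          _ = G := one_mul _) x hx
      refine h4.trans (le_of_eq ?_)
      rw [card_filter]
      push_cast
      apply sum_congr rfl
      intro l _
      rfl
    have h5 := sum_le_sum h3
    rw [← sum_mul] at h5
    rw [pow_add (2:ℝ) b n]
    rw [le_div_iff₀ (by positivity)]
    calc (1/8) * ((∑ p ∈ range (2 ^ b), g' p) / 2 ^ b) * (2 ^ b * 2 ^ n) =
        (∑ p ∈ range (2 ^ b), g' p) * ((1/8) * 2 ^ n) := by field_simp
      _ ≤ _ := h5

end Pool.Agent.Helper187.StepU
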