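import Mathlib
import Pool.Agent.Helper187.Digits
import Pool.Agent.Helper187.StepSpace
import Pool.Agent.Helper187.Global
import Pool.Agent.Helper187.StepU

set_option autoImplicit false

namespace Pool.Agent.Helper187.GlobalU

open Finset MeasureTheory Pool.Agent.Helper187.Digits Pool.Agent.Helper187.StepSpace
open Pool.Agent.Helper187.Global

/-- properties of one block -/
def Blk (k a i : ℕ) (s : ℝ) (φ φ' : ℕ → H) (M : ℕ) (α : ℕ → ℝ) : Prop :=
  (∀ j < M, |α j| ≤ 1) ∧
  (∀ (f : H) (C : ℝ), 0 ≤ C → (∀ᵐ t ∂mu, |f t| ≤ C) →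
    |∑ j ∈ range M, α j * inner ℝ f (φ' (2 ^ a + j)) - s * inner ℝ f (φ i)| ≤ C * (s / 2 ^ k)) ∧
  (∀ x : ℕ → ℝ, s / (k + 1) ≤ |∑ j ∈ range M, α j * x j| → ∀ g : ℝ → ℝ, IsStep a g → (∀ t, 0 ≤ g t) →
    (1/8) * ∫ t, g t ∂mu ≤
      ∫ t, g t * ({t | ∃ N ≤ M, (k:ℝ) ≤ |∑ j ∈ range N, x j * φ' (2 ^ a + j) t|}.indicator
        (fun _ => (1:ℝ)) t) ∂mu)

lemma step (k a i : ℕ) (hi : i < 2 ^ a) (s : ℝ) (hs : 0 < s) (hs2 : s ≤ 1/2) (φ : ℕ → H) (hφ : Good a φ) :
    ∃ (a' : ℕ) (φ' : ℕ → H) (M : ℕ) (α : ℕ → ℝ), a < a' ∧ Good a' φ' ∧ 2 ^ a + M ≤ 2 ^ a' ∧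
      (∀ n < 2 ^ a, ‖φ n - φ' n‖ ≤ 2 * s) ∧ Blk k a i s φ φ' M α := by
  obtain ⟨g1, g2, g3⟩ := hφ
  set c : ℝ := Real.sqrt (1 - s ^ 2) with hc
  have hc2 : c ^ 2 = 1 - s ^ 2 := Real.sq_sqrt (by nlinarith)
  have hc0 : 0 ≤ c := Real.sqrt_nonneg _
  have hcs : c ^ 2 + s ^ 2 = 1 := by linarith
  have hc1 : c ≤ 1 := by nlinarith
  have hcs1 : 1 - s ≤ c := by
    rw [hc]
    apply Real.le_sqrt_of_sq_le
    nlinarith
  have hch : 1/2 ≤ c := by linarith
  obtain ⟨a', M, ψ, v, α, haa, hvm, hψm, hxv, hvv, hψψ, hxψ, heψ, hα, hdual, hamp⟩ :=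
    StepU.stepH a (φ i) (g1 i hi) (by rw [g2 i hi i hi, if_pos rfl]) k (s / (k+1)) (s / 2 ^ k) c s
      (Nat.cast_nonneg k) (by positivity) (by positivity) hch hc1 hs.le (by linarith) hcs
  set χ : ℕ → H := fun n => if n = i then c • φ i - s • v else if n < 2 ^ a then φ n else ψ (n - 2 ^ a)
    with hχ
  have hφv : ∀ n < 2 ^ a, inner ℝ (φ n) v = 0 := fun n hn => hxv _ (g1 n hn)
  have hvφ : ∀ n < 2 ^ a, inner ℝ v (φ n) = 0 := fun n hn => by rw [real_inner_comm]; exact hφv n hn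
  have hχi : χ i = c • φ i - s • v := by simp only [hχ, if_true]
  have hχn : ∀ n, n ≠ i → n < 2 ^ a → χ n = φ n := fun n h1 h2 => by simp only [hχ, if_neg h1, if_pos h2]
  have hχk : ∀ n, 2 ^ a ≤ n → χ n = ψ (n - 2 ^ a) := fun n h => by
    simp only [hχ]
    rw [if_neg (by omega), if_neg (by omega)]
  have hon : ∀ p < 2 ^ a + M, ∀ q < 2 ^ a + M, inner ℝ (χ p) (χ q) = if p = q then (1:ℝ) else 0 := by
    have key : ∀ p < 2 ^ a + M, ∀ q < 2 ^ a + M, p ≠ q → (p = i ∨ (p < 2 ^ a ∧ q ≠ i) ∨ (2 ^ a ≤ p ∧ 2 ^ a ≤ q)) →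
        inner ℝ (χ p) (χ q) = (0:ℝ) := by
      intro p hp q hq hpq hcase
      rcases hcase with h | ⟨h, hq'⟩ | ⟨h, h'⟩
      · subst h
        rw [hχi]
        rcases lt_or_ge q (2 ^ a) with h2 | h2
        · rw [hχn q (Ne.symm hpq) h2, inner_sub_left, inner_smul_left, inner_smul_left,
            g2 p hi q h2, if_neg hpq, hvφ q h2]
          simp
        · rw [hχk q h2]
          exact heψ _ (by omega)
      · by_cases hp' : p = i
        · subst hp'
          rw [hχi]
          rcases lt_or_ge q (2 ^ a) with h2 | h2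
          · rw [hχn q (Ne.symm hpq) h2, inner_sub_left, inner_smul_left, inner_smul_left,
              g2 p hi q h2, if_neg hpq, hvφ q h2]
            simp
          · rw [hχk q h2]
            exact heψ _ (by omega)
        · rw [hχn p hp' h]
          rcases lt_or_ge q (2 ^ a) with h2 | h2
          · rw [hχn q hq' h2, g2 p h q h2, if_neg hpq]
          · rw [hχk q h2]
            exact hxψ _ (g1 p h) (by rw [g2 p h i hi, if_neg hp']) _ (by omega)
      · rw [hχk p h, hχk q h', hψψ _ (by omega) _ (by omega), if_neg (by omega)]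
    intro p hp q hq
    split_ifs with hpq
    · subst hpq
      by_cases h1 : p = i
      · subst h1
        rw [hχi]
        simp only [inner_sub_left, inner_sub_right, inner_smul_left, inner_smul_right]
        rw [g2 p hi p hi, if_pos rfl, hφv p hi, hvφ p hi, hvv]
        simp only [conj_trivial]
        linear_combination hcs
      · rcases lt_or_ge p (2 ^ a) with h2 | h2
        · rw [hχn p h1 h2, g2 p h2 p h2, if_pos rfl]
        · rw [hχk p h2, hψψ _ (by omega) _ (by omega), if_pos rfl]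
    · by_cases h1 : p = i
      · exact key p hp q hq hpq (Or.inl h1)
      · by_cases h2 : q = i
        · rw [real_inner_comm]
          exact key q hq p hp (Ne.symm hpq) (Or.inl h2)
        · rcases lt_or_ge p (2 ^ a) with h3 | h3
          · exact key p hp q hq hpq (Or.inr (Or.inl ⟨h3, h2⟩))
          · rcases lt_or_ge q (2 ^ a) with h4 | h4
            · rw [real_inner_comm]
              exact key q hq p hp (Ne.symm hpq) (Or.inr (Or.inl ⟨h4, h1⟩))
            · exact key p hp q hq hpq (Or.inr (Or.inr ⟨h3, h4⟩))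
  have hχm : ∀ p < 2 ^ a + M, χ p ∈ V a' := by
    intro p hp
    by_cases h1 : p = i
    · subst h1
      rw [hχi]
      exact Submodule.sub_mem _ (Submodule.smul_mem _ _ (V_mono haa.le (g1 p hi)))
        (Submodule.smul_mem _ _ hvm)
    · rcases lt_or_ge p (2 ^ a) with h2 | h2
      · rw [hχn p h1 h2]
        exact V_mono haa.le (g1 p h2)
      · rw [hχk p h2]
        exact hψm _ (by omega)
  obtain ⟨hN, φ', hG, hφ'⟩ := good_extend a' (2 ^ a + M) χ hχm hon
  have hφψ : ∀ j < M, φ' (2 ^ a + j) = ψ j := by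
    intro j hj
    rw [hφ' _ (by omega), hχk _ (by omega)]
    congr 1
    omega
  refine ⟨a', φ', M, α, haa, hG, hN, ?_, hα, ?_, ?_⟩
  · intro n hn
    rw [hφ' n (by omega)]
    by_cases h1 : n = i
    · subst h1
      rw [hχi]
      have hn1 : ‖φ n‖ = 1 := by
        have := g2 n hn n hn
        rw [if_pos rfl, real_inner_self_eq_norm_sq] at this
        have h0 := norm_nonneg (φ n)
        nlinarith
      have hv1 : ‖v‖ = 1 := by
        rw [real_inner_self_eq_norm_sq] at hvv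
        have h0 := norm_nonneg v
        nlinarith
      have e1 : φ n - (c • φ n - s • v) = (1 - c) • φ n + s • v := by
        rw [sub_smul, one_smul]
        abel
      rw [e1]
      calc ‖(1 - c) • φ n + s • v‖ ≤ ‖(1 - c) • φ n‖ + ‖s • v‖ := norm_add_le _ _
        _ = (1 - c) + s := by
            rw [norm_smul, norm_smul, hn1, hv1, Real.norm_eq_abs, Real.norm_eq_abs,
              abs_of_nonneg (by linarith), abs_of_pos hs]
            ring
        _ ≤ 2 * s := by linarith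
    · rw [hχn n h1 hn, sub_self, norm_zero]
      positivity
  · intro f C hC hf
    have := hdual f C hC hf
    rwa [sum_congr rfl (fun j hj => by rw [← hφψ j (mem_range.mp hj)])] at this
  · intro x hx g hg hg0
    have h := hamp x hx g hg hg0
    have e : {t | ∃ N ≤ M, (k:ℝ) ≤ |∑ j ∈ range N, x j * φ' (2 ^ a + j) t|} =
        {t | ∃ N ≤ M, (k:ℝ) ≤ |∑ j ∈ range N, x j * ψ j t|} := by
      ext t
      simp only [Set.mem_ofPred_eq]
      constructor
      · rintro ⟨N, hN, h2⟩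
        refine ⟨N, hN, ?_⟩
        rwa [sum_congr rfl (fun j hj => by rw [hφψ j (by rw [mem_range] at hj; omega)])] at h2
      · rintro ⟨N, hN, h2⟩
        refine ⟨N, hN, ?_⟩
        rwa [sum_congr rfl (fun j hj => by rw [hφψ j (by rw [mem_range] at hj; omega)])]
    rw [e]
    exact h

/-- norm of the first kind -/
lemma int_abs_le (h : H) : ∫ t, |h t| ∂mu ≤ ‖h‖ := by
  have h1 : eLpNorm h 1 mu ≤ eLpNorm h 2 mu :=
    eLpNorm_le_eLpNorm_of_exponent_le (by norm_num) (Lp.aestronglyMeasurable h)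
  have h2 : ∫ t, |h t| ∂mu = (eLpNorm h 1 mu).toReal := by
    rw [eLpNorm_one_eq_lintegral_enorm]
    rw [← integral_norm_eq_lintegral_enorm (Lp.aestronglyMeasurable h)]
    rfl
  rw [h2, Lp.norm_def]
  exact ENNReal.toReal_mono (Lp.eLpNorm_ne_top h) h1

lemma int_abs_integrable (h : H) : Integrable (fun t => |h t|) mu :=
  ((Lp.memLp h).integrable (by norm_num)).abs

lemma good_expand (a : ℕ) (φ : ℕ → H) (hφ : Good a φ) (y : H) (hy : y ∈ V a) :
    y = ∑ n ∈ range (2 ^ a), inner ℝ (φ n) y • φ n := by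
  obtain ⟨g1, g2, g3⟩ := hφ
  set w : H := y - ∑ n ∈ range (2 ^ a), inner ℝ (φ n) y • φ n with hw
  have hwm : w ∈ V a := Submodule.sub_mem _ hy (Submodule.sum_mem _ (fun n hn =>
    Submodule.smul_mem _ _ (g1 n (mem_range.mp hn))))
  have hw0 : w = 0 := by
    apply g3 w hwm
    intro i hi
    rw [hw, inner_sub_right, inner_sum]
    have : ∀ n ∈ range (2 ^ a), inner ℝ (φ i) (inner ℝ (φ n) y • φ n) =
        if n = i then inner ℝ (φ n) y else 0 := by
      intro n hn
      rw [inner_smul_right, g2 i hi n (mem_range.mp hn)]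
      by_cases h : i = n
      · rw [if_pos h, if_pos h.symm, mul_one]
      · rw [if_neg h, if_neg (Ne.symm h), mul_zero]
    rw [sum_congr rfl this, sum_ite_eq' (range (2 ^ a)) i, if_pos (mem_range.mpr hi), sub_self]
  rw [hw, sub_eq_zero] at hw0
  exact hw0

end Pool.Agent.Helper187.GlobalU
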