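import Mathlib
import Pool.Agent.Helper187.Digits
import Pool.Agent.Helper187.StepSpace
import Pool.Agent.Helper187.Global
import Pool.Agent.Helper187.GlobalU1

set_option autoImplicit false

namespace Pool.Agent.Helper187.GlobalU

open Finset MeasureTheory Filter Topology Pool.Agent.Helper187.Digits Pool.Agent.Helper187.StepSpace
open Pool.Agent.Helper187.Global

/-- the target chosen at stage k -/
def tgt (k a : ℕ) : ℕ := if (Nat.unpair k).1 < 2 ^ a then (Nat.unpair k).1 else 0

lemma tgt_lt (k a : ℕ) : tgt k a < 2 ^ a := by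
  unfold tgt
  split_ifs with h
  · exact h
  · positivity

/-- the sequence of stages -/
lemma exists_stages : ∃ (a : ℕ → ℕ) (φ : ℕ → ℕ → H) (s : ℕ → ℝ) (M : ℕ → ℕ) (α : ℕ → ℕ → ℝ),
    (∀ k, a k < a (k+1)) ∧ (∀ k, Good (a k) (φ k)) ∧ (∀ k, 0 < s k) ∧ (∀ k, s k ≤ (1/4) ^ (a k)) ∧
    (∀ k, s (k+1) = s k * (1/4) ^ (a (k+1))) ∧
    (∀ k, ∀ n < 2 ^ a k, ‖φ k n - φ (k+1) n‖ ≤ 2 * s k) ∧
    (∀ k, 2 ^ a k + M k ≤ 2 ^ a (k+1)) ∧
    (∀ k, Blk k (a k) (tgt k (a k)) (s k) (φ k) (φ (k+1)) (M k) (α k)) := by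
  obtain ⟨φ0, hφ0⟩ := good_zero
  obtain ⟨a1, φ1, _, _, h01, hG1, _, _, _⟩ := step 0 0 0 (by norm_num) (1/4) (by norm_num) (by norm_num) φ0 hφ0
  have hstep : ∀ (k : ℕ) (st : {st : ℕ × (ℕ → H) × ℝ // Good st.1 st.2.1 ∧ 0 < st.2.2 ∧
      st.2.2 ≤ (1/4) ^ st.1 ∧ st.2.2 ≤ 1/2}),
      ∃ (st' : {st : ℕ × (ℕ → H) × ℝ // Good st.1 st.2.1 ∧ 0 < st.2.2 ∧
      st.2.2 ≤ (1/4) ^ st.1 ∧ st.2.2 ≤ 1/2}) (M : ℕ) (α : ℕ → ℝ), st.1.1 < st'.1.1 ∧
        st'.1.2.2 = st.1.2.2 * (1/4) ^ st'.1.1 ∧
        (∀ n < 2 ^ st.1.1, ‖st.1.2.1 n - st'.1.2.1 n‖ ≤ 2 * st.1.2.2) ∧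
        2 ^ st.1.1 + M ≤ 2 ^ st'.1.1 ∧
        Blk k st.1.1 (tgt k st.1.1) st.1.2.2 st.1.2.1 st'.1.2.1 M α := by
    rintro k ⟨⟨a, φ, s⟩, hG, hs, hs4, hs2⟩
    obtain ⟨a', φ', M, α, h1, h2, h3, h4, h5⟩ := step k a (tgt k a) (tgt_lt k a) s hs hs2 φ hG
    have hp : (0:ℝ) < (1/4) ^ a' := by positivity
    have hp1 : ((1:ℝ)/4) ^ a' ≤ 1 := pow_le_one₀ (by norm_num) (by norm_num)
    have hs2' : s ≤ 1/2 := hs2
    have hs' : 0 < s := hs
    exact ⟨⟨⟨a', φ', s * (1/4) ^ a'⟩, h2, mul_pos hs hp, by simp only; nlinarith, by simp only; nlinarith⟩,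
      M, α, h1, rfl, h4, h3, h5⟩
  choose nxt Mf αf hn1 hn2 hn3 hn4 hn5 using hstep
  set st : ℕ → {st : ℕ × (ℕ → H) × ℝ // Good st.1 st.2.1 ∧ 0 < st.2.2 ∧
      st.2.2 ≤ (1/4) ^ st.1 ∧ st.2.2 ≤ 1/2} := fun k =>
    Nat.rec ⟨⟨0, φ0, 1/4⟩, hφ0, by norm_num, by norm_num, by norm_num⟩ (fun k s => nxt k s) k with hst
  have hsucc : ∀ k, st (k+1) = nxt k (st k) := fun k => rfl
  refine ⟨fun k => (st k).1.1, fun k => (st k).1.2.1, fun k => (st k).1.2.2, fun k => Mf k (st k),
    fun k => αf k (st k), ?_, ?_, ?_, ?_, ?_, ?_, ?_, ?_⟩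
  · intro k; simp only [hsucc]; exact hn1 k (st k)
  · intro k; exact (st k).2.1
  · intro k; exact (st k).2.2.1
  · intro k; exact (st k).2.2.2.1
  · intro k; simp only [hsucc]; exact hn2 k (st k)
  · intro k; simp only [hsucc]; exact hn3 k (st k)
  · intro k; simp only [hsucc]; exact hn4 k (st k)
  · intro k; simp only [hsucc]; exact hn5 k (st k)

/-- positive part of density: a set missing most of infinitely many spread sets is null -/
lemma null_of_spread (E : Set ℝ) (hE : MeasurableSet E) (a : ℕ → ℕ) (ha : ∀ k, k ≤ a k)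
    (S : ℕ → Set ℝ) (hSm : ∀ k, MeasurableSet (S k)) (K : Set ℕ) (hK : ∀ k0, ∃ k ∈ K, k0 ≤ k) (η : ℕ → ℝ)
    (hη : Tendsto η atTop (𝓝 0))
    (hspread : ∀ k ∈ K, ∀ g : ℝ → ℝ, IsStep (a k) g → (∀ t, 0 ≤ g t) →
      (1/8) * ∫ t, g t ∂mu ≤ ∫ t, g t * ((S k).indicator (fun _ => (1:ℝ)) t) ∂mu)
    (hsmall : ∀ k ∈ K, mu.real (E ∩ S k) ≤ η k) : mu E = 0 := by
  have hEint : Integrable (E.indicator (fun _ => (1:ℝ))) mu := (integrable_const (1:ℝ)).indicator hE
  set xE : H := indicatorConstLp 2 hE (measure_ne_top mu E) (1:ℝ) with hxE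
  have hxEae : xE =ᵐ[mu] E.indicator (fun _ => (1:ℝ)) := indicatorConstLp_coeFn
  have hkey : ∀ ε > 0, mu.real E ≤ 18 * ε := by
    intro ε hε
    obtain ⟨b, y, ⟨g0, hg0, hyg⟩, hxy⟩ := V_dense xE ε hε
    have hgst : IsStep b (fun t => |g0 t|) := by
      obtain ⟨F, hF⟩ := hg0
      exact ⟨fun i => |F i|, fun t => by simp only [hF]⟩
    have hgint : Integrable (fun t => |g0 t|) mu := hgst.integrable
    have hdint : Integrable (fun t => |E.indicator (fun _ => (1:ℝ)) t - abs (g0 t)|) mu := (hEint.sub hgint).abs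
    -- L1 distance
    have h1 : ∫ t, |E.indicator (fun _ => (1:ℝ)) t - abs (g0 t)| ∂mu ≤ ε := by
      refine le_trans ?_ ((int_abs_le (xE - y)).trans hxy)
      apply integral_mono_ae hdint (int_abs_integrable _)
      filter_upwards [Lp.coeFn_sub xE y, hxEae, hyg] with t e1 e2 e3
      rw [e1, Pi.sub_apply, e2, e3]
      have h2 : E.indicator (fun _ => (1:ℝ)) t = |E.indicator (fun _ => (1:ℝ)) t| := by
        rw [abs_of_nonneg]
        exact Set.indicator_nonneg (fun _ _ => by norm_num) _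
      conv_lhs => rw [h2]
      exact abs_abs_sub_abs_le_abs_sub _ _
    have hEE : ∫ t, E.indicator (fun _ => (1:ℝ)) t ∂mu = mu.real E := integral_indicator_one hE
    obtain ⟨k1, hk1⟩ := Metric.tendsto_atTop.mp hη ε hε
    obtain ⟨k, hkK, hk⟩ := hK (max b k1)
    have hak : b ≤ a k := ((le_max_left b k1).trans hk).trans (ha k)
    have hηk : η k ≤ ε := by
      have := hk1 k ((le_max_right b k1).trans hk)
      rw [Real.dist_eq, sub_zero] at this
      exact (le_abs_self _).trans this.le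
    have h2 := hspread k hkK (fun t => |g0 t|) (hgst.mono hak) (fun t => abs_nonneg _)
    have hSint : Integrable (fun t => |g0 t| * (S k).indicator (fun _ => (1:ℝ)) t) mu := by
      have : (fun t => |g0 t| * (S k).indicator (fun _ => (1:ℝ)) t) = (S k).indicator (fun t => |g0 t|) := by
        funext t
        by_cases h : t ∈ S k <;> simp [h]
      rw [this]
      exact hgint.indicator (hSm k)
    have hES : Integrable ((E ∩ S k).indicator (fun _ => (1:ℝ))) mu :=
      (integrable_const (1:ℝ)).indicator (hE.inter (hSm k))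
    have h3 : ∫ t, |g0 t| * (S k).indicator (fun _ => (1:ℝ)) t ∂mu ≤
        ∫ t, ((E ∩ S k).indicator (fun _ => (1:ℝ)) t + |E.indicator (fun _ => (1:ℝ)) t - abs (g0 t)|) ∂mu := by
      apply integral_mono hSint (hES.add hdint)
      intro t
      change |g0 t| * (S k).indicator (fun _ => (1:ℝ)) t ≤ (E ∩ S k).indicator (fun _ => (1:ℝ)) t +
        |E.indicator (fun _ => (1:ℝ)) t - abs (g0 t)|
      by_cases h1 : t ∈ E <;> by_cases h2 : t ∈ S k
      · have h12 : t ∈ E ∩ S k := ⟨h1, h2⟩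
        rw [Set.indicator_of_mem h2, Set.indicator_of_mem h1, Set.indicator_of_mem h12, mul_one]
        have := neg_abs_le (1 - abs (g0 t))
        linarith
      · have h12 : t ∉ E ∩ S k := fun h => h2 h.2
        rw [Set.indicator_of_notMem h2, Set.indicator_of_notMem h12, mul_zero, zero_add]
        exact abs_nonneg _
      · have h12 : t ∉ E ∩ S k := fun h => h1 h.1
        rw [Set.indicator_of_mem h2, Set.indicator_of_notMem h1, Set.indicator_of_notMem h12, mul_one,
          zero_add, zero_sub, abs_neg, abs_abs]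
      · have h12 : t ∉ E ∩ S k := fun h => h1 h.1
        rw [Set.indicator_of_notMem h2, Set.indicator_of_notMem h12, mul_zero, zero_add]
        exact abs_nonneg _
    rw [integral_add hES hdint] at h3
    have h4 : ∫ t, (E ∩ S k).indicator (fun _ => (1:ℝ)) t ∂mu = mu.real (E ∩ S k) :=
      integral_indicator_one (hE.inter (hSm k))
    rw [h4] at h3
    have h5 := hsmall k hkK
    have h6 : mu.real E ≤ ∫ t, |g0 t| ∂mu + ε := by
      rw [← hEE]
      have h7 : ∫ t, E.indicator (fun _ => (1:ℝ)) t ∂mu ≤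
          ∫ t, (|g0 t| + |E.indicator (fun _ => (1:ℝ)) t - abs (g0 t)|) ∂mu := by
        apply integral_mono hEint (hgint.add hdint)
        intro t
        change E.indicator (fun _ => (1:ℝ)) t ≤ abs (g0 t) + |E.indicator (fun _ => (1:ℝ)) t - abs (g0 t)|
        have := le_abs_self (E.indicator (fun _ => (1:ℝ)) t - abs (g0 t))
        linarith
      rw [integral_add hgint hdint] at h7
      linarith
    linarith
  have h0 : mu.real E = 0 := by
    apply le_antisymm _ measureReal_nonneg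
    apply le_of_forall_pos_le_add
    intro ε hε
    have := hkey (ε / 18) (by positivity)
    linarith
  rw [measureReal_eq_zero_iff] at h0
  exact h0

theorem main :
    ∃ Φ : ℕ → H, Orthonormal ℝ Φ ∧ (∀ x : H, (∀ i, inner ℝ x (Φ i) = 0) → x = 0) ∧
      ∀ f : H, (∃ C : ℝ, ∀ᵐ t ∂mu, |f t| ≤ C) → f ≠ 0 →
        ∀ᵐ t ∂mu, ¬ BddAbove (Set.range (fun N : ℕ => |∑ i ∈ range N, inner ℝ f (Φ i) * Φ i t|)) := by
  classical
  obtain ⟨a, φ, s, M, α, h1, hG, hs0, hs4, hss, hdist, hM, hB⟩ := exists_stages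
  have hmono : StrictMono a := strictMono_nat_of_lt_succ h1
  have hage : ∀ k, k ≤ a k := fun k => hmono.id_le k
  have hlt : ∀ k, k < 2 ^ a k := fun k =>
    lt_of_lt_of_le (Nat.lt_two_pow_self) (Nat.pow_le_pow_right (by norm_num) (hage k))
  have hpm : ∀ k j, 2 ^ a k ≤ 2 ^ a (k + j) := fun k j =>
    Nat.pow_le_pow_right (by norm_num) (hmono.monotone (by omega))
  have hsdec : ∀ k j, s (k + j) ≤ s k * (1/4) ^ j := by
    intro k j
    induction j with
    | zero => simp
    | succ j ih =>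
      rw [← add_assoc, hss (k+j), pow_succ]
      have h2 : ((1:ℝ)/4) ^ (a (k + j + 1)) ≤ 1/4 := by
        have h3 : 1 ≤ a (k+j+1) := le_trans (by omega) (hage (k+j+1))
        calc ((1:ℝ)/4) ^ (a (k + j + 1)) ≤ (1/4) ^ 1 := pow_le_pow_of_le_one (by norm_num) (by norm_num) h3
          _ = 1/4 := pow_one _
      have h4 := hs0 (k+j)
      calc s (k+j) * (1/4) ^ (a (k+j+1)) ≤ s (k+j) * (1/4) := mul_le_mul_of_nonneg_left h2 h4.le
        _ ≤ (s k * (1/4) ^ j) * (1/4) := mul_le_mul_of_nonneg_right ih (by norm_num)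
        _ = _ := by ring
  have hd : ∀ k, ∀ n < 2 ^ a k, ∀ j, dist (φ (k + j) n) (φ (k + (j+1)) n) ≤ (2 * s k) * (1/4) ^ j := by
    intro k n hn j
    rw [dist_eq_norm]
    refine (hdist (k+j) n (lt_of_lt_of_le hn (hpm k j))).trans ?_
    have := hsdec k j
    calc 2 * s (k+j) ≤ 2 * (s k * (1/4) ^ j) := by linarith
      _ = _ := by ring
  have hlim : ∀ n, ∃ x : H, Tendsto (fun k => φ k n) atTop (𝓝 x) := by
    intro n
    have hc := cauchySeq_of_le_geometric (1/4) (2 * s n) (by norm_num) (hd n n (hlt n))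
    obtain ⟨x, hx⟩ := cauchySeq_tendsto_of_complete hc
    refine ⟨x, ?_⟩
    rw [← tendsto_add_atTop_iff_nat n]
    have : (fun k => φ (k + n) n) = fun k => φ (n + k) n := by funext k; rw [add_comm]
    rw [this]
    exact hx
  choose Φ hΦ using hlim
  have hΦd : ∀ k, ∀ n < 2 ^ a k, ‖φ k n - Φ n‖ ≤ 4 * s k := by
    intro k n hn
    have ht : Tendsto (fun j => φ (k + j) n) atTop (𝓝 (Φ n)) := by
      have := (tendsto_add_atTop_iff_nat k).mpr (hΦ n)
      have e : (fun j => φ (j + k) n) = fun j => φ (k + j) n := by funext j; rw [add_comm]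
      rwa [e] at this
    have h2 := dist_le_of_le_geometric_of_tendsto₀ (1/4) (2 * s k) (by norm_num) (hd k n hn) ht
    rw [dist_eq_norm] at h2
    have := hs0 k
    simp only [add_zero] at h2
    refine h2.trans ?_
    rw [div_le_iff₀ (by norm_num)]
    linarith
  have hcomp : ∀ x : H, (∀ i, inner ℝ x (Φ i) = 0) → x = 0 := by
    intro z hz
    have hzy : ∀ b, ∀ y ∈ V b, inner ℝ z y = 0 := by
      intro b y hy
      have hbound : ∀ k, b ≤ k → |inner ℝ z y| ≤ (4 * ‖y‖ * ‖z‖) * (1/2) ^ k := by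
        intro k hk
        have hy' : y ∈ V (a k) := V_mono (hk.trans (hage k)) hy
        have hexp := good_expand (a k) (φ k) (hG k) y hy'
        have h2 : |inner ℝ z y| ≤ ∑ n ∈ range (2 ^ a k), ‖y‖ * (‖z‖ * (4 * s k)) := by
          rw [hexp, inner_sum]
          refine (abs_sum_le_sum_abs _ _).trans (sum_le_sum ?_)
          intro n hn
          rw [mem_range] at hn
          rw [← hexp, inner_smul_right, abs_mul]
          have hnorm : ‖φ k n‖ = 1 := by
            have h3 := (hG k).2.1 n hn n hn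
            rw [if_pos rfl, real_inner_self_eq_norm_sq] at h3
            have h0 := norm_nonneg (φ k n)
            nlinarith
          apply mul_le_mul _ _ (abs_nonneg _) (norm_nonneg _)
          · calc |inner ℝ (φ k n) y| ≤ ‖φ k n‖ * ‖y‖ := abs_real_inner_le_norm _ _
              _ = ‖y‖ := by rw [hnorm, one_mul]
          · have h4 : inner ℝ z (φ k n) = inner ℝ z (φ k n - Φ n) := by
              rw [inner_sub_right, hz n, sub_zero]
            rw [h4]
            exact (abs_real_inner_le_norm _ _).trans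
              (mul_le_mul_of_nonneg_left (hΦd k n hn) (norm_nonneg _))
        rw [sum_const, card_range, nsmul_eq_mul] at h2
        refine h2.trans ?_
        have h5 := hs4 k
        have h6 : ((2 ^ a k : ℕ) : ℝ) * s k ≤ (1/2) ^ k := by
          push_cast
          calc (2:ℝ) ^ a k * s k ≤ 2 ^ a k * (1/4) ^ a k := mul_le_mul_of_nonneg_left h5 (by positivity)
            _ = (1/2) ^ a k := by rw [← mul_pow]; norm_num
            _ ≤ (1/2) ^ k := pow_le_pow_of_le_one (by norm_num) (by norm_num) (hage k)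
        calc ((2 ^ a k : ℕ) : ℝ) * (‖y‖ * (‖z‖ * (4 * s k))) = (4 * ‖y‖ * ‖z‖) * (((2 ^ a k : ℕ) : ℝ) * s k) := by ring
          _ ≤ _ := mul_le_mul_of_nonneg_left h6 (by positivity)
      have hlim0 : Tendsto (fun k : ℕ => (4 * ‖y‖ * ‖z‖) * ((1:ℝ)/2) ^ k) atTop (𝓝 0) := by
        have := (tendsto_pow_atTop_nhds_zero_of_lt_one (by norm_num : (0:ℝ) ≤ 1/2) (by norm_num)).const_mul
          (4 * ‖y‖ * ‖z‖)
        simpa using this
      have h7 : |inner ℝ z y| ≤ 0 := by
        apply ge_of_tendsto hlim0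
        filter_upwards [eventually_ge_atTop b] with k hk
        exact hbound k hk
      exact abs_nonpos_iff.mp h7
    by_contra hne
    have hpos : 0 < ‖z‖ := norm_pos_iff.mpr hne
    obtain ⟨b, y, hy, hxy⟩ := V_dense z (‖z‖/2) (by linarith)
    have h2 : inner ℝ z z = inner ℝ z (z - y) := by
      rw [inner_sub_right, hzy b y hy, sub_zero]
    have h3 : inner ℝ z (z - y) ≤ ‖z‖ * ‖z - y‖ := real_inner_le_norm _ _
    rw [← h2, real_inner_self_eq_norm_sq] at h3
    nlinarith
  have hon : Orthonormal ℝ Φ := by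
    rw [orthonormal_iff_ite]
    intro i j
    have ht : Tendsto (fun k => inner ℝ (φ k i) (φ k j)) atTop (𝓝 (inner ℝ (Φ i) (Φ j))) :=
      (hΦ i).inner (hΦ j)
    have ht2 : Tendsto (fun k => inner ℝ (φ k i) (φ k j)) atTop (𝓝 (if i = j then (1:ℝ) else 0)) := by
      apply tendsto_const_nhds.congr'
      filter_upwards [eventually_ge_atTop (max i j)] with k hk
      have hi : i < 2 ^ a k := lt_of_lt_of_le (hlt i) (Nat.pow_le_pow_right (by norm_num)
        (hmono.monotone ((le_max_left i j).trans hk)))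
      have hj : j < 2 ^ a k := lt_of_lt_of_le (hlt j) (Nat.pow_le_pow_right (by norm_num)
        (hmono.monotone ((le_max_right i j).trans hk)))
      exact ((hG k).2.1 i hi j hj).symm
    exact tendsto_nhds_unique ht ht2
  refine ⟨Φ, hon, hcomp, ?_⟩
  · -- divergence
    rintro f ⟨C0, hC0⟩ hf0
    set C : ℝ := max C0 0 with hCd
    have hC : 0 ≤ C := le_max_right _ _
    have hfC : ∀ᵐ t ∂mu, |f t| ≤ C := by
      filter_upwards [hC0] with t ht
      exact ht.trans (le_max_left _ _)
    obtain ⟨i, hi⟩ : ∃ i, inner ℝ f (Φ i) ≠ 0 := by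
      by_contra hcon
      push Not at hcon
      exact hf0 (hcomp f hcon)
    set η : ℝ := |inner ℝ f (Φ i)| with hη
    have hη0 : 0 < η := abs_pos.mpr hi
    -- threshold
    have hthr : ∃ k1 : ℕ, ∀ k, k1 ≤ k → (8 * ‖f‖ + C) * ((1:ℝ)/2) ^ k + 1 / ((k:ℝ) + 1) ≤ η := by
      have e1 : Tendsto (fun k : ℕ => (8 * ‖f‖ + C) * ((1:ℝ)/2) ^ k + 1 / ((k:ℝ) + 1)) atTop (𝓝 0) := by
        have t1 := (tendsto_pow_atTop_nhds_zero_of_lt_one (by norm_num : (0:ℝ) ≤ 1/2) (by norm_num)).const_mul
          (8 * ‖f‖ + C)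
        have t2 := tendsto_one_div_add_atTop_nhds_zero_nat (𝕜 := ℝ)
        simpa using t1.add t2
      obtain ⟨k1, hk1⟩ := Metric.tendsto_atTop.mp e1 η hη0
      refine ⟨k1, fun k hk => ?_⟩
      have := hk1 k hk
      rw [Real.dist_eq, sub_zero] at this
      exact (le_abs_self _).trans this.le
    obtain ⟨k1, hk1⟩ := hthr
    -- the key lower bound
    have hMs : ∀ k, ((2 ^ a (k+1) : ℕ) : ℝ) * s (k+1) ≤ s k * (1/2) ^ k := by
      intro k
      rw [hss k]
      push_cast
      have h2 : (2:ℝ) ^ a (k+1) * (1/4) ^ a (k+1) ≤ (1/2) ^ k := by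
        calc (2:ℝ) ^ a (k+1) * (1/4) ^ a (k+1) = (1/2) ^ a (k+1) := by rw [← mul_pow]; norm_num
          _ ≤ (1/2) ^ k := pow_le_pow_of_le_one (by norm_num) (by norm_num)
              ((Nat.le_succ k).trans (hage (k+1)))
      calc (2:ℝ) ^ a (k+1) * (s k * (1/4) ^ a (k+1)) = s k * ((2:ℝ) ^ a (k+1) * (1/4) ^ a (k+1)) := by ring
        _ ≤ _ := mul_le_mul_of_nonneg_left h2 (hs0 k).le
    have hkey : ∀ k, (Nat.unpair k).1 = i → k1 ≤ k →
        s k / (k + 1) ≤ |∑ j ∈ range (M k), α k j * inner ℝ f (Φ (2 ^ a k + j))| := by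
      intro k hki hk
      have hile : i < 2 ^ a k := by
        have h2 := Nat.unpair_left_le k
        rw [hki] at h2
        exact lt_of_le_of_lt h2 (hlt k)
      have htgt : tgt k (a k) = i := by
        unfold tgt
        rw [hki, if_pos hile]
      obtain ⟨b1, b2, _⟩ := hB k
      have c1 := b2 f C hC hfC
      rw [htgt] at c1
      have c2 : |∑ j ∈ range (M k), α k j * inner ℝ f (Φ (2 ^ a k + j)) -
          ∑ j ∈ range (M k), α k j * inner ℝ f (φ (k+1) (2 ^ a k + j))| ≤ 4 * ‖f‖ * (s k * (1/2) ^ k) := by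
        rw [← sum_sub_distrib]
        calc _ ≤ ∑ j ∈ range (M k), |α k j * inner ℝ f (Φ (2 ^ a k + j)) -
              α k j * inner ℝ f (φ (k+1) (2 ^ a k + j))| := abs_sum_le_sum_abs _ _
          _ ≤ ∑ j ∈ range (M k), ‖f‖ * (4 * s (k+1)) := by
              apply sum_le_sum
              intro j hj
              rw [mem_range] at hj
              rw [← mul_sub, ← inner_sub_right, abs_mul]
              have hjM : 2 ^ a k + j < 2 ^ a (k+1) := by have := hM k; omega
              calc |α k j| * |inner ℝ f (Φ (2 ^ a k + j) - φ (k+1) (2 ^ a k + j))| ≤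
                  1 * (‖f‖ * (4 * s (k+1))) := by
                    apply mul_le_mul (b1 j hj) _ (abs_nonneg _) (by norm_num)
                    refine (abs_real_inner_le_norm _ _).trans ?_
                    apply mul_le_mul_of_nonneg_left _ (norm_nonneg _)
                    rw [norm_sub_rev]
                    exact hΦd (k+1) _ hjM
                _ = _ := one_mul _
          _ = (M k : ℝ) * (‖f‖ * (4 * s (k+1))) := by rw [sum_const, card_range, nsmul_eq_mul]
          _ ≤ ((2 ^ a (k+1) : ℕ) : ℝ) * (‖f‖ * (4 * s (k+1))) := by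
              apply mul_le_mul_of_nonneg_right
              · have : M k ≤ 2 ^ a (k+1) := by have := hM k; omega
                exact_mod_cast this
              · have := (hs0 (k+1)).le
                positivity
          _ = 4 * ‖f‖ * (((2 ^ a (k+1) : ℕ) : ℝ) * s (k+1)) := by ring
          _ ≤ _ := mul_le_mul_of_nonneg_left (hMs k) (by positivity)
      have hshalf : s k ≤ (1/2) ^ k := by
        refine (hs4 k).trans ?_
        calc ((1:ℝ)/4) ^ a k ≤ (1/2) ^ a k := pow_le_pow_left₀ (by norm_num) (by norm_num) _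
          _ ≤ (1/2) ^ k := pow_le_pow_of_le_one (by norm_num) (by norm_num) (hage k)
      have c3 : η - 4 * ‖f‖ * (1/2) ^ k ≤ |inner ℝ f (φ k i)| := by
        have d1 : |inner ℝ f (φ k i - Φ i)| ≤ ‖f‖ * (4 * s k) :=
          (abs_real_inner_le_norm _ _).trans (mul_le_mul_of_nonneg_left (hΦd k i hile) (norm_nonneg _))
        have d2 : inner ℝ f (φ k i - Φ i) = inner ℝ f (φ k i) - inner ℝ f (Φ i) := inner_sub_right _ _ _
        rw [d2] at d1
        have d3 := abs_sub_abs_le_abs_sub (inner ℝ f (Φ i)) (inner ℝ f (φ k i))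
        rw [abs_sub_comm] at d3
        have d4 : ‖f‖ * (4 * s k) ≤ 4 * ‖f‖ * (1/2) ^ k := by
          calc ‖f‖ * (4 * s k) = 4 * ‖f‖ * s k := by ring
            _ ≤ _ := mul_le_mul_of_nonneg_left hshalf (by positivity)
        linarith
      have hsk := hs0 k
      have c4 : s k * (η - 4 * ‖f‖ * (1/2) ^ k) ≤ |s k * inner ℝ f (φ k i)| := by
        rw [abs_mul, abs_of_pos hsk]
        exact mul_le_mul_of_nonneg_left c3 hsk.le
      have c5 : C * (s k / 2 ^ k) = s k * (C * (1/2) ^ k) := by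
        rw [one_div_pow]
        ring
      rw [c5] at c1
      have c6 : s k / (k + 1) ≤ s k * (η - (8 * ‖f‖ + C) * (1/2) ^ k) := by
        rw [div_eq_mul_one_div]
        apply mul_le_mul_of_nonneg_left _ hsk.le
        have := hk1 k hk
        linarith
      have c7 := abs_sub_abs_le_abs_sub (s k * inner ℝ f (φ k i))
        (∑ j ∈ range (M k), α k j * inner ℝ f (φ (k+1) (2 ^ a k + j)))
      rw [abs_sub_comm] at c7
      have c8 := abs_sub_abs_le_abs_sub (∑ j ∈ range (M k), α k j * inner ℝ f (φ (k+1) (2 ^ a k + j)))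
        (∑ j ∈ range (M k), α k j * inner ℝ f (Φ (2 ^ a k + j)))
      rw [abs_sub_comm] at c8
      nlinarith
    -- the small exceptional sets
    set Z : ℕ → Set ℝ := fun k => {t | 1 ≤ ∑ n ∈ range (2 ^ a (k+1)), |Φ n t - φ (k+1) n t|} with hZ
    have hZmu : ∀ k, mu.real (Z k) ≤ 4 * (1/2) ^ k := by
      intro k
      have hint : ∀ n, Integrable (fun t => |Φ n t - φ (k+1) n t|) mu := fun n =>
        (((Lp.memLp (Φ n)).integrable (by norm_num)).sub
          ((Lp.memLp (φ (k+1) n)).integrable (by norm_num))).abs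
      have h2 := mul_meas_ge_le_integral_of_nonneg (μ := mu)
        (f := fun t => ∑ n ∈ range (2 ^ a (k+1)), |Φ n t - φ (k+1) n t|)
        (Filter.Eventually.of_forall (fun t => sum_nonneg (fun _ _ => abs_nonneg _)))
        (integrable_finsetSum _ (fun n _ => hint n)) 1
      rw [one_mul] at h2
      refine h2.trans ?_
      rw [integral_finsetSum _ (fun n _ => hint n)]
      calc _ ≤ ∑ n ∈ range (2 ^ a (k+1)), 4 * s (k+1) := by
            apply sum_le_sum
            intro n hn
            rw [mem_range] at hn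
            have e1 : ∫ t, |Φ n t - φ (k+1) n t| ∂mu = ∫ t, |(Φ n - φ (k+1) n : H) t| ∂mu := by
              apply integral_congr_ae
              filter_upwards [Lp.coeFn_sub (Φ n) (φ (k+1) n)] with t ht
              rw [ht, Pi.sub_apply]
            rw [e1]
            refine (int_abs_le _).trans ?_
            rw [norm_sub_rev]
            exact hΦd (k+1) n hn
        _ = 4 * (((2 ^ a (k+1) : ℕ) : ℝ) * s (k+1)) := by
            rw [sum_const, card_range, nsmul_eq_mul]
            ring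
        _ ≤ 4 * (s k * (1/2) ^ k) := mul_le_mul_of_nonneg_left (hMs k) (by norm_num)
        _ ≤ 4 * (1/2) ^ k := by
            have h3 : s k ≤ 1 := (hs4 k).trans (pow_le_one₀ (by norm_num) (by norm_num))
            have h4 : (0:ℝ) ≤ (1/2) ^ k := by positivity
            nlinarith
    set S : ℕ → Set ℝ := fun k => {t | ∃ N ≤ M k, (k:ℝ) ≤
      |∑ j ∈ range N, inner ℝ f (Φ (2 ^ a k + j)) * φ (k+1) (2 ^ a k + j) t|} with hS
    have hSm : ∀ k, MeasurableSet (S k) := by
      intro k
      have e1 : S k = ⋃ N : ℕ, ⋃ _ : N ≤ M k, {t | (k:ℝ) ≤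
          |∑ j ∈ range N, inner ℝ f (Φ (2 ^ a k + j)) * φ (k+1) (2 ^ a k + j) t|} := by
        ext t
        simp only [hS, Set.mem_ofPred_eq, Set.mem_iUnion, exists_prop]
      rw [e1]
      apply MeasurableSet.iUnion
      intro N
      apply MeasurableSet.iUnion
      intro _
      apply measurableSet_le measurable_const
      apply Measurable.abs
      apply Finset.measurable_fun_sum
      intro j _
      exact (Lp.stronglyMeasurable (φ (k+1) (2 ^ a k + j))).measurable.const_mul _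
    have hE : ∀ B : ℕ, mu {t | ∀ N : ℕ, |∑ i ∈ range N, inner ℝ f (Φ i) * Φ i t| ≤ B} = 0 := by
      intro B
      apply null_of_spread _ _ a hage S hSm
        {k | (Nat.unpair k).1 = i ∧ k1 ≤ k ∧ ‖f‖ + 2 * B < k} _ (fun k => 4 * (1/2) ^ k)
      · have := (tendsto_pow_atTop_nhds_zero_of_lt_one (by norm_num : (0:ℝ) ≤ 1/2) (by norm_num)).const_mul
          (4:ℝ)
        simpa using this
      · rintro k ⟨e1, e2, e3⟩ g hg hg0
        obtain ⟨_, _, b3⟩ := hB k
        exact b3 (fun j => inner ℝ f (Φ (2 ^ a k + j))) (hkey k e1 e2) g hg hg0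
      · rintro k ⟨e1, e2, e3⟩
        refine le_trans (measureReal_mono ?_ (measure_ne_top _ _)) (hZmu k)
        rintro t ⟨ht1, ht2⟩
        obtain ⟨N, hN, hbig⟩ := ht2
        simp only [hZ, Set.mem_ofPred_eq]
        by_contra hcon
        rw [not_le] at hcon
        have f1 : |∑ j ∈ range N, inner ℝ f (Φ (2 ^ a k + j)) * Φ (2 ^ a k + j) t| ≤ 2 * B := by
          have g1 := ht1 (2 ^ a k)
          have g2 := ht1 (2 ^ a k + N)
          rw [sum_range_add] at g2
          have g3 := abs_sub_abs_le_abs_sub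
            (∑ j ∈ range N, inner ℝ f (Φ (2 ^ a k + j)) * Φ (2 ^ a k + j) t)
            (-(∑ i ∈ range (2 ^ a k), inner ℝ f (Φ i) * Φ i t))
          rw [abs_neg, sub_neg_eq_add, add_comm (∑ j ∈ range N, _)] at g3
          linarith
        have f2 : |∑ j ∈ range N, inner ℝ f (Φ (2 ^ a k + j)) * φ (k+1) (2 ^ a k + j) t -
            ∑ j ∈ range N, inner ℝ f (Φ (2 ^ a k + j)) * Φ (2 ^ a k + j) t| ≤ ‖f‖ := by
          rw [← sum_sub_distrib]
          calc _ ≤ ∑ j ∈ range N, |inner ℝ f (Φ (2 ^ a k + j)) * φ (k+1) (2 ^ a k + j) t -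
                inner ℝ f (Φ (2 ^ a k + j)) * Φ (2 ^ a k + j) t| := abs_sum_le_sum_abs _ _
            _ ≤ ∑ j ∈ range N, ‖f‖ * |Φ (2 ^ a k + j) t - φ (k+1) (2 ^ a k + j) t| := by
                apply sum_le_sum
                intro j _
                rw [← mul_sub, abs_mul, abs_sub_comm]
                apply mul_le_mul_of_nonneg_right _ (abs_nonneg _)
                have hn1 : ‖Φ (2 ^ a k + j)‖ = 1 := hon.1 _
                have := abs_real_inner_le_norm f (Φ (2 ^ a k + j))
                rwa [hn1, mul_one] at this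
            _ = ‖f‖ * ∑ j ∈ range N, |Φ (2 ^ a k + j) t - φ (k+1) (2 ^ a k + j) t| := by rw [mul_sum]
            _ ≤ ‖f‖ * ∑ n ∈ range (2 ^ a (k+1)), |Φ n t - φ (k+1) n t| := by
                apply mul_le_mul_of_nonneg_left _ (norm_nonneg _)
                have g4 : ∑ j ∈ range N, |Φ (2 ^ a k + j) t - φ (k+1) (2 ^ a k + j) t| ≤
                    ∑ n ∈ range (2 ^ a k + N), |Φ n t - φ (k+1) n t| := by
                  rw [sum_range_add]
                  have : 0 ≤ ∑ n ∈ range (2 ^ a k), |Φ n t - φ (k+1) n t| :=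
                    sum_nonneg (fun _ _ => abs_nonneg _)
                  linarith
                refine g4.trans ?_
                apply sum_le_sum_of_subset_of_nonneg
                · apply range_subset_range.mpr
                  have := hM k
                  omega
                · intro _ _ _; exact abs_nonneg _
            _ ≤ ‖f‖ * 1 := mul_le_mul_of_nonneg_left hcon.le (norm_nonneg _)
            _ = ‖f‖ := mul_one _
        have f3 := abs_sub_abs_le_abs_sub
          (∑ j ∈ range N, inner ℝ f (Φ (2 ^ a k + j)) * φ (k+1) (2 ^ a k + j) t)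
          (∑ j ∈ range N, inner ℝ f (Φ (2 ^ a k + j)) * Φ (2 ^ a k + j) t)
        linarith
      · -- measurability
        have e1 : {t | ∀ N : ℕ, |∑ i ∈ range N, inner ℝ f (Φ i) * Φ i t| ≤ B} =
            ⋂ N : ℕ, {t | |∑ i ∈ range N, inner ℝ f (Φ i) * Φ i t| ≤ B} := by
          ext t
          simp only [Set.mem_ofPred_eq, Set.mem_iInter]
        rw [e1]
        apply MeasurableSet.iInter
        intro N
        apply measurableSet_le _ measurable_const
        apply Measurable.abs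
        apply Finset.measurable_fun_sum
        intro j _
        exact (Lp.stronglyMeasurable (Φ j)).measurable.const_mul _
      · -- infinitely many stages
        intro k0
        obtain ⟨k2, hk2⟩ := exists_nat_gt (‖f‖ + 2 * B)
        have h2 : k0 + k1 + k2 ≤ Nat.pair i (k0 + k1 + k2) := Nat.right_le_pair _ _
        refine ⟨Nat.pair i (k0 + k1 + k2), ⟨by rw [Nat.unpair_pair], by omega, ?_⟩, by omega⟩
        have h3 : (k2:ℝ) ≤ (Nat.pair i (k0 + k1 + k2) : ℝ) := by
          have : k2 ≤ Nat.pair i (k0 + k1 + k2) := by omega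
          exact_mod_cast this
        linarith
    have hall : ∀ᵐ t ∂mu, ∀ B : ℕ, ¬ ∀ N : ℕ, |∑ i ∈ range N, inner ℝ f (Φ i) * Φ i t| ≤ B := by
      rw [ae_all_iff]
      intro B
      rw [ae_iff]
      simp only [not_not]
      exact hE B
    filter_upwards [hall] with t ht hb
    obtain ⟨B, hBd⟩ := hb
    obtain ⟨B', hB'⟩ := exists_nat_ge B
    apply ht B'
    intro N
    exact (hBd ⟨N, rfl⟩).trans hB'

end Pool.Agent.Helper187.GlobalU
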